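import Mathlib
import Pool.Agent.W451.SAM.BDE
import Pool.Agent.W637.SAM.DI2
import Pool.Agent.W735.SAM.DI3

/-!
# Exact Erdős matching conjecture: hypergraphs with bounded degrees and small matching number
-/

set_option autoImplicit false

namespace Pool.Agent.U196.EMC

open Finset Pool.Agent.W890.SF Pool.Agent.W451.SAM

variable {α : Type} [DecidableEq α]

omit [DecidableEq α] in
theorem hasM_mono {F F' : Finset (Finset α)} {s s' : ℕ} (hF : F ⊆ F') (hs : s' ≤ s)
    (h : HasM F s) : HasM F' s' := by
  obtain ⟨M, hM, hm, hc⟩ := h
  obtain ⟨M', hM', hM'c⟩ := Finset.exists_subset_card_eq (s := M) (n := s') (by omega)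
  exact ⟨M', (hM'.trans hM).trans hF, mtch_sub hm hM', hM'c⟩

/-- a `k`-graph with bounded degrees and small matching number has few edges -/
theorem smallM (j : ℕ) (U : Finset α) (T X : ℕ)
    (hX : (j + 2) ^ 2 * T * (U.card - 2).choose j ≤ X) :
    ∀ (t : ℕ) (G : Finset (Finset α)), t ≤ T → (∀ e ∈ G, e ⊆ U ∧ e.card = j + 2) →
      (∀ v ∈ U, dg G v ≤ X) → ¬ HasM G (t + 1) → G.card ≤ t * X := by
  classical
  intro t
  induction t with
  | zero =>
    intro G _ _ _ hno
    by_contra h
    have h0 : 0 < G.card := by omega
    obtain ⟨e, he⟩ := Finset.card_pos.mp h0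
    apply hno
    refine ⟨{e}, by simpa using he, ?_, by simp⟩
    intro f hf f' hf' hne
    rw [Finset.mem_singleton] at hf hf'
    exact absurd (hf.trans hf'.symm) hne
  | succ t ih =>
    intro G ht hG hdeg hno
    by_cases hA : ∃ v ∈ U, (j + 2) * (t + 1) * (U.card - 2).choose j < dg G v
    · obtain ⟨v, hv, hdv⟩ := hA
      set G' := G.filter (fun e => v ∉ e) with hG'
      have hcard : G'.card + dg G v = G.card := by
        rw [hG']
        unfold dg
        rw [add_comm]
        exact Finset.card_filter_add_card_filter_not (fun e => v ∈ e)
      have hih : ¬ HasM G' (t + 1) := by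
        intro hH
        obtain ⟨M, hMF, hM, hMc⟩ := hH
        set W := M.biUnion id with hW
        have hWc : W.card ≤ (j + 2) * (t + 1) := by
          calc W.card ≤ M.card * (j + 2) := by
                apply Finset.card_biUnion_le_card_mul
                intro e he
                have := hMF he
                rw [hG', Finset.mem_filter] at this
                exact (hG e this.1).2.le
            _ = (j + 2) * (t + 1) := by rw [hMc]; ring
        have hWU : ∀ w ∈ W, w ∈ U ∧ v ≠ w := by
          intro w hw
          rw [hW, Finset.mem_biUnion] at hw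
          obtain ⟨e, he, hwe⟩ := hw
          have := hMF he
          rw [hG', Finset.mem_filter] at this
          refine ⟨(hG e this.1).1 hwe, ?_⟩
          rintro rfl
          exact this.2 hwe
        have hex : ∃ e ∈ G, v ∈ e ∧ Disjoint e W := by
          by_contra hno'
          push Not at hno'
          have hsub : G.filter (fun e => v ∈ e) ⊆
              W.biUnion (fun w => G.filter (fun e => v ∈ e ∧ w ∈ e)) := by
            intro e he
            rw [Finset.mem_filter] at he
            have h1 := hno' e he.1 he.2
            rw [Finset.not_disjoint_iff] at h1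
            obtain ⟨w, hwe, hwW⟩ := h1
            rw [Finset.mem_biUnion]
            exact ⟨w, hwW, Finset.mem_filter.mpr ⟨he.1, he.2, hwe⟩⟩
          have h2 : dg G v ≤ W.card * (U.card - 2).choose j := by
            unfold dg
            refine (Finset.card_le_card hsub).trans ?_
            apply Finset.card_biUnion_le_card_mul
            intro w hw
            obtain ⟨a, b⟩ := hWU w hw
            have h3 := cod_le U G (j + 2) hG v w hv a b
            simpa using h3
          have h4 : W.card * (U.card - 2).choose j ≤ (j + 2) * (t + 1) * (U.card - 2).choose j :=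
            Nat.mul_le_mul_right _ hWc
          omega
        obtain ⟨e, heF, hve, hdis⟩ := hex
        have := hasM_ins hM (fun f hf => Finset.mem_of_mem_filter f (hMF hf)) e heF ⟨v, hve⟩ hdis
        rw [hMc] at this
        exact hno this
      have h1 := ih G' (by omega) (fun e he => hG e (Finset.mem_of_mem_filter e he))
        (fun w hw => le_trans (Finset.card_le_card
          (Finset.filter_subset_filter _ (Finset.filter_subset _ _))) (hdeg w hw)) hih
      have h2 := hdeg v hv
      have h3 : (t + 1) * X = t * X + X := by ring
      omega
    · push Not at hA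
      obtain ⟨M, hMm, hMmax⟩ := Finset.exists_max_image (G.powerset.filter (fun M => Mtch M))
        Finset.card ⟨∅, by
          rw [Finset.mem_filter]
          refine ⟨Finset.empty_mem_powerset _, ?_⟩
          intro e he
          exact absurd he (Finset.notMem_empty e)⟩
      rw [Finset.mem_filter, Finset.mem_powerset] at hMm
      obtain ⟨hMF, hM⟩ := hMm
      have hMs : M.card ≤ t + 1 := by
        by_contra hlt
        push Not at hlt
        obtain ⟨M', hM', hM'c⟩ := Finset.exists_subset_card_eq (s := M) (n := t + 1 + 1) (by omega)
        exact hno ⟨M', hM'.trans hMF, mtch_sub hM hM', hM'c⟩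
      set W := M.biUnion id with hW
      have hWc : W.card ≤ (j + 2) * (t + 1) := by
        calc W.card ≤ M.card * (j + 2) := by
              apply Finset.card_biUnion_le_card_mul
              intro e he
              exact (hG e (hMF he)).2.le
          _ ≤ (t + 1) * (j + 2) := Nat.mul_le_mul_right _ hMs
          _ = (j + 2) * (t + 1) := by ring
      have hmeet : ∀ e ∈ G, ¬ Disjoint e W := by
        intro e he hdis
        have hne : e.Nonempty := by
          rw [← Finset.card_pos, (hG e he).2]
          omega
        obtain ⟨M', h1, h2, h3⟩ := hasM_ins hM hMF e he hne hdis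
        have h4 := hMmax M' (Finset.mem_filter.mpr ⟨Finset.mem_powerset.mpr h1, h2⟩)
        omega
      have hsub : G ⊆ W.biUnion (fun w => G.filter (fun e => w ∈ e)) := by
        intro e he
        have h1 := hmeet e he
        rw [Finset.not_disjoint_iff] at h1
        obtain ⟨w, hwe, hwW⟩ := h1
        rw [Finset.mem_biUnion]
        exact ⟨w, hwW, Finset.mem_filter.mpr ⟨he, hwe⟩⟩
      have h1 : G.card ≤ W.card * ((j + 2) * (t + 1) * (U.card - 2).choose j) := by
        refine (Finset.card_le_card hsub).trans ?_
        apply Finset.card_biUnion_le_card_mul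
        intro w hw
        rw [hW, Finset.mem_biUnion] at hw
        obtain ⟨e, he, hwe⟩ := hw
        exact hA w ((hG e (hMF he)).1 hwe)
      have h2 : G.card ≤ ((j + 2) * (t + 1)) * ((j + 2) * (t + 1) * (U.card - 2).choose j) :=
        h1.trans (Nat.mul_le_mul_right _ hWc)
      have h6 : ((j + 2) * (t + 1)) * ((j + 2) * (t + 1) * (U.card - 2).choose j) =
          (t + 1) * ((j + 2) ^ 2 * (t + 1) * (U.card - 2).choose j) := by ring
      rw [h6] at h2
      refine h2.trans (Nat.mul_le_mul_left _ (le_trans ?_ hX))
      exact Nat.mul_le_mul_right _ (Nat.mul_le_mul_left _ ht)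

end Pool.Agent.U196.EMC
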