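import Mathlib
import Pool.Agent.U196.EMC.Small

/-!
# Exact Erdős matching conjecture: perfect matchings in nearly complete hypergraphs
-/

set_option autoImplicit false

namespace Pool.Agent.U196.EMC

open Finset Pool.Agent.W890.SF Pool.Agent.W451.SAM

/-- the `(k-1)`-subsets of `W` (without `v`) which do not form an edge with `v` -/
def miss {n : ℕ} (k : ℕ) (F : Finset (Finset (Fin n))) (W : Finset (Fin n)) (v : Fin n) :
    Finset (Finset (Fin n)) :=
  ((W.erase v).powersetCard (k - 1)).filter (fun A => insert v A ∉ F)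

/-- the `(k-1)`-subsets of `W` which form an edge with `v` -/
def lnk {n : ℕ} (k : ℕ) (F : Finset (Finset (Fin n))) (W : Finset (Fin n)) (v : Fin n) :
    Finset (Finset (Fin n)) :=
  (W.powersetCard (k - 1)).filter (fun A => insert v A ∈ F)

theorem choose_real_le (a j : ℕ) (n : ℝ) (h : (a : ℝ) ≤ n) : ((a.choose j : ℕ) : ℝ) ≤ n ^ j := by
  have h1 : a.choose j ≤ a ^ j := Nat.choose_le_pow _ _
  have h2 : ((a.choose j : ℕ) : ℝ) ≤ (a : ℝ) ^ j := by exact_mod_cast h1
  exact h2.trans (pow_le_pow_left₀ (Nat.cast_nonneg _) h j)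

/-- perfect matchings on a set `W` all of whose vertices have few missing edges -/
theorem pm_on (hU : S_PMU) (k : ℕ) (hk : 3 ≤ k) : ∃ δ : ℝ, 0 < δ ∧ ∃ N0 : ℕ,
    ∀ (n : ℕ) (F : Finset (Finset (Fin n))), Unif k F → ∀ W : Finset (Fin n), N0 ≤ W.card →
      k ∣ W.card → (∀ v ∈ W, ((miss k F W v).card : ℝ) ≤ δ * (W.card : ℝ) ^ (k - 1)) →
      ∃ M ⊆ F, Mtch M ∧ (∀ e ∈ M, e ⊆ W) ∧ M.card = W.card / k := by
  classical
  obtain ⟨n0, h0⟩ := hU k hk
  refine ⟨(1 / 4) ^ (k - 1) / ((k - 1).factorial : ℝ) / 2, by positivity, max n0 (8 * k + 8), ?_⟩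
  intro n F hF W hW hkW hm
  obtain ⟨N, hN⟩ : ∃ N, N = W.card := ⟨_, rfl⟩
  rw [← hN] at hm hW hkW ⊢
  have hn0 : n0 ≤ N := (le_max_left _ _).trans hW
  have h8 : 8 * k + 8 ≤ N := (le_max_right _ _).trans hW
  obtain ⟨ι, hι⟩ : ∃ ι : Fin N ↪ Fin n, ∀ x, x ∈ W ↔ ∃ i, ι i = x := by
    refine ⟨(W.orderEmbOfFin hN.symm).toEmbedding, ?_⟩
    intro x
    have h1 := Finset.range_orderEmbOfFin W hN.symm
    have h2 : x ∈ Set.range (W.orderEmbOfFin hN.symm) ↔ x ∈ W := by rw [h1]; simp
    rw [← h2]
    rfl
  set H : Finset (Finset (Fin N)) := univ.filter (fun A => A.map ι ∈ F) with hH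
  have hHU : Unif k H := by
    intro A hA
    rw [hH, mem_filter] at hA
    rw [← card_map ι, hF _ hA.2]
  have hdeg : ∀ v : Fin N, (N - 1).choose (k - 1) - (N - N / k).choose (k - 1) < dg H v := by
    intro v
    have hιv : ι v ∈ W := (hι _).2 ⟨v, rfl⟩
    -- the missing edges
    have h1 : (((univ : Finset (Fin N)).powersetCard k).filter (fun e => v ∈ e)).card ≤
        dg H v + (miss k F W (ι v)).card := by
      have hsub : ((univ : Finset (Fin N)).powersetCard k).filter (fun e => v ∈ e) ⊆
          H.filter (fun e => v ∈ e) ∪ ((((univ : Finset (Fin N)).powersetCard k).filter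
            (fun e => v ∈ e)).filter (fun e => e ∉ H)) := by
        intro e he
        rw [mem_union]
        by_cases h : e ∈ H
        · left
          exact mem_filter.2 ⟨h, (mem_filter.1 he).2⟩
        · right
          exact mem_filter.2 ⟨he, h⟩
      refine (card_le_card hsub).trans ((card_union_le _ _).trans ?_)
      refine Nat.add_le_add_left ?_ _
      refine card_le_card_of_injOn (fun e => (e.erase v).map ι) ?_ ?_
      · intro e he
        rw [mem_coe, mem_filter, mem_filter, mem_powersetCard] at he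
        obtain ⟨⟨⟨-, hec⟩, hve⟩, heH⟩ := he
        rw [mem_coe, miss, mem_filter, mem_powersetCard]
        refine ⟨⟨?_, ?_⟩, ?_⟩
        · intro x hx
          rw [mem_map] at hx
          obtain ⟨i, hi, rfl⟩ := hx
          rw [mem_erase] at hi ⊢
          exact ⟨fun h => hi.1 (ι.injective h), (hι _).2 ⟨i, rfl⟩⟩
        · rw [card_map, card_erase_of_mem hve, hec]
        · intro hcon
          apply heH
          rw [hH, mem_filter]
          refine ⟨mem_univ _, ?_⟩
          rw [← map_insert, insert_erase hve] at hcon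
          exact hcon
      · intro e he e' he' hee
        rw [mem_coe, mem_filter, mem_filter] at he he'
        have h2 : e.erase v = e'.erase v := map_injective ι hee
        rw [← insert_erase he.1.2, ← insert_erase he'.1.2, h2]
    rw [Pool.Agent.W735.SAM.DI3.card_mem k (by omega) v] at h1
    have h2 := hm (ι v) hιv
    have h3 : (((k - 1).factorial : ℝ) : ℝ) ≠ 0 := by positivity
    have hNk : 2 * (N / k) ≤ N := by
      have : N / k ≤ N / 2 := Nat.div_le_div_left (by omega) (by norm_num)
      omega
    have h4 := Pool.Agent.W735.SAM.DI3.chlow N (k - 1) (N - N / k) (by omega)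
    have h5 : (1 / 4 : ℝ) ^ (k - 1) / ((k - 1).factorial : ℝ) / 2 * (N : ℝ) ^ (k - 1) =
        ((N : ℝ) / 4) ^ (k - 1) / ((k - 1).factorial : ℝ) / 2 := by
      rw [div_pow (N : ℝ), div_pow, one_pow]
      field_simp
    rw [h5] at h2
    have hN0 : (0 : ℝ) < N := by
      have : 0 < N := by omega
      exact_mod_cast this
    have h6 : (0 : ℝ) < ((N : ℝ) / 4) ^ (k - 1) / ((k - 1).factorial : ℝ) := by positivity
    have h7 : ((miss k F W (ι v)).card : ℝ) < (((N - N / k).choose (k - 1) : ℕ) : ℝ) := by
      linarith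
    have h8 : (miss k F W (ι v)).card < (N - N / k).choose (k - 1) := by exact_mod_cast h7
    have h9 : 1 ≤ N / k := by
      obtain ⟨c, hc⟩ := hkW
      have hc0 : 0 < c := by
        rcases Nat.eq_zero_or_pos c with h | h
        · rw [h, mul_zero] at hc; omega
        · exact h
      rw [hc, Nat.mul_div_cancel_left c (by omega)]
      exact hc0
    have h10 : (N - N / k).choose (k - 1) ≤ (N - 1).choose (k - 1) :=
      Nat.choose_le_choose _ (by omega)
    omega
  obtain ⟨M, hM, hMm, hMc⟩ := h0 N hn0 hkW H hHU hdeg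
  refine ⟨M.map (mapEmbedding ι).toEmbedding, ?_, ?_, ?_, ?_⟩
  · intro e he
    rw [mem_map] at he
    obtain ⟨A, hA, rfl⟩ := he
    exact (mem_filter.1 (hM hA)).2
  · intro e he e' he' hne
    rw [mem_map] at he he'
    obtain ⟨A, hA, rfl⟩ := he
    obtain ⟨A', hA', rfl⟩ := he'
    have : A ≠ A' := fun h => hne (by rw [h])
    have h1 := hMm A hA A' hA' this
    exact (disjoint_map ι).2 h1
  · intro e he x hx
    rw [mem_map] at he
    obtain ⟨A, hA, rfl⟩ := he
    have hx' : x ∈ A.map ι := hx
    rw [mem_map] at hx'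
    obtain ⟨i, -, rfl⟩ := hx'
    exact (hι _).2 ⟨i, rfl⟩
  · rw [card_map, hMc]

/-- greedy choice of disjoint links -/
theorem greedy {n : ℕ} (j : ℕ) (F : Finset (Finset (Fin n))) (W Q : Finset (Fin n)) (D : ℕ) :
    ∀ U : Finset (Fin n), Disjoint U W → Disjoint U Q → (Q.card + (j + 1) * U.card) * n ^ j < D →
      (∀ u ∈ U, D ≤ (lnk (j + 2) F W u).card) →
      ∃ M ⊆ F, Mtch M ∧ M.card = U.card ∧ (∀ e ∈ M, e ⊆ (W ∪ U) \ Q) ∧
        ((M.biUnion id) ∩ W).card = (j + 1) * U.card := by
  classical
  intro U
  induction U using Finset.induction with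
  | empty =>
    intro _ _ _ _
    exact ⟨∅, empty_subset _, fun e he => absurd he (notMem_empty _), rfl,
      fun e he => absurd he (notMem_empty _), by simp⟩
  | insert u U hu ih =>
    intro hUW hUQ hD hl
    rw [card_insert_of_notMem hu] at hD
    rw [disjoint_insert_left] at hUW hUQ
    obtain ⟨M, hMF, hM, hMc, hMs, hMW⟩ := ih hUW.2 hUQ.2 (lt_of_le_of_lt (by gcongr; omega) hD)
      (fun w hw => hl w (mem_insert_of_mem hw))
    set X : Finset (Fin n) := Q ∪ ((M.biUnion id) ∩ W) with hX
    have hXc : X.card ≤ Q.card + (j + 1) * U.card := by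
      rw [← hMW]
      exact card_union_le _ _
    -- find A
    have hex : ∃ A ∈ lnk (j + 2) F W u, Disjoint A X := by
      by_contra hno
      push Not at hno
      have hunif : Unif (j + 1) (lnk (j + 2) F W u) := by
        intro A hA
        rw [lnk, mem_filter, mem_powersetCard] at hA
        exact hA.1.2
      have h1 := Pool.Agent.W637.SAM.meet_card (lnk (j + 2) F W u) hunif X
      rw [filter_true_of_mem hno] at h1
      have h2 := hl u (mem_insert_self _ _)
      have h3 : X.card * n ^ j ≤ (Q.card + (j + 1) * (U.card + 1)) * n ^ j :=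
        Nat.mul_le_mul_right _ (hXc.trans (by gcongr; omega))
      omega
    obtain ⟨A, hA, hAX⟩ := hex
    rw [lnk, mem_filter, mem_powersetCard] at hA
    obtain ⟨⟨hAW, hAc⟩, hAF⟩ := hA
    have hAc' : A.card = j + 1 := hAc
    have huA : u ∉ A := fun h => hUW.1 (hAW h)
    have hMsub : M.biUnion id ⊆ (W ∪ U) \ Q := by
      intro x hx
      rw [mem_biUnion] at hx
      obtain ⟨e, he, hxe⟩ := hx
      exact hMs e he hxe
    have huM : u ∉ M.biUnion id := by
      intro h
      have := hMsub h
      rw [mem_sdiff, mem_union] at this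
      rcases this.1 with h1 | h1
      · exact hUW.1 h1
      · exact hu h1
    have hAM : Disjoint A (M.biUnion id) := by
      rw [Finset.disjoint_left]
      intro x hx hxM
      exact (Finset.disjoint_left.1 hAX hx)
        (mem_union_right _ (mem_inter.2 ⟨hxM, hAW hx⟩))
    have hdis : Disjoint (insert u A) (M.biUnion id) := by
      rw [disjoint_insert_left]
      exact ⟨huM, hAM⟩
    have hnotin : insert u A ∉ M := by
      intro h
      exact huM (mem_biUnion.2 ⟨_, h, mem_insert_self _ _⟩)
    refine ⟨insert (insert u A) M, ?_, mtch_ins hM _ hdis, ?_, ?_, ?_⟩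
    · intro f hf
      rw [mem_insert] at hf
      rcases hf with rfl | hf
      · exact hAF
      · exact hMF hf
    · rw [card_insert_of_notMem hnotin, card_insert_of_notMem hu, hMc]
    · intro e he
      rw [mem_insert] at he
      rcases he with rfl | he
      · intro x hx
        rw [mem_insert] at hx
        rw [mem_sdiff, mem_union]
        rcases hx with rfl | hx
        · exact ⟨Or.inr (mem_insert_self _ _), hUQ.1⟩
        · refine ⟨Or.inl (hAW hx), fun h => ?_⟩
          exact (Finset.disjoint_left.1 hAX hx) (mem_union_left _ h)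
      · intro x hx
        have := hMs e he hx
        rw [mem_sdiff, mem_union] at this ⊢
        exact ⟨this.1.imp_right (mem_insert_of_mem), this.2⟩
    · rw [biUnion_insert, card_insert_of_notMem hu, union_inter_distrib_right,
        card_union_of_disjoint, hMW]
      · have h1 : (id (insert u A) : Finset (Fin n)) ∩ W = A := by
          rw [id, insert_inter_of_notMem hUW.1]
          exact inter_eq_left.2 hAW
        rw [h1, hAc']
        ring
      · exact disjoint_of_subset_left inter_subset_left
          (disjoint_of_subset_right inter_subset_left hdis)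

end Pool.Agent.U196.EMC
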