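import Mathlib
import Pool.Agent.U196.EMC.Match

/-!
# Exact Erdős matching conjecture: completion of matchings near the clique
-/

set_option autoImplicit false

namespace Pool.Agent.U196.EMC

open Finset Pool.Agent.W890.SF Pool.Agent.W451.SAM

theorem mtch_union {α : Type} [DecidableEq α] {M1 M2 : Finset (Finset α)} (h1 : Mtch M1)
    (h2 : Mtch M2) (h : ∀ e ∈ M1, ∀ e' ∈ M2, Disjoint e e') : Mtch (M1 ∪ M2) := by
  intro e he e' he' hne
  rw [mem_union] at he he'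
  rcases he with he | he <;> rcases he' with he' | he'
  · exact h1 e he e' he' hne
  · exact h e he e' he'
  · exact (h e' he' e he).symm
  · exact h2 e he e' he' hne

theorem card_mtch_union {α : Type} [DecidableEq α] {M1 M2 : Finset (Finset α)}
    (h1 : ∀ e ∈ M1, e.Nonempty) (h : ∀ e ∈ M1, ∀ e' ∈ M2, Disjoint e e') :
    (M1 ∪ M2).card = M1.card + M2.card := by
  apply card_union_of_disjoint
  rw [Finset.disjoint_left]
  intro e he he'
  obtain ⟨x, hx⟩ := h1 e he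
  exact (Finset.disjoint_left.1 (h e he e he')) hx hx

theorem completion (hU : S_PMU) (k : ℕ) (hk : 3 ≤ k) (δ2 : ℝ) (hδ2 : 0 < δ2) :
    ∃ δ1 δ3 : ℝ, 0 < δ1 ∧ 0 < δ3 ∧ ∃ n0 : ℕ, ∀ n : ℕ, n0 ≤ n →
    ∀ F : Finset (Finset (Fin n)), Unif k F → ∀ W U Q : Finset (Fin n), n ≤ 3 * W.card →
      Disjoint U W → Disjoint U Q → (U.card : ℝ) ≤ δ3 * n → (Q.card : ℝ) ≤ δ3 * n →
      (∀ v ∈ W, ((miss k F W v).card : ℝ) ≤ δ1 * (n : ℝ) ^ (k - 1)) →
      (∀ u ∈ U, δ2 * (n : ℝ) ^ (k - 1) ≤ ((lnk k F W u).card : ℝ)) →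
      ∃ M ⊆ F, Mtch M ∧ (∀ e ∈ M, e ⊆ (W ∪ U) \ Q) ∧ M.card = ((W \ Q).card + U.card) / k := by
  classical
  obtain ⟨δ, hδ, N0, hpm⟩ := pm_on hU k hk
  have hk0 : (0 : ℝ) < k := by exact_mod_cast (by omega : 0 < k)
  refine ⟨δ / 4 ^ (k - 1), min (δ2 / (2 * k)) (1 / (24 * k)), by positivity, by positivity,
    4 * N0 + 24 * k + 1, ?_⟩
  intro n hn F hF W U Q hWn hUW hUQ hUc hQc hmiss hlnk
  set δ3 : ℝ := min (δ2 / (2 * k)) (1 / (24 * k)) with hδ3
  have hδ3a : k * δ3 ≤ δ2 / 2 := by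
    calc (k : ℝ) * δ3 ≤ k * (δ2 / (2 * k)) := mul_le_mul_of_nonneg_left (min_le_left _ _) hk0.le
      _ = δ2 / 2 := by field_simp
  have hδ3b : k * δ3 ≤ 1 / 24 := by
    calc (k : ℝ) * δ3 ≤ k * (1 / (24 * k)) := mul_le_mul_of_nonneg_left (min_le_right _ _) hk0.le
      _ = 1 / 24 := by field_simp
  obtain ⟨j, rfl⟩ : ∃ j, k = j + 2 := ⟨k - 2, by omega⟩
  have hn1 : (0 : ℝ) < n := by
    have : 0 < n := by omega
    exact_mod_cast this
  have hnj : (0 : ℝ) < (n : ℝ) ^ j := by positivity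
  have hQU : (Q.card : ℝ) + (j + 1) * U.card ≤ ((j + 2 : ℕ) : ℝ) * δ3 * n := by
    push_cast
    have h1 : ((j : ℝ) + 1) * U.card ≤ (j + 1) * (δ3 * n) :=
      mul_le_mul_of_nonneg_left hUc (by positivity)
    nlinarith
  have hsimp : j + 2 - 1 = j + 1 := by omega
  rw [hsimp] at hmiss hlnk
  -- greedy part
  obtain ⟨M1, hM1F, hM1, hM1c, hM1s, hM1W⟩ := greedy j F W Q ⌈δ2 * (n : ℝ) ^ (j + 1)⌉₊ U hUW hUQ
    (by
      have h1 : (((Q.card + (j + 1) * U.card) * n ^ j : ℕ) : ℝ) <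
          ((⌈δ2 * (n : ℝ) ^ (j + 1)⌉₊ : ℕ) : ℝ) := by
        refine lt_of_lt_of_le ?_ (Nat.le_ceil _)
        push_cast
        have h2 : ((Q.card : ℝ) + (j + 1) * U.card) * (n : ℝ) ^ j ≤ (δ2 / 2 * n) * (n : ℝ) ^ j := by
          refine mul_le_mul_of_nonneg_right ?_ hnj.le
          refine hQU.trans ?_
          exact mul_le_mul_of_nonneg_right hδ3a hn1.le
        have h3 : (δ2 / 2 * n) * (n : ℝ) ^ j = δ2 * (n : ℝ) ^ (j + 1) / 2 := by ring
        have h4 : 0 < δ2 * (n : ℝ) ^ (j + 1) := by positivity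
        linarith
      exact_mod_cast h1)
    (fun u hu => Nat.ceil_le.2 (hlnk u hu))
  set B : Finset (Fin n) := M1.biUnion id with hB
  have hBsub : B ⊆ (W ∪ U) \ Q := by
    intro x hx
    rw [hB, mem_biUnion] at hx
    obtain ⟨e, he, hxe⟩ := hx
    exact hM1s e he hxe
  set W1 : Finset (Fin n) := (W \ Q) \ B with hW1
  have hW1c : W1.card + (j + 1) * U.card = (W \ Q).card := by
    rw [← hM1W, hW1]
    have h1 : B ∩ W = (W \ Q) ∩ B := by
      ext x
      simp only [mem_inter, mem_sdiff]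
      constructor
      · rintro ⟨h1, h2⟩
        have := hBsub h1
        rw [mem_sdiff] at this
        exact ⟨⟨h2, this.2⟩, h1⟩
      · rintro ⟨⟨h1, _⟩, h2⟩
        exact ⟨h2, h1⟩
    rw [h1]
    exact card_sdiff_add_card_inter _ _
  obtain ⟨W2, hW2, hW2c⟩ := Finset.exists_subset_card_eq
    (s := W1) (n := (j + 2) * (W1.card / (j + 2))) (Nat.mul_div_le _ _)
  have hW2W : W2 ⊆ W := fun x hx => (mem_sdiff.1 (mem_sdiff.1 (hW2 hx)).1).1
  have hWQ : W.card ≤ (W \ Q).card + Q.card := by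
    have := le_card_sdiff Q W
    omega
  have hW2n : (n : ℝ) / 4 ≤ (W2.card : ℝ) := by
    have h1 : (W1.card : ℝ) ≤ W2.card + ((j + 2 : ℕ) : ℝ) := by
      have : W1.card ≤ W2.card + (j + 2) := by
        rw [hW2c]
        have := Nat.div_add_mod W1.card (j + 2)
        have h2 := Nat.mod_lt W1.card (show 0 < j + 2 by omega)
        omega
      exact_mod_cast this
    have h2 : (W1.card : ℝ) + (j + 1) * U.card = ((W \ Q).card : ℝ) := by exact_mod_cast hW1c
    have h3 : (W.card : ℝ) ≤ ((W \ Q).card : ℝ) + Q.card := by exact_mod_cast hWQ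
    have h4 : (n : ℝ) ≤ 3 * W.card := by exact_mod_cast hWn
    have h5 : (24 : ℝ) * ((j + 2 : ℕ) : ℝ) ≤ n := by
      have : 24 * (j + 2) ≤ n := by omega
      exact_mod_cast this
    have h6 : ((j + 2 : ℕ) : ℝ) * δ3 * n ≤ 1 / 24 * n := mul_le_mul_of_nonneg_right hδ3b hn1.le
    linarith
  obtain ⟨M2, hM2F, hM2, hM2s, hM2c⟩ := hpm n F hF W2 (by
      have h1 : (4 * N0 : ℝ) ≤ n := by
        have : 4 * N0 ≤ n := by omega
        exact_mod_cast this
      have h2 : (N0 : ℝ) ≤ W2.card := by linarith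
      exact_mod_cast h2)
    (by rw [hW2c]; exact Dvd.intro _ rfl)
    (by
      intro v hv
      have h1 : (miss (j + 2) F W2 v).card ≤ (miss (j + 2) F W v).card := by
        unfold miss
        exact card_le_card (filter_subset_filter _ (powersetCard_mono (erase_subset_erase _ hW2W)))
      have h2 : ((miss (j + 2) F W2 v).card : ℝ) ≤ ((miss (j + 2) F W v).card : ℝ) := by
        exact_mod_cast h1
      refine h2.trans ((hmiss v (hW2W hv)).trans ?_)
      rw [hsimp]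
      have h3 : δ / 4 ^ (j + 1) * (n : ℝ) ^ (j + 1) = δ * ((n : ℝ) / 4) ^ (j + 1) := by
        rw [div_pow]; ring
      rw [h3]
      exact mul_le_mul_of_nonneg_left (pow_le_pow_left₀ (by positivity) hW2n _) hδ.le)
  have hdis : ∀ e ∈ M1, ∀ e' ∈ M2, Disjoint e e' := by
    intro e he e' he'
    rw [Finset.disjoint_left]
    intro x hx hx'
    have h1 : x ∈ B := mem_biUnion.2 ⟨e, he, hx⟩
    exact (mem_sdiff.1 (hW2 (hM2s e' he' hx'))).2 h1
  refine ⟨M1 ∪ M2, union_subset hM1F hM2F, mtch_union hM1 hM2 hdis, ?_, ?_⟩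
  · intro e he
    rw [mem_union] at he
    rcases he with he | he
    · exact hM1s e he
    · intro x hx
      have h1 := hW2 (hM2s e he hx)
      rw [hW1, mem_sdiff, mem_sdiff] at h1
      rw [mem_sdiff, mem_union]
      exact ⟨Or.inl h1.1.1, h1.1.2⟩
  · rw [card_mtch_union (fun e he => by
      rw [← card_pos, hF e (hM1F he)]; omega) hdis, hM1c, hM2c, hW2c,
      Nat.mul_div_cancel_left _ (by omega : 0 < j + 2), ← hW1c]
    have : W1.card + (j + 1) * U.card + U.card = W1.card + (j + 2) * U.card := by ring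
    rw [this, Nat.add_mul_div_left _ _ (by omega : 0 < j + 2)]
    ring

end Pool.Agent.U196.EMC
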