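import Mathlib
import Pool.Agent.U196.EMC.Compl

/-!
# Exact Erdős matching conjecture: degree counts
-/

set_option autoImplicit false

namespace Pool.Agent.U196.EMC

open Finset Pool.Agent.W890.SF Pool.Agent.W451.SAM

/-- edges through `v` whose remainder is not inside `P` -/
theorem deg_out {n : ℕ} (r : ℕ) (F : Finset (Finset (Fin n))) (hF : Unif (r + 1) F)
    (P : Finset (Fin n)) (v : Fin n) :
    (F.filter (fun e => v ∈ e ∧ ¬ e.erase v ⊆ P)).card + (P.erase v).card.choose r ≤
      (n - 1).choose r := by
  classical
  have h1 : (F.filter (fun e => v ∈ e ∧ ¬ e.erase v ⊆ P)).card ≤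
      ((((univ : Finset (Fin n)).erase v).powersetCard r) \ ((P.erase v).powersetCard r)).card := by
    refine card_le_card_of_injOn (fun e => e.erase v) ?_ ?_
    · intro e he
      rw [mem_coe, mem_filter] at he
      obtain ⟨heF, hve, hsub⟩ := he
      rw [mem_coe, mem_sdiff, mem_powersetCard, mem_powersetCard]
      have hc : (e.erase v).card = r := by
        rw [card_erase_of_mem hve, hF e heF]; rfl
      refine ⟨⟨erase_subset_erase _ (subset_univ _), hc⟩, fun h => hsub ?_⟩
      exact h.1.trans (erase_subset _ _)
    · intro e he e' he' hee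
      rw [mem_coe, mem_filter] at he he'
      have h2 : e.erase v = e'.erase v := hee
      rw [← insert_erase he.2.1, ← insert_erase he'.2.1, h2]
  rw [card_sdiff_of_subset (powersetCard_mono (erase_subset_erase _ (subset_univ _))),
    card_powersetCard, card_powersetCard, card_erase_of_mem (mem_univ v), card_univ,
    Fintype.card_fin] at h1
  have h2 : (P.erase v).card.choose r ≤ (n - 1).choose r := by
    apply Nat.choose_le_choose
    have : (P.erase v).card ≤ ((univ : Finset (Fin n)).erase v).card :=
      card_le_card (erase_subset_erase _ (subset_univ _))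
    rwa [card_erase_of_mem (mem_univ v), card_univ, Fintype.card_fin] at this
  omega

/-- edges through `v ∉ P` whose remainder is inside `P = W ∪ U` -/
theorem deg_in {n : ℕ} (j : ℕ) (F : Finset (Finset (Fin n))) (hF : Unif (j + 2) F)
    (W U : Finset (Fin n)) (v : Fin n) :
    (F.filter (fun e => v ∈ e ∧ e.erase v ⊆ W ∪ U)).card ≤
      (lnk (j + 2) F W v).card + U.card * n ^ j := by
  classical
  set E : Finset (Finset (Fin n)) := (univ : Finset (Fin n)).powersetCard (j + 1) with hE
  have h1 : (F.filter (fun e => v ∈ e ∧ e.erase v ⊆ W ∪ U)).card ≤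
      (lnk (j + 2) F W v ∪ E.filter (fun A => ¬ Disjoint A U)).card := by
    refine card_le_card_of_injOn (fun e => e.erase v) ?_ ?_
    · intro e he
      rw [mem_coe, mem_filter] at he
      obtain ⟨heF, hve, hsub⟩ := he
      have hc : (e.erase v).card = j + 1 := by
        rw [card_erase_of_mem hve, hF e heF]; rfl
      rw [mem_coe, mem_union]
      by_cases hW : e.erase v ⊆ W
      · left
        rw [lnk, mem_filter, mem_powersetCard]
        refine ⟨⟨hW, hc⟩, ?_⟩
        rw [insert_erase hve]
        exact heF
      · right
        rw [mem_filter, hE, mem_powersetCard]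
        refine ⟨⟨subset_univ _, hc⟩, fun hd => hW ?_⟩
        intro x hx
        have := hsub hx
        rw [mem_union] at this
        rcases this with h | h
        · exact h
        · exact absurd h (Finset.disjoint_left.1 hd hx)
    · intro e he e' he' hee
      rw [mem_coe, mem_filter] at he he'
      have h2 : e.erase v = e'.erase v := hee
      rw [← insert_erase he.2.1, ← insert_erase he'.2.1, h2]
  refine h1.trans ((card_union_le _ _).trans ?_)
  refine Nat.add_le_add_left ?_ _
  exact Pool.Agent.W637.SAM.meet_card E (fun e he => (mem_powersetCard.1 he).2) U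

/-- the missing edges inside `T` -/
theorem sum_miss {n : ℕ} (k : ℕ) (hk : 1 ≤ k) (F : Finset (Finset (Fin n))) (hF : Unif k F)
    (T : Finset (Fin n)) :
    ∑ v ∈ T, (miss k F T v).card ≤ k * (T.card.choose k - (F.filter (fun e => e ⊆ T)).card) := by
  classical
  set N : Finset (Finset (Fin n)) := (T.powersetCard k) \ (F.filter (fun e => e ⊆ T)) with hN
  have hNc : N.card = T.card.choose k - (F.filter (fun e => e ⊆ T)).card := by
    rw [hN, card_sdiff_of_subset, card_powersetCard]
    intro e he
    rw [mem_filter] at he
    rw [mem_powersetCard]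
    exact ⟨he.2, hF e he.1⟩
  have h1 : ∀ v ∈ T, (miss k F T v).card ≤ (N.filter (fun e => v ∈ e)).card := by
    intro v hv
    refine card_le_card_of_injOn (fun A => insert v A) ?_ ?_
    · intro A hA
      rw [mem_coe, miss, mem_filter, mem_powersetCard] at hA
      obtain ⟨⟨hAs, hAc⟩, hAF⟩ := hA
      have hvA : v ∉ A := fun h => (mem_erase.1 (hAs h)).1 rfl
      rw [mem_coe, mem_filter, hN, mem_sdiff, mem_powersetCard, mem_filter]
      refine ⟨⟨⟨?_, ?_⟩, fun h => hAF h.1⟩, mem_insert_self _ _⟩
      · intro x hx
        rw [mem_insert] at hx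
        rcases hx with rfl | hx
        · exact hv
        · exact (mem_erase.1 (hAs hx)).2
      · rw [card_insert_of_notMem hvA, hAc]
        omega
    · intro A hA A' hA' h
      rw [mem_coe, miss, mem_filter, mem_powersetCard] at hA hA'
      have hvA : v ∉ A := fun h => (mem_erase.1 (hA.1.1 h)).1 rfl
      have hvA' : v ∉ A' := fun h => (mem_erase.1 (hA'.1.1 h)).1 rfl
      have h2 : insert v A = insert v A' := h
      rw [← erase_insert hvA, h2, erase_insert hvA']
  refine (sum_le_sum h1).trans ?_
  rw [← hNc]
  have e1 : ∑ v ∈ T, (N.filter (fun e => v ∈ e)).card = ∑ e ∈ N, (e ∩ T).card := by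
    simp only [card_filter]
    rw [sum_comm]
    apply sum_congr rfl
    intro e _
    rw [← card_filter]
    congr 1
    ext x
    simp only [mem_filter, mem_inter]
    tauto
  rw [e1, mul_comm, ← smul_eq_mul]
  apply sum_le_card_nsmul
  intro e he
  have h2 : e ∈ T.powersetCard k := (mem_sdiff.1 he).1
  rw [mem_powersetCard] at h2
  calc (e ∩ T).card ≤ e.card := card_le_card inter_subset_left
    _ = k := h2.2

end Pool.Agent.U196.EMC
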