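import Mathlib
import Pool.Agent.U196.EMC.Deg

/-!
# Exact Erdős matching conjecture: hypergraphs close to the clique
-/

set_option autoImplicit false

namespace Pool.Agent.U196.EMC

open Finset Pool.Agent.W890.SF Pool.Agent.W451.SAM

theorem exists_margin (ρ : ℝ) (r : ℕ) (h : 1 < 2 * ρ ^ r) (hρ : 1 / 2 < ρ) :
    ∃ a : ℝ, 0 < a ∧ a ≤ 1 / 12 ∧ 1 + a ≤ 2 * (ρ - a) ^ r := by
  have hc : Continuous (fun a : ℝ => 2 * (ρ - a) ^ r - a) := by fun_prop
  have h0 : (1 : ℝ) < (fun a : ℝ => 2 * (ρ - a) ^ r - a) 0 := by simpa using h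
  have hev := (hc.tendsto 0).eventually (lt_mem_nhds h0)
  rw [Metric.eventually_nhds_iff] at hev
  obtain ⟨ε, hε, hh⟩ := hev
  refine ⟨min (ε / 2) (1 / 12), by positivity, min_le_right _ _, ?_⟩
  have h1 : dist (min (ε / 2) (1 / 12)) 0 < ε := by
    rw [Real.dist_eq, sub_zero, abs_of_pos (by positivity)]
    exact lt_of_le_of_lt (min_le_left _ _) (by linarith)
  have h2 := hh h1

  linarith

theorem cliqueLocal (hU : S_PMU) (k : ℕ) (hk : 3 ≤ k) (x2 : ℝ)
    (hx2 : 1 < 2 * (k * x2) ^ (k - 1)) (hx20 : 0 < x2) :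
    ∃ γ : ℝ, 0 < γ ∧ ∃ n0 : ℕ, ∀ n : ℕ, n0 ≤ n → ∀ F : Finset (Finset (Fin n)), Unif k F →
      ∀ s : ℕ, x2 * n ≤ s → k * (s + 1) ≤ n → (k * (s + 1) - 1).choose k < F.card →
      ∀ T : Finset (Fin n), k * s ≤ T.card → (T.card : ℝ) ≤ k * s + γ * n →
        ((F.filter (fun e => ¬ e ⊆ T)).card : ℝ) ≤ γ * (n : ℝ) ^ k → HasM F (s + 1) := by
  classical
  obtain ⟨j, rfl⟩ : ∃ j, k = j + 2 := ⟨k - 2, by omega⟩
  have hj1 : 1 ≤ j := by omega
  have hsimp : j + 2 - 1 = j + 1 := by omega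
  rw [hsimp] at hx2
  set ρ : ℝ := ((j + 2 : ℕ) : ℝ) * x2 with hρ
  have hρ0 : 0 < ρ := by positivity
  have hkpos : (0 : ℝ) < ((j + 2 : ℕ) : ℝ) := by positivity
  have hρh : 1 / 2 < ρ := by
    by_contra hcon
    push Not at hcon
    have h1 : ρ ^ (j + 1) ≤ (1 / 2) ^ (j + 1) := pow_le_pow_left₀ hρ0.le hcon _
    have h2 : (1 / 2 : ℝ) ^ (j + 1) ≤ (1 / 2) ^ 2 :=
      pow_le_pow_of_le_one (by norm_num) (by norm_num) (by omega)
    linarith
  obtain ⟨a, ha0, ha1, ha⟩ := exists_margin ρ (j + 1) hx2 hρh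
  set f : ℝ := ((j + 1).factorial : ℝ) with hf
  have hf0 : 0 < f := by positivity
  have hf1 : 1 ≤ f := by
    rw [hf]
    exact_mod_cast Nat.succ_le_of_lt (Nat.factorial_pos _)
  obtain ⟨δ1, δ3, hδ1, hδ3, nc, hcomp⟩ := completion hU (j + 2) (by omega) (a / (2 * f))
    (by positivity)
  -- b
  obtain ⟨b, hb0, hb1, hb2, hb3, hb4⟩ : ∃ b : ℝ, 0 < b ∧ ((j + 2 : ℕ) : ℝ) * b ≤ δ3 / 2 ∧ b ≤ a / 4 ∧
      b ≤ a / (2 * f) ∧ ((j + 2 : ℕ) : ℝ) ^ 2 * b ≤ 1 / (2 * f) := by
    refine ⟨min (min (δ3 / (2 * ((j + 2 : ℕ) : ℝ))) (a / 4)) (min (a / (2 * f))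
      (1 / (2 * f * ((j + 2 : ℕ) : ℝ) ^ 2))), by positivity, ?_, ?_, ?_, ?_⟩
    · calc ((j + 2 : ℕ) : ℝ) * _ ≤ ((j + 2 : ℕ) : ℝ) * (δ3 / (2 * ((j + 2 : ℕ) : ℝ))) :=
            mul_le_mul_of_nonneg_left ((min_le_left _ _).trans (min_le_left _ _)) hkpos.le
        _ = δ3 / 2 := by field_simp
    · exact (min_le_left _ _).trans (min_le_right _ _)
    · exact (min_le_right _ _).trans (min_le_left _ _)
    · calc ((j + 2 : ℕ) : ℝ) ^ 2 * _ ≤ ((j + 2 : ℕ) : ℝ) ^ 2 * (1 / (2 * f * ((j + 2 : ℕ) : ℝ) ^ 2)) :=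
            mul_le_mul_of_nonneg_left ((min_le_right _ _).trans (min_le_right _ _)) (by positivity)
        _ = 1 / (2 * f) := by field_simp
  set γ : ℝ := b * δ1 / (4 * ((j + 2 : ℕ) : ℝ)) with hγ
  have hγ0 : 0 < γ := by positivity
  obtain ⟨n1, hn1⟩ := exists_nat_ge ((4 * ((j + 2 : ℕ) : ℝ) + 4) / b)
  obtain ⟨n2, hn2⟩ := exists_nat_ge ((4 * ((j + 2 : ℕ) : ℝ) + 4) / δ3)
  refine ⟨γ, hγ0, max nc (max n1 (max n2 (12 * (j + 2)))), ?_⟩
  intro n hn F hF s hs hsn hFc T hT1 hT2 hT3
  have hnc : nc ≤ n := (le_max_left _ _).trans hn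
  have hnn1 : n1 ≤ n := ((le_max_left _ _).trans (le_max_right _ _)).trans hn
  have hnn2 : n2 ≤ n :=
    (((le_max_left _ _).trans (le_max_right _ _)).trans (le_max_right _ _)).trans hn
  have hnn3 : 12 * (j + 2) ≤ n :=
    (((le_max_right _ _).trans (le_max_right _ _)).trans (le_max_right _ _)).trans hn
  have hn0 : (0 : ℝ) < n := by
    have : 0 < n := by omega
    exact_mod_cast this
  have hbn : 4 * ((j + 2 : ℕ) : ℝ) + 4 ≤ b * n := by
    have h1 : (4 * ((j + 2 : ℕ) : ℝ) + 4) / b ≤ n := hn1.trans (by exact_mod_cast hnn1)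
    rw [div_le_iff₀ hb0] at h1
    linarith
  have hδn : 4 * ((j + 2 : ℕ) : ℝ) + 4 ≤ δ3 * n := by
    have h1 : (4 * ((j + 2 : ℕ) : ℝ) + 4) / δ3 ≤ n := hn2.trans (by exact_mod_cast hnn2)
    rw [div_le_iff₀ hδ3] at h1
    linarith
  have hbδ : b * n ≤ δ3 / 2 * n := by
    refine mul_le_mul_of_nonneg_right (le_trans ?_ hb1) hn0.le
    have : (1 : ℝ) ≤ ((j + 2 : ℕ) : ℝ) := by
      have : 1 ≤ j + 2 := by omega
      exact_mod_cast this
    exact le_mul_of_one_le_left hb0.le this
  have hks : ρ * n ≤ ((j + 2 : ℕ) : ℝ) * s := by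
    rw [hρ, mul_assoc]
    exact mul_le_mul_of_nonneg_left hs hkpos.le
  have hksn : ((j + 2 : ℕ) : ℝ) * (s + 1) ≤ n := by exact_mod_cast hsn
  have hnr : (0 : ℝ) < (n : ℝ) ^ (j + 1) := by positivity
  obtain ⟨m, hm⟩ : ∃ m, m + 1 = (j + 2) * (s + 1) := ⟨(j + 2) * (s + 1) - 1, by
    have : 1 ≤ (j + 2) * (s + 1) := Nat.one_le_iff_ne_zero.2 (by positivity)
    omega⟩
  have hm' : (j + 2) * (s + 1) - 1 = m := by omega
  rw [hm'] at hFc
  have hmks : m = (j + 2) * s + (j + 1) := by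
    have : (j + 2) * (s + 1) = (j + 2) * s + (j + 2) := by ring
    omega
  by_contra hno
  -- few missing edges inside `T`
  have hN : ((T.card.choose (j + 2) - (F.filter (fun e => e ⊆ T)).card : ℕ) : ℝ) ≤
      2 * γ * (n : ℝ) ^ (j + 2) := by
    have h1 := Finset.card_filter_add_card_filter_not (s := F) (fun e => e ⊆ T)
    have h2 : ((F.filter (fun e => e ⊆ T)).card : ℝ) + ((F.filter (fun e => ¬ e ⊆ T)).card : ℝ) =
        (F.card : ℝ) := by exact_mod_cast h1
    have h3 : ((m.choose (j + 2) : ℕ) : ℝ) ≤ (F.card : ℝ) := by exact_mod_cast hFc.le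
    have hTn : (T.card : ℝ) ≤ n := by
      have : T.card ≤ n := by simpa using card_le_univ T
      exact_mod_cast this
    have h4 : ((T.card.choose (j + 2) : ℕ) : ℝ) - ((m.choose (j + 2) : ℕ) : ℝ) ≤
        γ * (n : ℝ) ^ (j + 2) := by
      rcases le_total T.card m with h | h
      · have h5 : T.card.choose (j + 2) ≤ m.choose (j + 2) := Nat.choose_le_choose _ h
        have h6 : ((T.card.choose (j + 2) : ℕ) : ℝ) ≤ ((m.choose (j + 2) : ℕ) : ℝ) := by
          exact_mod_cast h5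
        have h7 : 0 < γ * (n : ℝ) ^ (j + 2) := by positivity
        linarith
      · have h5 := (Pool.Agent.W735.SAM.DI3.tele (j + 1) m T.card h).2
        refine h5.trans ?_
        have h6 : (T.card : ℝ) - m ≤ γ * n := by
          have h7 : (m : ℝ) = ((j + 2 : ℕ) : ℝ) * s + (j + 1) := by
            rw [hmks]; push_cast; ring
          have : (0 : ℝ) ≤ j := Nat.cast_nonneg j
          linarith
        calc ((T.card : ℝ) - m) * ((T.card.choose (j + 1) : ℕ) : ℝ) ≤
            (γ * n) * (n : ℝ) ^ (j + 1) := by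
              apply mul_le_mul h6 (choose_real_le _ _ _ hTn) (Nat.cast_nonneg _) (by positivity)
          _ = γ * (n : ℝ) ^ (j + 2) := by ring
    rcases le_total (T.card.choose (j + 2)) (F.filter (fun e => e ⊆ T)).card with h | h
    · rw [Nat.sub_eq_zero_of_le h]
      push_cast
      positivity
    · rw [Nat.cast_sub h]
      linarith
  -- bad vertices
  have hsum := sum_miss (j + 2) (by omega) F hF T
  have hsumR : ∑ v ∈ T, ((miss (j + 2) F T v).card : ℝ) ≤
      ((j + 2 : ℕ) : ℝ) * (2 * γ * (n : ℝ) ^ (j + 2)) := by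
    have h1 : ((∑ v ∈ T, (miss (j + 2) F T v).card : ℕ) : ℝ) ≤
        (((j + 2) * (T.card.choose (j + 2) - (F.filter (fun e => e ⊆ T)).card) : ℕ) : ℝ) := by
      exact_mod_cast hsum
    rw [Nat.cast_sum, Nat.cast_mul] at h1
    exact h1.trans (mul_le_mul_of_nonneg_left hN hkpos.le)
  set Bd : Finset (Fin n) := T.filter (fun v => δ1 * (n : ℝ) ^ (j + 1) <
    ((miss (j + 2) F T v).card : ℝ)) with hBd
  have hBdc : (Bd.card : ℝ) ≤ b * n / 2 := by
    have h1 : (Bd.card : ℝ) * (δ1 * (n : ℝ) ^ (j + 1)) ≤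
        ((j + 2 : ℕ) : ℝ) * (2 * γ * (n : ℝ) ^ (j + 2)) := by
      refine le_trans ?_ hsumR
      calc (Bd.card : ℝ) * (δ1 * (n : ℝ) ^ (j + 1)) = ∑ v ∈ Bd, (δ1 * (n : ℝ) ^ (j + 1)) := by
            rw [sum_const, nsmul_eq_mul]
        _ ≤ ∑ v ∈ Bd, ((miss (j + 2) F T v).card : ℝ) :=
            sum_le_sum fun v hv => (mem_filter.1 hv).2.le
        _ ≤ _ := sum_le_sum_of_subset_of_nonneg (filter_subset _ _) fun v _ _ => Nat.cast_nonneg _
    have h2 : ((j + 2 : ℕ) : ℝ) * (2 * γ * (n : ℝ) ^ (j + 2)) =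
        (b * n / 2) * (δ1 * (n : ℝ) ^ (j + 1)) := by
      rw [hγ]
      field_simp
      ring
    rw [h2] at h1
    exact le_of_mul_le_mul_right h1 (by positivity)
  set W : Finset (Fin n) := T \ Bd with hW
  have hWc : W.card + Bd.card = T.card := by
    rw [hW]
    have := card_sdiff_add_card_inter T Bd
    rw [inter_eq_right.2 (filter_subset _ _)] at this
    exact this
  have hWcR : (W.card : ℝ) + Bd.card = T.card := by exact_mod_cast hWc
  have hT1R : ((j + 2 : ℕ) : ℝ) * s ≤ (T.card : ℝ) := by exact_mod_cast hT1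
  have hWlow : ((j + 2 : ℕ) : ℝ) * s - b * n / 2 ≤ (W.card : ℝ) := by linarith
  have hmissW : ∀ v ∈ W, ((miss (j + 2) F W v).card : ℝ) ≤ δ1 * (n : ℝ) ^ (j + 2 - 1) := by
    intro v hv
    rw [hsimp]
    have hvT : v ∈ T := (mem_sdiff.1 hv).1
    have h1 : (miss (j + 2) F W v).card ≤ (miss (j + 2) F T v).card := by
      unfold miss
      exact card_le_card (filter_subset_filter _ (powersetCard_mono
        (erase_subset_erase _ sdiff_subset)))
    have h2 : ((miss (j + 2) F W v).card : ℝ) ≤ ((miss (j + 2) F T v).card : ℝ) := by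
      exact_mod_cast h1
    refine h2.trans ?_
    by_contra hcon
    push Not at hcon
    exact (mem_sdiff.1 hv).2 (mem_filter.2 ⟨hvT, hcon⟩)
  have hbn1 : b * n ≤ 1 / 48 * n := by
    refine mul_le_mul_of_nonneg_right ?_ hn0.le
    linarith
  have hW3 : n ≤ 3 * W.card := by
    have h1 : 1 / 2 * (n : ℝ) ≤ ρ * n := mul_le_mul_of_nonneg_right hρh.le hn0.le
    have h2 : (n : ℝ) ≤ 3 * W.card := by linarith only [h1, hWlow, hbn1, hks, hn0]
    exact_mod_cast h2
  -- absorbable vertices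
  set U1 : Finset (Fin n) := (univ \ W).filter (fun u => a / (2 * f) * (n : ℝ) ^ (j + 1) ≤
    ((lnk (j + 2) F W u).card : ℝ)) with hU1
  have hU1W : Disjoint U1 W := by
    rw [Finset.disjoint_left]
    intro u hu
    exact (mem_sdiff.1 (mem_filter.1 hu).1).2
  have hU1l : ∀ u ∈ U1, a / (2 * f) * (n : ℝ) ^ (j + 2 - 1) ≤ ((lnk (j + 2) F W u).card : ℝ) := by
    intro u hu
    rw [hsimp]
    exact (mem_filter.1 hu).2
  have hmR : (m : ℝ) = ((j + 2 : ℕ) : ℝ) * s + (j + 1) := by
    rw [hmks]; push_cast; ring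
  -- claim 1
  have hc1 : W.card + U1.card ≤ m := by
    by_contra hcon
    push Not at hcon
    obtain ⟨U, hUU, hUc⟩ := Finset.exists_subset_card_eq (s := U1) (n := m + 1 - W.card)
      (by omega)
    obtain ⟨M, hMF, hM, -, hMc⟩ := hcomp n hnc F hF W U ∅ hW3
      (disjoint_of_subset_left hUU hU1W) (disjoint_empty_right _)
      (by
        rw [hUc]
        have h1 : ((m + 1 - W.card : ℕ) : ℝ) ≤ b * n / 2 + (j + 2) := by
          rcases le_total (m + 1) W.card with h | h
          · rw [Nat.sub_eq_zero_of_le h]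
            push_cast
            positivity
          · rw [Nat.cast_sub h]
            push_cast
            linarith
        have h2 : ((j + 2 : ℕ) : ℝ) = (j : ℝ) + 2 := by push_cast; ring
        linarith only [h1, h2, hbδ, hδn, hn0])
      (by rw [card_empty]; push_cast; positivity)
      hmissW (fun u hu => hU1l u (hUU hu))
    apply hno
    refine hasM_mono (Subset.refl F) ?_ ⟨M, hMF, hM, rfl⟩
    rw [hMc, sdiff_empty, hUc]
    rw [Nat.le_div_iff_mul_le (by omega)]
    have : (s + 1) * (j + 2) = m + 1 := by rw [hm]; ring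
    omega
  -- the complement
  set P : Finset (Fin n) := W ∪ U1 with hP
  have hPc : P.card = W.card + U1.card := by
    rw [hP, card_union_of_disjoint hU1W.symm]
  obtain ⟨t, ht⟩ : ∃ t, P.card + t = m := ⟨m - P.card, by omega⟩
  have htR : (P.card : ℝ) + t = m := by exact_mod_cast ht
  have hPcR : (P.card : ℝ) = W.card + U1.card := by exact_mod_cast hPc
  have ht0 : (0 : ℝ) ≤ t := Nat.cast_nonneg t
  have hU0 : (0 : ℝ) ≤ U1.card := Nat.cast_nonneg _
  have hsz : (t : ℝ) + U1.card ≤ b * n - 1 := by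
    have : ((j + 2 : ℕ) : ℝ) = (j : ℝ) + 2 := by push_cast; ring
    linarith
  set G : Finset (Finset (Fin n)) := F.filter (fun e => ¬ e ⊆ P) with hG
  -- claim 2
  have hc2 : ¬ HasM G (t + 1) := by
    rintro ⟨M, hMG, hM, hMc⟩
    have hMF : M ⊆ F := hMG.trans (filter_subset _ _)
    set Q : Finset (Fin n) := M.biUnion id with hQ
    have hQc : Q.card ≤ (j + 2) * (t + 1) := by
      calc Q.card ≤ M.card * (j + 2) := by
            apply Finset.card_biUnion_le_card_mul
            intro e he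
            exact (hF e (hMF he)).le
        _ = (j + 2) * (t + 1) := by rw [hMc]; ring
    have hQP : (Q ∩ P).card ≤ (j + 1) * (t + 1) := by
      have h1 : Q ∩ P = M.biUnion (fun e => e ∩ P) := by
        rw [hQ, biUnion_inter]
        rfl
      rw [h1]
      calc (M.biUnion (fun e => e ∩ P)).card ≤ M.card * (j + 1) := by
            apply Finset.card_biUnion_le_card_mul
            intro e he
            have h2 : ¬ e ⊆ P := (mem_filter.1 (hMG he)).2
            have h3 : (e ∩ P).card < e.card := by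
              apply card_lt_card
              refine ⟨inter_subset_left, fun h => h2 ?_⟩
              exact h.trans inter_subset_right
            rw [hF e (hMF he)] at h3
            omega
        _ = (j + 1) * (t + 1) := by rw [hMc]; ring
    obtain ⟨M', hM'F, hM', hM's, hM'c⟩ := hcomp n hnc F hF W (U1 \ Q) Q hW3
      (disjoint_of_subset_left sdiff_subset hU1W) sdiff_disjoint
      (by
        have h1 : (U1 \ Q).card ≤ U1.card := card_le_card sdiff_subset
        have h2 : ((U1 \ Q).card : ℝ) ≤ U1.card := by exact_mod_cast h1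
        have h5 : 0 < δ3 * n := by positivity
        linarith only [h2, h5, hbδ, hsz, ht0])
      (by
        have h1 : (Q.card : ℝ) ≤ ((j + 2 : ℕ) : ℝ) * (t + 1) := by exact_mod_cast hQc
        have h2 : ((j + 2 : ℕ) : ℝ) * (t + 1) ≤ ((j + 2 : ℕ) : ℝ) * (b * n) :=
          mul_le_mul_of_nonneg_left (by linarith) hkpos.le
        have h3 : ((j + 2 : ℕ) : ℝ) * (b * n) ≤ δ3 / 2 * n := by
          rw [← mul_assoc]
          exact mul_le_mul_of_nonneg_right hb1 hn0.le
        have h5 : 0 < δ3 * n := by positivity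
        linarith only [h1, h2, h3, h5])
      hmissW (fun u hu => hU1l u (mem_sdiff.1 hu).1)
    have hdis : ∀ e ∈ M, ∀ e' ∈ M', Disjoint e e' := by
      intro e he e' he'
      rw [Finset.disjoint_left]
      intro x hx hx'
      have h1 : x ∈ Q := mem_biUnion.2 ⟨e, he, hx⟩
      exact (mem_sdiff.1 (hM's e' he' hx')).2 h1
    apply hno
    refine hasM_mono (Subset.refl F) ?_ ⟨M ∪ M', union_subset hMF hM'F, mtch_union hM hM' hdis, rfl⟩
    rw [card_mtch_union (fun e he => by
      rw [← card_pos, hF e (hMF he)]; omega) hdis, hMc, hM'c]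
    have h1 : (W \ Q).card + (U1 \ Q).card = (P \ Q).card := by
      rw [hP, union_sdiff_distrib, card_union_of_disjoint]
      exact disjoint_of_subset_left sdiff_subset (disjoint_of_subset_right sdiff_subset hU1W.symm)
    have h2 := card_sdiff_add_card_inter P Q
    rw [inter_comm] at h2
    rw [h1]
    have h3 : s ≤ t + (P \ Q).card / (j + 2) := by
      have h4 : (j + 2) * s ≤ (j + 2) * t + (P \ Q).card := by
        have e1 : (j + 1) * (t + 1) = (j + 2) * t + (j + 1) - t := by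
          have : (j + 2) * t = (j + 1) * t + t := by ring
          have : (j + 1) * (t + 1) = (j + 1) * t + (j + 1) := by ring
          omega
        have e2 : t ≤ (j + 2) * t := Nat.le_mul_of_pos_left _ (by omega)
        omega
      have h5 : (j + 2) * t + (P \ Q).card = (P \ Q).card + (j + 2) * t := by ring
      have h6 : ((P \ Q).card + (j + 2) * t) / (j + 2) = (P \ Q).card / (j + 2) + t :=
        Nat.add_mul_div_left _ _ (by omega)
      have h7 : s = ((j + 2) * s) / (j + 2) := (Nat.mul_div_cancel_left s (by omega)).symm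
      have h8 : ((j + 2) * s) / (j + 2) ≤ ((P \ Q).card + (j + 2) * t) / (j + 2) :=
        Nat.div_le_div_right (by omega)
      omega
    omega
  -- binomial estimates
  have hrn : ((j : ℝ) + 1) ≤ b * n := by
    have : ((j + 2 : ℕ) : ℝ) = (j : ℝ) + 2 := by push_cast; ring
    have : (0 : ℝ) ≤ j := Nat.cast_nonneg j
    linarith
  have hPn : P.card ≤ n := by simpa using card_le_univ P
  have hPlow : (ρ - a) * n ≤ ((P.card - 1 + 1 - (j + 1) : ℕ) : ℝ) := by
    have h1 : ρ * n - b * n / 2 ≤ (P.card : ℝ) := by linarith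
    have h2 : b * n ≤ a / 4 * n := mul_le_mul_of_nonneg_right hb2 hn0.le
    have h4 : 0 < a * n := by positivity
    have h8 : 1 / 2 * (n : ℝ) ≤ ρ * n := mul_le_mul_of_nonneg_right hρh.le hn0.le
    have h9 : a * (n : ℝ) ≤ 1 / 12 * n := mul_le_mul_of_nonneg_right ha1 hn0.le
    have h10 : (12 : ℝ) * ((j : ℝ) + 2) ≤ n := by
      have : 12 * (j + 2) ≤ n := hnn3
      exact_mod_cast this
    have h5 : (j : ℝ) + 2 ≤ P.card := by
      linarith only [h1, h2, h4, h8, h9, h10]
    have h6 : j + 2 ≤ P.card := by exact_mod_cast h5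
    have h7 : P.card - 1 + 1 - (j + 1) = P.card - (j + 1) := by omega
    rw [h7, Nat.cast_sub (by omega)]
    push_cast
    linarith only [h1, h2, h4, hrn, sub_mul ρ a (n : ℝ)]
  have hlow1 : (1 + a) * (n : ℝ) ^ (j + 1) / f ≤ 2 * (((P.card - 1).choose (j + 1) : ℕ) : ℝ) := by
    have h1 := Nat.pow_le_choose (α := ℝ) (j + 1) (P.card - 1)
    have h2 : ((ρ - a) * n) ^ (j + 1) ≤ (((P.card - 1 + 1 - (j + 1) : ℕ) : ℝ)) ^ (j + 1) :=
      pow_le_pow_left₀ (by
        have : 0 < ρ - a := by linarith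
        positivity) hPlow _
    have h3 : (1 + a) * (n : ℝ) ^ (j + 1) ≤ 2 * ((ρ - a) * n) ^ (j + 1) := by
      rw [mul_pow, ← mul_assoc]
      exact mul_le_mul_of_nonneg_right ha hnr.le
    rw [div_le_iff₀ hf0]
    have h4 : (((P.card - 1 + 1 - (j + 1) : ℕ) : ℝ)) ^ (j + 1) ≤
        (((P.card - 1).choose (j + 1) : ℕ) : ℝ) * f := by
      rw [div_le_iff₀ (by positivity)] at h1
      exact h1
    linarith
  have hlow2 : (((P.card - 1).choose (j + 1) : ℕ) : ℝ) ≤ ((P.card.choose (j + 1) : ℕ) : ℝ) := by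
    have : (P.card - 1).choose (j + 1) ≤ P.card.choose (j + 1) :=
      Nat.choose_le_choose _ (by omega)
    exact_mod_cast this
  have hup : (((n - 1).choose (j + 1) : ℕ) : ℝ) ≤ (n : ℝ) ^ (j + 1) / f := by
    have h1 := Nat.choose_le_pow_div (α := ℝ) (j + 1) (n - 1)
    refine h1.trans ?_
    apply div_le_div_of_nonneg_right _ hf0.le
    apply pow_le_pow_left₀ (Nat.cast_nonneg _)
    have : n - 1 ≤ n := Nat.sub_le _ _
    exact_mod_cast this
  -- degrees
  have hdeg : ∀ v ∈ (univ : Finset (Fin n)), dg G v ≤ P.card.choose (j + 1) := by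
    intro v _
    have hout := deg_out (j + 1) F hF P v
    have houtR : ((F.filter (fun e => v ∈ e ∧ ¬ e.erase v ⊆ P)).card : ℝ) +
        (((P.erase v).card.choose (j + 1) : ℕ) : ℝ) ≤ (((n - 1).choose (j + 1) : ℕ) : ℝ) := by
      exact_mod_cast hout
    by_cases hv : v ∈ P
    · have h1 : dg G v ≤ (F.filter (fun e => v ∈ e ∧ ¬ e.erase v ⊆ P)).card := by
        unfold dg
        apply card_le_card
        intro e he
        rw [hG, mem_filter, mem_filter] at he
        rw [mem_filter]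
        refine ⟨he.1.1, he.2, fun h => he.1.2 ?_⟩
        rw [← insert_erase he.2]
        exact insert_subset hv h
      rw [card_erase_of_mem hv] at houtR
      have h2 : (dg G v : ℝ) ≤ ((F.filter (fun e => v ∈ e ∧ ¬ e.erase v ⊆ P)).card : ℝ) := by
        exact_mod_cast h1
      have h3 : (1 + a) * (n : ℝ) ^ (j + 1) / f = (n : ℝ) ^ (j + 1) / f + a * (n : ℝ) ^ (j + 1) / f := by
        ring
      have h4 : 0 < a * (n : ℝ) ^ (j + 1) / f := by positivity
      have h5 : (dg G v : ℝ) ≤ ((P.card.choose (j + 1) : ℕ) : ℝ) := by linarith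
      exact_mod_cast h5
    · have h1 : dg G v ≤ (F.filter (fun e => v ∈ e ∧ ¬ e.erase v ⊆ P)).card +
          (F.filter (fun e => v ∈ e ∧ e.erase v ⊆ P)).card := by
        unfold dg
        refine le_trans (card_le_card ?_) (card_union_le _ _)
        intro e he
        rw [hG, mem_filter, mem_filter] at he
        rw [mem_union, mem_filter, mem_filter]
        by_cases h : e.erase v ⊆ P
        · right; exact ⟨he.1.1, he.2, h⟩
        · left; exact ⟨he.1.1, he.2, h⟩
      have h2 := deg_in j F hF W U1 v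
      rw [erase_eq_of_notMem hv] at houtR
      have h3 : ((lnk (j + 2) F W v).card : ℝ) ≤ a / (2 * f) * (n : ℝ) ^ (j + 1) := by
        by_contra hcon
        push Not at hcon
        have hvW : v ∉ W := fun h => hv (mem_union_left _ h)
        exact hv (mem_union_right _ (mem_filter.2 ⟨mem_sdiff.2 ⟨mem_univ _, hvW⟩, hcon.le⟩))
      have h4 : (dg G v : ℝ) ≤ ((F.filter (fun e => v ∈ e ∧ ¬ e.erase v ⊆ P)).card : ℝ) +
          (((lnk (j + 2) F W v).card : ℝ) + U1.card * (n : ℝ) ^ j) := by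
        have : dg G v ≤ (F.filter (fun e => v ∈ e ∧ ¬ e.erase v ⊆ P)).card +
          ((lnk (j + 2) F W v).card + U1.card * n ^ j) := h1.trans (Nat.add_le_add_left h2 _)
        exact_mod_cast this
      have h5 : (U1.card : ℝ) * (n : ℝ) ^ j ≤ a / (2 * f) * (n : ℝ) ^ (j + 1) := by
        have h6 : (U1.card : ℝ) ≤ b * n := by linarith
        have h7 : b * n ≤ a / (2 * f) * n := mul_le_mul_of_nonneg_right hb3 hn0.le
        calc (U1.card : ℝ) * (n : ℝ) ^ j ≤ (a / (2 * f) * n) * (n : ℝ) ^ j :=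
              mul_le_mul_of_nonneg_right (h6.trans h7) (by positivity)
          _ = a / (2 * f) * (n : ℝ) ^ (j + 1) := by ring
      have h6 : (1 + a) * (n : ℝ) ^ (j + 1) / f = (n : ℝ) ^ (j + 1) / f +
          (a / (2 * f) * (n : ℝ) ^ (j + 1) + a / (2 * f) * (n : ℝ) ^ (j + 1)) := by
        field_simp
        ring
      have h7 : (dg G v : ℝ) ≤ ((P.card.choose (j + 1) : ℕ) : ℝ) := by linarith
      exact_mod_cast h7
  -- few edges outside
  have hX : (j + 2) ^ 2 * t * ((univ : Finset (Fin n)).card - 2).choose j ≤ P.card.choose (j + 1) := by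
    rw [card_univ, Fintype.card_fin]
    have h1 : ((((j + 2) ^ 2 * t * (n - 2).choose j : ℕ)) : ℝ) ≤ ((P.card.choose (j + 1) : ℕ) : ℝ) := by
      have h2 : (((n - 2).choose j : ℕ) : ℝ) ≤ (n : ℝ) ^ j := by
        apply choose_real_le
        have : n - 2 ≤ n := Nat.sub_le _ _
        exact_mod_cast this
      have h3 : (t : ℝ) ≤ b * n := by linarith
      rw [Nat.cast_mul, Nat.cast_mul, Nat.cast_pow]
      calc (((j + 2 : ℕ) : ℝ)) ^ 2 * t * (((n - 2).choose j : ℕ) : ℝ) ≤
          (((j + 2 : ℕ) : ℝ)) ^ 2 * (b * n) * (n : ℝ) ^ j := by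
            apply mul_le_mul _ h2 (Nat.cast_nonneg _) (by positivity)
            exact mul_le_mul_of_nonneg_left h3 (by positivity)
        _ = (((j + 2 : ℕ) : ℝ)) ^ 2 * b * (n : ℝ) ^ (j + 1) := by ring
        _ ≤ 1 / (2 * f) * (n : ℝ) ^ (j + 1) := mul_le_mul_of_nonneg_right hb4 hnr.le
        _ ≤ _ := by
          have h6 : (1 + a) * (n : ℝ) ^ (j + 1) / f = 2 * (1 / (2 * f) * (n : ℝ) ^ (j + 1)) +
              a * (n : ℝ) ^ (j + 1) / f := by
            field_simp
          have h4 : 0 < a * (n : ℝ) ^ (j + 1) / f := by positivity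
          linarith
    exact_mod_cast h1
  have hGc := smallM j (univ : Finset (Fin n)) t (P.card.choose (j + 1)) hX t G le_rfl
    (fun e he => ⟨subset_univ _, hF e (mem_filter.1 he).1⟩) hdeg hc2
  have hF1 : (F.filter (fun e => e ⊆ P)).card ≤ P.card.choose (j + 2) := by
    rw [← card_powersetCard]
    apply card_le_card
    intro e he
    rw [mem_filter] at he
    rw [mem_powersetCard]
    exact ⟨he.2, hF e he.1⟩
  have hF2 := Finset.card_filter_add_card_filter_not (s := F) (fun e => e ⊆ P)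
  have h9 := tel2 P.card (j + 1) t
  rw [ht] at h9
  have h10 : (j + 1 + 1) = j + 2 := rfl
  rw [h10] at h9
  have hG' : (F.filter (fun e => ¬ e ⊆ P)).card = G.card := rfl
  omega

end Pool.Agent.U196.EMC
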