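import Mathlib
import Pool.Agent.Q54.EM.Main

/-!
# Exact Erdős matching conjecture: covers with small support, and two counting inequalities
-/

set_option autoImplicit false

namespace Pool.Agent.U196.EMC

open Finset Pool.Agent.W890.SF Pool.Agent.W593.IR

/-- the exact i.i.d. inequality -/
theorem exact_iid (k : ℕ) (hk : 2 ≤ k) (V : Type) [Fintype V] [DecidableEq V] (y : V → ℝ) (s : ℕ)
    (hy : ∀ v, 0 ≤ y v) (hs : 0 < s) (hsV : s ≤ Fintype.card V)
    (hsupp : (univ.filter (fun v => y v ≠ 0)).card ≤ s) (hsum : (k : ℝ) * ∑ v, y v ≤ (s : ℝ)) :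
    (NG y k : ℝ) ≤ (Fintype.card V : ℝ) ^ k * mv k ((s : ℝ) / (Fintype.card V : ℝ) / k) :=
  Pool.Agent.W421.K5.bound t_CNT k hk (Pool.Agent.Q54.EM.t_ALL k hk) V y s hy hs hsV hsupp hsum

/-- a cover with small support -/
theorem cover (k : ℕ) (hk : 2 ≤ k) (x0 c ε : ℝ) (hx0 : 0 < x0) (hc : 0 < c) (hε : 0 < ε) :
    ∃ n0 : ℕ, ∀ n : ℕ, n0 ≤ n → ∀ F : Finset (Finset (Fin n)), Unif k F → ∀ s : ℕ,
      x0 * n ≤ s → 2 * s ≤ n → ¬ HasM F (s + 1) →
      ∃ y : Fin n → ℝ, (∀ v, 0 ≤ y v) ∧ ∑ v, y v ≤ (1 + ε) * s ∧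
        ((univ.filter (fun v => y v ≠ 0)).card : ℝ) ≤ k * ∑ v, y v ∧
        ∃ F' ⊆ F, (∀ e ∈ F', 1 ≤ ∑ v ∈ e, y v) ∧ (F.card : ℝ) - F'.card ≤ c * (n : ℝ) ^ k := by
  classical
  obtain ⟨ε1, h1, h2, h3⟩ : ∃ ε1 : ℝ, 0 < ε1 ∧ 4 * ε1 ≤ ε ∧ ε1 ≤ 1 / 4 := by
    refine ⟨min ε 1 / 4, by positivity, ?_, ?_⟩
    · have := min_le_left ε 1
      linarith
    · have := min_le_right ε 1
      linarith
  obtain ⟨n0, H⟩ := t_DI1 k hk x0 c ε1 ε1 hx0 hc h1 h1
  refine ⟨n0, fun n hn F hF s hs hsn hno => ?_⟩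
  have hs0 : (0 : ℝ) ≤ s := Nat.cast_nonneg s
  have hsn' : 2 * (s : ℝ) ≤ n := by exact_mod_cast hsn
  obtain ⟨y0, hy0, hys, hyc⟩ := H n hn F hF s hs (by
    have : ε1 * s ≤ 1 * s := mul_le_mul_of_nonneg_right (by linarith) hs0
    linarith) hno
  have hτ : (0 : ℝ) < 1 - ε1 := by linarith
  set F' : Finset (Finset (Fin n)) := F.filter (fun e => ¬ (∑ v ∈ e, y0 v ≤ 1 - ε1)) with hF'
  have hcov : ∀ e ∈ F', 1 ≤ ∑ v ∈ e, y0 v / (1 - ε1) := by
    intro e he
    rw [hF', mem_filter] at he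
    rw [← sum_div, le_div_iff₀ hτ, one_mul]
    exact (not_le.1 he.2).le
  obtain ⟨y, hy, hyF, hyS, hysup⟩ := t_MINC (Fin n) k F' (fun v => y0 v / (1 - ε1)) (by omega)
    (fun e he => hF e (mem_filter.1 he).1) (fun v => div_nonneg (hy0 v) hτ.le) hcov
  refine ⟨y, hy, ?_, hysup, F', filter_subset _ _, hyF, ?_⟩
  · refine hyS.trans ?_
    rw [← sum_div, div_le_iff₀ hτ]
    refine hys.trans ?_
    have : (1 + ε) * s * (1 - ε1) - (1 + ε1) * s = s * (ε * (1 - ε1) - 2 * ε1) := by ring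
    have h4 : 0 ≤ ε * (1 - ε1) - 2 * ε1 := by nlinarith
    have h5 := mul_nonneg hs0 h4
    linarith
  · have hsplit : (F.filter (fun e => ∑ v ∈ e, y0 v ≤ 1 - ε1)).card + F'.card = F.card := by
      rw [hF']; exact card_filter_add_card_filter_not _
    have : ((F.filter (fun e => ∑ v ∈ e, y0 v ≤ 1 - ε1)).card : ℝ) + (F'.card : ℝ) =
        (F.card : ℝ) := by exact_mod_cast hsplit
    linarith

theorem NG_equiv {A B : Type} (e : A ≃ B) (y : B → ℝ) (j : ℕ) :
    NG (fun a => y (e a)) j = NG y j := by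
  unfold NG
  have : {f : Fin j → B | 1 ≤ ∑ i, y (f i)} =
      (fun f : Fin j → A => fun i => e (f i)) '' {f : Fin j → A | 1 ≤ ∑ i, y (e (f i))} := by
    ext g
    simp only [Set.mem_ofPred_eq, Set.mem_image]
    constructor
    · intro h
      refine ⟨fun i => e.symm (g i), ?_, ?_⟩
      · simpa using h
      · ext i; simp
    · rintro ⟨f, hf, rfl⟩
      exact hf
  rw [this, Set.ncard_image_of_injective]
  intro f f' h
  funext i
  exact e.injective (congrFun h i)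

theorem NG_le_pow {V : Type} [Fintype V] (y : V → ℝ) (j : ℕ) : NG y j ≤ Fintype.card V ^ j := by
  have := Pool.Agent.W421.K5.NG_add_NL y j
  omega

theorem NG_sub_le {n : ℕ} (y : Fin n → ℝ) (R : Finset (Fin n)) (j : ℕ) :
    NG (fun v : R => y v.1) j ≤ NG y j := by
  unfold NG
  refine Set.ncard_le_ncard_of_injOn (fun f : Fin j → R => fun i => (f i).1) ?_ ?_ (Set.toFinite _)
  · intro f hf
    exact hf
  · intro f _ f' _ h
    funext i
    exact Subtype.ext (congrFun h i)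

/-- removing `q = n - |R|` vertices of weight zero -/
theorem remove {n : ℕ} (j : ℕ) (y : Fin n → ℝ) (hy : ∀ v, 0 ≤ y v) (R : Finset (Fin n))
    (hR : ∀ v, v ∉ R → y v = 0) (p q : ℕ) (hp : 0 < p) (hpR : p ≤ R.card) (hq : R.card + q = n)
    (hsupp : (univ.filter (fun v => y v ≠ 0)).card ≤ p)
    (hsum : ((j + 2 : ℕ) : ℝ) * ∑ v, y v ≤ (p : ℝ)) :
    (NG y (j + 2) : ℝ) ≤ (R.card : ℝ) ^ (j + 2) * mv (j + 2) ((p : ℝ) / R.card / ((j + 2 : ℕ) : ℝ)) +
      ((j + 2 : ℕ) : ℝ) * q * NG y (j + 1) + 2 ^ (j + 2) * (q : ℝ) ^ 2 * (n : ℝ) ^ j := by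
  classical
  have hcnt := t_CNT (Fin n) y R (j + 2) hy hR
  rw [Fintype.card_fin] at hcnt
  have hqR : (n : ℝ) - R.card = q := by
    have : (R.card : ℝ) + q = n := by exact_mod_cast hq
    linarith
  rw [hqR, sum_range_succ, sum_range_succ] at hcnt
  -- the inequality on `R`
  have hR1 := exact_iid (j + 2) (by omega) R (fun v : R => y v.1) p (fun v => hy _) hp
    (by rw [Fintype.card_coe]; exact hpR)
    (by
      refine le_trans ?_ hsupp
      refine card_le_card_of_injOn (fun v : R => v.1) ?_ ?_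
      · intro v hv
        rw [mem_coe, mem_filter] at hv ⊢
        exact ⟨mem_univ _, hv.2⟩
      · intro v _ v' _ h
        exact Subtype.ext h)
    (by
      refine le_trans ?_ hsum
      refine mul_le_mul_of_nonneg_left ?_ (Nat.cast_nonneg _)
      rw [Finset.sum_coe_sort R y]
      exact sum_le_sum_of_subset_of_nonneg (subset_univ _) fun v _ _ => hy v)
  rw [Fintype.card_coe] at hR1
  have h1 : ((j + 2).choose (j + 1) : ℝ) = ((j + 2 : ℕ) : ℝ) := by
    rw [Nat.choose_succ_self_right]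
  have h2 : (NG (fun v : R => y v.1) (j + 1) : ℝ) ≤ (NG y (j + 1) : ℝ) := by
    exact_mod_cast NG_sub_le y R (j + 1)
  have hqn : (q : ℝ) ≤ n := by
    have : q ≤ n := by omega
    exact_mod_cast this
  have hq0 : (0 : ℝ) ≤ q := Nat.cast_nonneg q
  have hn0 : (0 : ℝ) ≤ n := Nat.cast_nonneg n
  have h3 : ∑ i ∈ range (j + 1), ((j + 2).choose i : ℝ) * (q : ℝ) ^ (j + 2 - i) *
      (NG (fun v : R => y v.1) i : ℝ) ≤ 2 ^ (j + 2) * (q : ℝ) ^ 2 * (n : ℝ) ^ j := by
    have h4 : ∀ i ∈ range (j + 1), ((j + 2).choose i : ℝ) * (q : ℝ) ^ (j + 2 - i) *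
        (NG (fun v : R => y v.1) i : ℝ) ≤ ((j + 2).choose i : ℝ) * ((q : ℝ) ^ 2 * (n : ℝ) ^ j) := by
      intro i hi
      have hi' : i ≤ j := by
        have := mem_range.1 hi
        omega
      rw [mul_assoc]
      refine mul_le_mul_of_nonneg_left ?_ (Nat.cast_nonneg _)
      have e1 : j + 2 - i = 2 + (j - i) := by omega
      rw [e1, pow_add]
      have e2 : (NG (fun v : R => y v.1) i : ℝ) ≤ (n : ℝ) ^ i := by
        have h5 := NG_le_pow (fun v : R => y v.1) i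
        rw [Fintype.card_coe] at h5
        have h6 : R.card ^ i ≤ n ^ i := Nat.pow_le_pow_left (by omega) i
        exact_mod_cast h5.trans h6
      have e3 : (q : ℝ) ^ (j - i) ≤ (n : ℝ) ^ (j - i) := pow_le_pow_left₀ hq0 hqn _
      have e4 : (n : ℝ) ^ j = (n : ℝ) ^ (j - i) * (n : ℝ) ^ i := by
        rw [← pow_add]
        congr 1
        omega
      rw [e4, mul_assoc]
      refine mul_le_mul_of_nonneg_left ?_ (by positivity)
      exact mul_le_mul e3 e2 (Nat.cast_nonneg _) (by positivity)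
    refine (sum_le_sum h4).trans ?_
    rw [← sum_mul]
    have h5 : ∑ i ∈ range (j + 1), ((j + 2).choose i : ℝ) ≤ 2 ^ (j + 2) := by
      have h6 := Nat.sum_range_choose (j + 2)
      rw [sum_range_succ, sum_range_succ] at h6
      have h7 : ∑ i ∈ range (j + 1), (j + 2).choose i ≤ 2 ^ (j + 2) := by omega
      exact_mod_cast h7
    rw [mul_assoc]
    exact mul_le_mul_of_nonneg_right h5 (by positivity)
  have e5 : j + 2 - (j + 1) = 1 := by omega
  rw [e5, Nat.sub_self, pow_one, pow_zero, Nat.choose_self, h1] at hcnt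
  have h6 : ((j + 2 : ℕ) : ℝ) * (q : ℝ) * (NG (fun v : R => y v.1) (j + 1) : ℝ) ≤
      ((j + 2 : ℕ) : ℝ) * (q : ℝ) * (NG y (j + 1) : ℝ) :=
    mul_le_mul_of_nonneg_left h2 (by positivity)
  rw [hcnt]
  push_cast at hR1 h6 h3 ⊢
  linarith

/-- adding `q` vertices of weight zero -/
theorem addz {n : ℕ} (j : ℕ) (y : Fin n → ℝ) (hy : ∀ v, 0 ≤ y v) (p q : ℕ) (hp : 0 < p)
    (hpq : p ≤ n + q) (hsupp : (univ.filter (fun v => y v ≠ 0)).card ≤ p)
    (hsum : ((j + 2 : ℕ) : ℝ) * ∑ v, y v ≤ (p : ℝ)) :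
    (NG y (j + 2) : ℝ) + ((j + 2 : ℕ) : ℝ) * q * NG y (j + 1) ≤
      ((n + q : ℕ) : ℝ) ^ (j + 2) * mv (j + 2) ((p : ℝ) / ((n + q : ℕ) : ℝ) / ((j + 2 : ℕ) : ℝ)) := by
  classical
  set y' : Fin n ⊕ Fin q → ℝ := Sum.elim y (fun _ => 0) with hy'
  set S : Finset (Fin n ⊕ Fin q) := univ.map Function.Embedding.inl with hS
  have hSc : S.card = n := by rw [hS, card_map, card_univ, Fintype.card_fin]
  have hV : Fintype.card (Fin n ⊕ Fin q) = n + q := by simp
  have hy'0 : ∀ v, 0 ≤ y' v := by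
    rintro (v | v)
    · exact hy v
    · exact le_refl _
  have hcnt := t_CNT (Fin n ⊕ Fin q) y' S (j + 2) hy'0 (by
    rintro (v | v) hv
    · exfalso
      apply hv
      rw [hS, mem_map]
      exact ⟨v, mem_univ _, rfl⟩
    · rfl)
  have hE : ∀ i, NG (fun v : S => y' v.1) i = NG y i := by
    intro i
    let e : Fin n ≃ S := Equiv.ofBijective (fun v => ⟨Sum.inl v, by
      rw [hS, mem_map]; exact ⟨v, mem_univ _, rfl⟩⟩) (by
      constructor
      · intro a b h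
        have := congrArg Subtype.val h
        exact Sum.inl_injective this
      · rintro ⟨v, hv⟩
        rw [hS, mem_map] at hv
        obtain ⟨a, -, rfl⟩ := hv
        exact ⟨a, rfl⟩)
    rw [← NG_equiv e]
    rfl
  rw [hV, hSc, sum_range_succ, sum_range_succ] at hcnt
  have hqR : ((n + q : ℕ) : ℝ) - n = q := by push_cast; ring
  have e5 : j + 2 - (j + 1) = 1 := by omega
  have h1 : ((j + 2).choose (j + 1) : ℝ) = ((j + 2 : ℕ) : ℝ) := by
    rw [Nat.choose_succ_self_right]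
  rw [hqR, e5, Nat.sub_self, pow_one, pow_zero, Nat.choose_self, h1, hE, hE] at hcnt
  have h0 : 0 ≤ ∑ i ∈ range (j + 1), ((j + 2).choose i : ℝ) * (q : ℝ) ^ (j + 2 - i) *
      (NG (fun v : S => y' v.1) i : ℝ) := sum_nonneg fun i _ => by positivity
  have hX := exact_iid (j + 2) (by omega) (Fin n ⊕ Fin q) y' p hy'0 hp (by rw [hV]; exact hpq)
    (by
      refine le_trans ?_ hsupp
      have : (univ.filter (fun v => y' v ≠ 0)) ⊆
          (univ.filter (fun v => y v ≠ 0)).map Function.Embedding.inl := by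
        rintro (v | v) hv
        · rw [mem_filter] at hv
          rw [mem_map]
          exact ⟨v, mem_filter.2 ⟨mem_univ _, hv.2⟩, rfl⟩
        · rw [mem_filter] at hv
          exact absurd rfl hv.2
      exact (card_le_card this).trans (by rw [card_map]))
    (by
      rw [Fintype.sum_sum_type]
      simp only [hy', Sum.elim_inl, Sum.elim_inr, sum_const_zero, add_zero]
      exact hsum)
  rw [hV] at hX
  push_cast at hX hcnt ⊢
  linarith

end Pool.Agent.U196.EMC
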