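import Mathlib
import Pool.Agent.U196.EMC.Cover

/-!
# Exact Erdős matching conjecture: stability, dense side
-/

set_option autoImplicit false

namespace Pool.Agent.U196.EMC

open Finset Pool.Agent.W890.SF Pool.Agent.W593.IR

theorem pow_sub_le (a b : ℝ) (k : ℕ) (hb : 0 ≤ b) (hab : b ≤ a) :
    a ^ (k + 1) - b ^ (k + 1) ≤ (k + 1) * a ^ k * (a - b) := by
  induction k with
  | zero => simp
  | succ k ih =>
    have ha : 0 ≤ a := hb.trans hab
    have e : a ^ (k + 1 + 1) - b ^ (k + 1 + 1) = a * (a ^ (k + 1) - b ^ (k + 1)) +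
        (a - b) * b ^ (k + 1) := by ring
    have h1 : a * (a ^ (k + 1) - b ^ (k + 1)) ≤ a * ((k + 1) * a ^ k * (a - b)) :=
      mul_le_mul_of_nonneg_left ih ha
    have h2 : (a - b) * b ^ (k + 1) ≤ (a - b) * a ^ (k + 1) :=
      mul_le_mul_of_nonneg_left (pow_le_pow_left₀ hb hab _) (by linarith)
    have e2 : a * ((k + 1) * a ^ k * (a - b)) + (a - b) * a ^ (k + 1) =
        ((k + 1 : ℕ) + 1) * a ^ (k + 1) * (a - b) := by push_cast; ring
    rw [e]
    linarith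

/-- edges with a vertex of weight zero -/
theorem zero_edges {n : ℕ} (j : ℕ) (F : Finset (Finset (Fin n))) (hF : Unif (j + 2) F)
    (y : Fin n → ℝ) (hcov : ∀ e ∈ F, 1 ≤ ∑ v ∈ e, y v) (T : Finset (Fin n))
    (hT : ∀ v, v ∉ T → y v = 0) :
    (F.filter (fun e => ¬ e ⊆ T)).card ≤ n * NG y (j + 1) := by
  classical
  set E : Finset (Finset (Fin n)) := ((univ : Finset (Fin n)).powersetCard (j + 1)).filter
    (fun A => 1 ≤ ∑ v ∈ A, y v) with hE
  have hEc : E.card ≤ NG y (j + 1) := by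
    have h1 := t_FAC (Fin n) (j + 1) E y (fun A hA => (mem_powersetCard.1 (mem_filter.1 hA).1).2)
      (fun A hA => (mem_filter.1 hA).2)
    exact le_trans (Nat.le_mul_of_pos_right _ (Nat.factorial_pos _)) h1
  have hsub : F.filter (fun e => ¬ e ⊆ T) ⊆
      (univ : Finset (Fin n)).biUnion (fun v => E.image (fun A => insert v A)) := by
    intro e he
    rw [mem_filter] at he
    obtain ⟨heF, heT⟩ := he
    rw [Finset.not_subset] at heT
    obtain ⟨v, hve, hvT⟩ := heT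
    rw [mem_biUnion]
    refine ⟨v, mem_univ _, mem_image.2 ⟨e.erase v, ?_, insert_erase hve⟩⟩
    rw [hE, mem_filter, mem_powersetCard]
    refine ⟨⟨subset_univ _, ?_⟩, ?_⟩
    · rw [card_erase_of_mem hve, hF e heF]; rfl
    · have h1 := hcov e heF
      rw [← add_sum_erase e y hve, hT v hvT, zero_add] at h1
      exact h1
  refine (card_le_card hsub).trans ?_
  refine (card_biUnion_le_card_mul _ _ (NG y (j + 1)) fun v _ => card_image_le.trans hEc).trans ?_
  rw [card_univ, Fintype.card_fin]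

theorem highStab (k : ℕ) (hk : 3 ≤ k) (x2' x2 : ℝ) (h0 : 0 < x2') (h12 : x2' < x2)
    (hreg : ∀ x : ℝ, x2' ≤ x → k * x ≤ 1 → 1 - (1 - x) ^ k ≤ (k * x) ^ k) (γ : ℝ) (hγ : 0 < γ) :
    ∃ n0 : ℕ, ∀ n : ℕ, n0 ≤ n → ∀ F : Finset (Finset (Fin n)), Unif k F →
      ∀ s : ℕ, x2 * n ≤ s → k * (s + 1) ≤ n → (k * (s + 1) - 1).choose k ≤ F.card →
        ¬ HasM F (s + 1) →
        ∃ T : Finset (Fin n), k * s ≤ T.card ∧ (T.card : ℝ) ≤ k * s + γ * n ∧
          ((F.filter (fun e => ¬ e ⊆ T)).card : ℝ) ≤ γ * (n : ℝ) ^ k := by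
  classical
  obtain ⟨j, rfl⟩ : ∃ j, k = j + 2 := ⟨k - 2, by omega⟩
  set K : ℝ := ((j + 2 : ℕ) : ℝ) with hK
  have hK0 : 0 < K := by positivity
  have hK1 : 1 ≤ K := by
    rw [hK]
    have : 1 ≤ j + 2 := by omega
    exact_mod_cast this
  set f : ℝ := ((j + 2).factorial : ℝ) with hf
  have hf0 : 0 < f := by positivity
  have hx20 : 0 < x2 := h0.trans h12
  -- θ
  obtain ⟨θ, hθ0, hθ1, hθ2⟩ : ∃ θ : ℝ, 0 < θ ∧ θ ≤ 1 ∧ x2' * (1 + θ) ≤ x2 := by
    refine ⟨min 1 ((x2 - x2') / x2'), lt_min one_pos (div_pos (by linarith) h0), min_le_left _ _, ?_⟩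
    have h1 : x2' * min 1 ((x2 - x2') / x2') ≤ x2' * ((x2 - x2') / x2') :=
      mul_le_mul_of_nonneg_left (min_le_right _ _) h0.le
    have h2 : x2' * ((x2 - x2') / x2') = x2 - x2' := by field_simp
    linarith
  -- the error: we need `2^(k+1) (ε + 1/n) + f c ≤ θ γ' / 2`, `γ' = γ/2`
  set Z : ℝ := 2 ^ (j + 4) with hZ
  have hZ0 : 0 < Z := by positivity
  obtain ⟨ε, hε0, hε1, hε2, hε3⟩ : ∃ ε : ℝ, 0 < ε ∧ ε ≤ γ ∧ K * Z * ε ≤ θ * γ / 16 ∧ ε ≤ θ / 8 := by
    refine ⟨min γ (min (θ * γ / 16 / (K * Z)) (θ / 8)), by positivity, min_le_left _ _, ?_, ?_⟩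
    · have h1 : K * Z * min γ (min (θ * γ / 16 / (K * Z)) (θ / 8)) ≤
        K * Z * (θ * γ / 16 / (K * Z)) := mul_le_mul_of_nonneg_left
          ((min_le_right _ _).trans (min_le_left _ _)) (by positivity)
      have h2 : K * Z * (θ * γ / 16 / (K * Z)) = θ * γ / 16 := by field_simp
      linarith
    · exact (min_le_right _ _).trans (min_le_right _ _)
  obtain ⟨c, hc0, hc1, hc2⟩ : ∃ c : ℝ, 0 < c ∧ f * c ≤ θ * γ / 16 ∧ c ≤ γ / 2 := by
    refine ⟨min (θ * γ / 16 / f) (γ / 2), by positivity, ?_, min_le_right _ _⟩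
    have h1 : f * min (θ * γ / 16 / f) (γ / 2) ≤ f * (θ * γ / 16 / f) :=
      mul_le_mul_of_nonneg_left (min_le_left _ _) hf0.le
    have h2 : f * (θ * γ / 16 / f) = θ * γ / 16 := by field_simp
    linarith
  obtain ⟨n1, H⟩ := cover (j + 2) (by omega) x2 c ε hx20 hc0 hε0
  obtain ⟨n2, hn2⟩ := exists_nat_ge (8 / θ + Z / (θ * γ / 16) + 1 / x2 + 1)
  refine ⟨max n1 n2, ?_⟩
  intro n hn F hF s hs hsn hFc hno
  have hnn1 : n1 ≤ n := (le_max_left _ _).trans hn
  have hnn2 : (n2 : ℝ) ≤ n := by exact_mod_cast (le_max_right _ _).trans hn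
  have p1 : 0 < 8 / θ := by positivity
  have p2 : 0 < Z / (θ * γ / 16) := by positivity
  have p3 : 0 < 1 / x2 := by positivity
  have hn0 : (0 : ℝ) < n := by linarith
  have hnθ : 8 ≤ θ * n := by
    have : 8 / θ ≤ n := by linarith
    rw [div_le_iff₀ hθ0] at this
    linarith
  have hnZ : Z ≤ θ * γ / 16 * n := by
    have : Z / (θ * γ / 16) ≤ n := by linarith
    rw [div_le_iff₀ (by positivity)] at this
    linarith
  have hs0 : (0 : ℝ) ≤ s := Nat.cast_nonneg s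
  have hksn : K * (s + 1) ≤ n := by rw [hK]; exact_mod_cast hsn
  have hks : K * s ≤ n := by linarith
  have h2s : 2 * s ≤ n := by
    have h1 : 2 * s ≤ (j + 2) * (s + 1) := Nat.mul_le_mul (by omega) (by omega)
    omega
  obtain ⟨y, hy, hys, hysup, F', hF'F, hF'cov, hF'c⟩ := H n hnn1 F hF s hs h2s hno
  -- `p`
  obtain ⟨p, hp⟩ : ∃ p : ℕ, p = ⌈K * ((1 + ε) * s)⌉₊ := ⟨_, rfl⟩
  have hKe : 0 ≤ K * ((1 + ε) * s) := by positivity
  have hp1 : K * ((1 + ε) * s) ≤ p := by rw [hp]; exact Nat.le_ceil _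
  have hp2 : (p : ℝ) ≤ K * ((1 + ε) * s) + 1 := by rw [hp]; exact (Nat.ceil_lt_add_one hKe).le
  have hspos : 0 < (s : ℝ) := lt_of_lt_of_le (by positivity) hs
  have hsum : K * ∑ v, y v ≤ p := (mul_le_mul_of_nonneg_left hys hK0.le).trans hp1
  have hsupp : (univ.filter (fun v => y v ≠ 0)).card ≤ p := by
    have : ((univ.filter (fun v => y v ≠ 0)).card : ℝ) ≤ p := hysup.trans hsum
    exact_mod_cast this
  have hp0 : 0 < p := by
    have : (0 : ℝ) < p := lt_of_lt_of_le (by positivity) hp1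
    exact_mod_cast this
  have hεn : K * (ε * s) ≤ ε * n := by
    have := mul_le_mul_of_nonneg_left hks hε0.le
    linarith
  have hKs' : K * ((1 + ε) * s) = K * s + K * (ε * s) := by ring
  -- `q`
  obtain ⟨q, hq⟩ : ∃ q : ℕ, q = ⌊θ * n⌋₊ := ⟨_, rfl⟩
  have hq1 : (q : ℝ) ≤ θ * n := by rw [hq]; exact Nat.floor_le (by positivity)
  have hq2 : θ * n / 2 ≤ (q : ℝ) := by
    have : θ * n - 1 < (q : ℝ) := by rw [hq]; exact Nat.sub_one_lt_floor _
    linarith
  have hq0 : (0 : ℝ) < q := by linarith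
  have hpn : (p : ℝ) ≤ n + q := by
    have : ε * n ≤ θ / 8 * n := mul_le_mul_of_nonneg_right hε3 hn0.le
    linarith
  have hpn' : p ≤ n + q := by exact_mod_cast hpn
  have hadd := addz j y hy p q hp0 hpn' hsupp hsum
  rw [← hK] at hadd
  -- the value of `mv`
  have hnq : (0 : ℝ) < ((n + q : ℕ) : ℝ) := by push_cast; linarith
  set x : ℝ := (p : ℝ) / ((n + q : ℕ) : ℝ) / K with hx
  have hKx : K * x = (p : ℝ) / ((n + q : ℕ) : ℝ) := by rw [hx]; field_simp
  have hx1 : x2' ≤ x := by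
    rw [hx, div_div, le_div_iff₀ (by positivity)]
    have h1 : x2' * (((n + q : ℕ) : ℝ) * K) ≤ x2' * (((1 + θ) * n) * K) := by
      refine mul_le_mul_of_nonneg_left (mul_le_mul_of_nonneg_right ?_ hK0.le) h0.le
      push_cast
      linarith
    have h2 : x2' * (((1 + θ) * n) * K) = x2' * (1 + θ) * n * K := by ring
    have h3 : x2' * (1 + θ) * n * K ≤ x2 * n * K :=
      mul_le_mul_of_nonneg_right (mul_le_mul_of_nonneg_right hθ2 hn0.le) hK0.le
    have h4 : x2 * n * K ≤ s * K := mul_le_mul_of_nonneg_right hs hK0.le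
    have h5 : 0 ≤ K * (ε * s) := by positivity
    linarith
  have hx2 : K * x ≤ 1 := by
    rw [hKx, div_le_one hnq]
    push_cast
    exact hpn
  have hmv : mv (j + 2) x = (K * x) ^ (j + 2) := by
    unfold mv
    rw [max_eq_right]
    exact hreg x hx1 hx2
  have hval : ((n + q : ℕ) : ℝ) ^ (j + 2) * mv (j + 2) x = (p : ℝ) ^ (j + 2) := by
    rw [hmv, hKx, ← mul_pow]
    congr 1
    field_simp
  rw [hval] at hadd
  -- lower bound for `NG y k`
  have hfac : (f * F'.card : ℝ) ≤ (NG y (j + 2) : ℝ) := by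
    have h1 := t_FAC (Fin n) (j + 2) F' y (fun e he => hF e (hF'F he)) hF'cov
    rw [mul_comm, hf]
    exact_mod_cast h1
  have hlow : (K * s) ^ (j + 2) ≤ f * (F.card : ℝ) := by
    have h1 := Nat.pow_le_choose (α := ℝ) (j + 2) ((j + 2) * (s + 1) - 1)
    rw [div_le_iff₀ (by positivity)] at h1
    have h2 : (j + 2) * (s + 1) - 1 + 1 - (j + 2) = (j + 2) * s := by
      have : (j + 2) * (s + 1) = (j + 2) * s + (j + 2) := by ring
      omega
    rw [h2] at h1
    have h3 : ((((j + 2) * (s + 1) - 1).choose (j + 2) : ℕ) : ℝ) ≤ F.card := by exact_mod_cast hFc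
    have h4 : (((j + 2) * s : ℕ) : ℝ) = K * s := by rw [hK]; push_cast; ring
    rw [h4] at h1
    calc (K * s) ^ (j + 2) ≤ _ := h1
      _ ≤ F.card * f := mul_le_mul_of_nonneg_right h3 hf0.le
      _ = f * F.card := mul_comm _ _
  have hNG : (K * s) ^ (j + 2) - f * c * (n : ℝ) ^ (j + 2) ≤ (NG y (j + 2) : ℝ) := by
    have : f * ((F.card : ℝ) - F'.card) ≤ f * (c * (n : ℝ) ^ (j + 2)) :=
      mul_le_mul_of_nonneg_left hF'c hf0.le
    linarith
  -- upper bound for `p^k`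
  have hpk : (p : ℝ) ^ (j + 2) - (K * s) ^ (j + 2) ≤ K * ((2 * n) ^ (j + 1) * (ε * n + 1)) := by
    have h1 := pow_sub_le p (K * s) (j + 1) (by positivity) (by
      have : 0 ≤ K * (ε * s) := by positivity
      linarith)
    have h2 : (((j + 1 : ℕ) : ℝ) + 1) = K := by rw [hK]; push_cast; ring
    rw [h2] at h1
    refine h1.trans ?_
    have h3 : (p : ℝ) ≤ 2 * n := by
      have : θ * n ≤ 1 * n := mul_le_mul_of_nonneg_right hθ1 hn0.le
      linarith
    rw [mul_assoc]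
    refine mul_le_mul_of_nonneg_left ?_ hK0.le
    refine mul_le_mul (pow_le_pow_left₀ (Nat.cast_nonneg _) h3 _) ?_ ?_ (by positivity)
    · linarith
    · have : 0 ≤ K * (ε * s) := by positivity
      linarith
  -- the bound for `NG y (k-1)`
  have hG : n * (NG y (j + 1) : ℝ) ≤ γ / 2 * (n : ℝ) ^ (j + 2) := by
    have hG0 : (0 : ℝ) ≤ NG y (j + 1) := Nat.cast_nonneg _
    have h1 : K * q * (NG y (j + 1) : ℝ) ≤
        K * ((2 * n) ^ (j + 1) * (ε * n + 1)) + f * c * (n : ℝ) ^ (j + 2) := by linarith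
    have h2 : K * (θ * n / 2) * (NG y (j + 1) : ℝ) ≤ K * q * (NG y (j + 1) : ℝ) :=
      mul_le_mul_of_nonneg_right (mul_le_mul_of_nonneg_left hq2 hK0.le) hG0
    have h3 : K * ((2 * n) ^ (j + 1) * (ε * n + 1)) =
        K * (2 ^ (j + 1) * (ε * (n : ℝ) ^ (j + 2) + (n : ℝ) ^ (j + 1))) := by
      rw [mul_pow]; ring
    have h4 : (2 : ℝ) ^ (j + 1) ≤ Z := by
      rw [hZ]
      exact pow_le_pow_right₀ (by norm_num) (by omega)
    have h5 : K * (2 ^ (j + 1) * (ε * (n : ℝ) ^ (j + 2) + (n : ℝ) ^ (j + 1))) ≤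
        K * (Z * (ε * (n : ℝ) ^ (j + 2) + (n : ℝ) ^ (j + 1))) := by
      refine mul_le_mul_of_nonneg_left (mul_le_mul_of_nonneg_right h4 (by positivity)) hK0.le
    have h6 : K * (Z * (ε * (n : ℝ) ^ (j + 2) + (n : ℝ) ^ (j + 1))) =
        K * Z * ε * (n : ℝ) ^ (j + 2) + K * (Z * (n : ℝ) ^ (j + 1)) := by ring
    have h7 : K * Z * ε * (n : ℝ) ^ (j + 2) ≤ θ * γ / 16 * (n : ℝ) ^ (j + 2) :=
      mul_le_mul_of_nonneg_right hε2 (by positivity)
    have h8 : K * (Z * (n : ℝ) ^ (j + 1)) ≤ K * (θ * γ / 16 * (n : ℝ) ^ (j + 2)) := by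
      refine mul_le_mul_of_nonneg_left ?_ hK0.le
      have : θ * γ / 16 * (n : ℝ) ^ (j + 2) = θ * γ / 16 * n * (n : ℝ) ^ (j + 1) := by ring
      rw [this]
      exact mul_le_mul_of_nonneg_right hnZ (by positivity)
    have h9 : f * c * (n : ℝ) ^ (j + 2) ≤ θ * γ / 16 * (n : ℝ) ^ (j + 2) :=
      mul_le_mul_of_nonneg_right hc1 (by positivity)
    have h10 : θ * γ / 16 * (n : ℝ) ^ (j + 2) ≤ K * (θ * γ / 16 * (n : ℝ) ^ (j + 2)) :=
      le_mul_of_one_le_left (by positivity) hK1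
    have h11 : (K * θ / 2) * (n * (NG y (j + 1) : ℝ)) ≤ (K * θ / 2) * (γ / 2 * (n : ℝ) ^ (j + 2)) := by
      have e1 : (K * θ / 2) * (n * (NG y (j + 1) : ℝ)) = K * (θ * n / 2) * (NG y (j + 1) : ℝ) := by
        ring
      have e2 : (K * θ / 2) * (γ / 2 * (n : ℝ) ^ (j + 2)) =
          4 * (K * (θ * γ / 16 * (n : ℝ) ^ (j + 2))) := by ring
      have h12 : 0 ≤ θ * γ / 16 * (n : ℝ) ^ (j + 2) := by positivity
      rw [e1, e2]
      linarith only [h1, h2, h3, h5, h6, h7, h8, h9, h10, h12]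
    exact le_of_mul_le_mul_left h11 (by positivity)
  -- `T`
  set R0 : Finset (Fin n) := univ.filter (fun v => y v ≠ 0) with hR0
  have hR0n : R0.card ≤ n := by simpa using card_le_univ R0
  have hR0c : (R0.card : ℝ) ≤ K * s + γ * n := by
    refine hysup.trans ?_
    rw [← hK]
    have h1 : K * ∑ v, y v ≤ K * ((1 + ε) * s) := mul_le_mul_of_nonneg_left hys hK0.le
    have h2 : ε * n ≤ γ * n := mul_le_mul_of_nonneg_right hε1 hn0.le
    linarith
  obtain ⟨T, hT1, -, hT2⟩ := Finset.exists_subsuperset_card_eq (subset_univ R0)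
    (le_max_left R0.card ((j + 2) * s)) (by
      rw [card_univ, Fintype.card_fin]
      refine max_le hR0n ?_
      have : (j + 2) * s ≤ (j + 2) * (s + 1) := Nat.mul_le_mul_left _ (by omega)
      omega)
  refine ⟨T, by rw [hT2]; exact le_max_right _ _, ?_, ?_⟩
  · rw [hT2]
    have e1 : ((max R0.card ((j + 2) * s) : ℕ) : ℝ) = max (R0.card : ℝ) (K * s) := by
      rw [Nat.cast_max, Nat.cast_mul]
    rw [e1]
    refine max_le hR0c ?_
    have : 0 < γ * n := by positivity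
    linarith
  · have hz := zero_edges j F' (fun e he => hF e (hF'F he)) y hF'cov T (by
      intro v hv
      by_contra hcon
      exact hv (hT1 (mem_filter.2 ⟨mem_univ _, hcon⟩)))
    have hzR : ((F'.filter (fun e => ¬ e ⊆ T)).card : ℝ) ≤ n * (NG y (j + 1) : ℝ) := by
      exact_mod_cast hz
    have hsplit : (F.filter (fun e => ¬ e ⊆ T)).card ≤ (F'.filter (fun e => ¬ e ⊆ T)).card +
        (F \ F').card := by
      refine le_trans (card_le_card ?_) (card_union_le _ _)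
      intro e he
      rw [mem_filter] at he
      rw [mem_union, mem_filter, mem_sdiff]
      by_cases h : e ∈ F'
      · left; exact ⟨h, he.2⟩
      · right; exact ⟨he.1, h⟩
    have hdc : ((F \ F').card : ℝ) = F.card - F'.card := by
      rw [card_sdiff_of_subset hF'F, Nat.cast_sub (card_le_card hF'F)]
    have hsR : ((F.filter (fun e => ¬ e ⊆ T)).card : ℝ) ≤
        ((F'.filter (fun e => ¬ e ⊆ T)).card : ℝ) + ((F \ F').card : ℝ) := by exact_mod_cast hsplit
    have h9 : c * (n : ℝ) ^ (j + 2) ≤ γ / 2 * (n : ℝ) ^ (j + 2) :=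
      mul_le_mul_of_nonneg_right hc2 (by positivity)
    linarith

end Pool.Agent.U196.EMC
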