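import Mathlib
import Pool.Agent.U196.EMC.High

/-!
# Exact Erdős matching conjecture: stability, sparse side
-/

set_option autoImplicit false

namespace Pool.Agent.U196.EMC

open Finset Pool.Agent.W890.SF Pool.Agent.W593.IR

theorem pow_taylor (N q : ℝ) (hq : 0 ≤ q) (hqN : q ≤ N) (j : ℕ) :
    (N - q) ^ (j + 2) ≤ N ^ (j + 2) - (j + 2) * q * N ^ (j + 1) + (j + 2) ^ 2 * q ^ 2 * N ^ j := by
  induction j with
  | zero => simp; nlinarith
  | succ j ih =>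
    have hN : 0 ≤ N := hq.trans hqN
    have h1 : (N - q) ^ (j + 1 + 2) = (N - q) * (N - q) ^ (j + 2) := by ring
    have h2 : (N - q) * (N - q) ^ (j + 2) ≤ (N - q) *
        (N ^ (j + 2) - (j + 2) * q * N ^ (j + 1) + (j + 2) ^ 2 * q ^ 2 * N ^ j) :=
      mul_le_mul_of_nonneg_left ih (by linarith)
    have h3 : (N - q) * (N ^ (j + 2) - (j + 2) * q * N ^ (j + 1) + (j + 2) ^ 2 * q ^ 2 * N ^ j) =
        N ^ (j + 3) - (j + 3) * q * N ^ (j + 2) + (j + 3) ^ 2 * q ^ 2 * N ^ (j + 1) -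
          ((j + 3) * q ^ 2 * N ^ (j + 1) + (j + 2) ^ 2 * q ^ 3 * N ^ j) := by ring
    have h4 : 0 ≤ ((j : ℝ) + 3) * q ^ 2 * N ^ (j + 1) + (j + 2) ^ 2 * q ^ 3 * N ^ j := by positivity
    have h5 : (j + 1 + 2 : ℕ) = j + 3 := rfl
    have h6 : (j + 1 + 1 : ℕ) = j + 2 := rfl
    rw [h1, h5, h6]
    push_cast
    have h7 : ((j : ℝ) + 1 + 2) = j + 3 := by ring
    rw [h7]
    linarith

theorem low_arith (j : ℕ) (N q S ε c θ Gk Gr : ℝ) (hN : 0 < N) (hq : 0 < q) (hqθ : q ≤ θ * N)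
    (hθq : θ * N / 2 ≤ q) (hθ : 0 < θ) (hS : 0 ≤ S) (hSN : S ≤ N) (hε : 0 < ε)
    (hc : 0 ≤ c) (hnn : 0 ≤ N - q - (1 + ε) * S - 1)
    (h1 : N ^ (j + 2) - (N - S) ^ (j + 2) - (j + 2) ^ 2 * N ^ (j + 1) - c * N ^ (j + 2) ≤ Gk)
    (h2 : Gk ≤ (N - q) ^ (j + 2) - (N - q - (1 + ε) * S - 1) ^ (j + 2) + (j + 2) * q * Gr +
      2 ^ (j + 2) * q ^ 2 * N ^ j) :
    N ^ (j + 1) - (N - S) ^ (j + 1) -
      (((j + 2) + 2 ^ (j + 2)) * θ + 2 / θ * (ε + c + (j + 3) / N)) * N ^ (j + 1) ≤ Gr := by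
  have hεS : 0 ≤ ε * S := mul_nonneg hε.le hS
  have hA := pow_sub_le (N - S) (N - q - (1 + ε) * S - 1) (j + 1) hnn (by nlinarith)
  have hB := pow_taylor N q hq.le (by nlinarith) j
  have hu : 0 < N ^ j := by positivity
  have hNS : (N - S) ^ (j + 1) ≤ N ^ (j + 1) := pow_le_pow_left₀ (by linarith) (by linarith) _
  have hNS0 : 0 ≤ (N - S) ^ (j + 1) := pow_nonneg (by linarith) _
  have hεSN : ε * S + 1 ≤ ε * N + 1 := by
    have := mul_le_mul_of_nonneg_left hSN hε.le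
    linarith
  have hC : (N - S) ^ (j + 1) * (ε * S + 1) ≤ N ^ (j + 1) * (ε * N + 1) :=
    mul_le_mul hNS hεSN (by positivity) (by positivity)
  set P : ℝ := (N - S) ^ (j + 1) with hP
  have eA : ((j + 1 : ℕ) + 1 : ℝ) * P * (N - S - (N - q - (1 + ε) * S - 1)) =
      (j + 2) * q * P + (j + 2) * (P * (ε * S + 1)) := by push_cast; ring
  rw [eA] at hA
  set u : ℝ := N ^ j with hu'
  have e1 : N ^ (j + 1) = N * u := by rw [hu']; ring
  have e2 : N ^ (j + 2) = N ^ 2 * u := by rw [hu']; ring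
  have e3 : (N - S) ^ (j + 1 + 1) = (N - S) ^ (j + 2) := rfl
  have e4 : (N - q - (1 + ε) * S - 1) ^ (j + 1 + 1) = (N - q - (1 + ε) * S - 1) ^ (j + 2) := rfl
  rw [e3, e4] at hA
  have hk0 : (0 : ℝ) < (j : ℝ) + 2 := by positivity
  have hC' : ((j : ℝ) + 2) * (P * (ε * S + 1)) ≤ (j + 2) * (N * u * (ε * N + 1)) := by
    rw [e1] at hC
    exact mul_le_mul_of_nonneg_left hC hk0.le
  rw [e1, e2] at hB
  rw [e1, e2] at h1
  rw [e1]
  -- main inequality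
  set E : ℝ := ((j + 2) + 2 ^ (j + 2)) * θ + 2 / θ * (ε + c + (j + 3) / N) with hE
  have hmain : (j + 2) * q * E * (N * u) ≥ (j + 2) ^ 2 * q ^ 2 * u + (j + 2) * (N * u * (ε * N + 1)) +
      (j + 2) ^ 2 * (N * u) + c * (N ^ 2 * u) + 2 ^ (j + 2) * q ^ 2 * u := by
    have g1 : q * q * (((j : ℝ) + 2) + 2 ^ (j + 2)) ≤ q * (θ * N) * (((j : ℝ) + 2) + 2 ^ (j + 2)) :=
      mul_le_mul_of_nonneg_right (mul_le_mul_of_nonneg_left hqθ hq.le) (by positivity)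
    have g2 : N ≤ q * (2 / θ) := by
      rw [mul_div_assoc', le_div_iff₀ hθ]
      linarith
    have hX : 0 ≤ ε + c + ((j : ℝ) + 3) / N := by positivity
    have g3 : N * N * (ε + c + ((j : ℝ) + 3) / N) ≤ (q * (2 / θ)) * N * (ε + c + ((j : ℝ) + 3) / N) :=
      mul_le_mul_of_nonneg_right (mul_le_mul_of_nonneg_right g2 hN.le) hX
    have g4 : N * N * (ε + c + ((j : ℝ) + 3) / N) = N ^ 2 * ε + N ^ 2 * c + (j + 3) * N := by
      field_simp
    have g5 : (j + 2) * q * E * (N * u) = (((j : ℝ) + 2) * u) *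
        (q * (θ * N) * (((j : ℝ) + 2) + 2 ^ (j + 2)) +
          (q * (2 / θ)) * N * (ε + c + ((j : ℝ) + 3) / N)) := by rw [hE]; ring
    have g6 : (((j : ℝ) + 2) * u) * (q * q * (((j : ℝ) + 2) + 2 ^ (j + 2)) +
        (N ^ 2 * ε + N ^ 2 * c + (j + 3) * N)) ≤ (((j : ℝ) + 2) * u) *
        (q * (θ * N) * (((j : ℝ) + 2) + 2 ^ (j + 2)) +
          (q * (2 / θ)) * N * (ε + c + ((j : ℝ) + 3) / N)) :=
      mul_le_mul_of_nonneg_left (by linarith) (by positivity)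
    have g7 : (((j : ℝ) + 2) * u) * (q * q * (((j : ℝ) + 2) + 2 ^ (j + 2)) +
        (N ^ 2 * ε + N ^ 2 * c + (j + 3) * N)) = ((j + 2) ^ 2 * q ^ 2 * u +
        (j + 2) * (N * u * (ε * N + 1)) + (j + 2) ^ 2 * (N * u) + c * (N ^ 2 * u) +
        2 ^ (j + 2) * q ^ 2 * u) + (((j : ℝ) + 1) * (2 ^ (j + 2) * q ^ 2 * u) +
        (j + 1) * (c * (N ^ 2 * u))) := by
      ring
    have g8 : 0 ≤ ((j : ℝ) + 1) * (2 ^ (j + 2) * q ^ 2 * u) + (j + 1) * (c * (N ^ 2 * u)) := by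
      positivity
    rw [g5]
    linarith
  have hfin : (j + 2) * q * (N * u - P - E * (N * u)) ≤ (j + 2) * q * Gr := by
    have e5 : ((j : ℝ) + 2) * q * (N * u - P - E * (N * u)) =
        (j + 2) * q * (N * u) - (j + 2) * q * P - (j + 2) * q * E * (N * u) := by ring
    rw [e5]
    linarith
  exact le_of_mul_le_mul_left hfin (by positivity)

end Pool.Agent.U196.EMC
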