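import Mathlib
import Pool.Agent.U196.EMC.Low

/-!
# Exact Erdős matching conjecture: stability, sparse side (continued)
-/

set_option autoImplicit false

namespace Pool.Agent.U196.EMC

open Finset Pool.Agent.W890.SF Pool.Agent.W593.IR

theorem lowStab (k : ℕ) (hk : 3 ≤ k) (x0 x1' x1 : ℝ) (hx0 : 0 < x0) (h1 : x1' < x1)
    (hx1 : 0 < x1') (hkx : k * x1 < 1)
    (hreg : ∀ x : ℝ, 0 ≤ x → x ≤ x1 → (k * x) ^ k ≤ 1 - (1 - x) ^ k) (γ : ℝ) (hγ : 0 < γ) :
    ∃ n0 : ℕ, ∀ n : ℕ, n0 ≤ n → ∀ F : Finset (Finset (Fin n)), Unif k F →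
      ∀ s : ℕ, x0 * n ≤ s → (s : ℝ) ≤ x1' * n → n.choose k - (n - s).choose k ≤ F.card →
        ¬ HasM F (s + 1) →
        ∃ S : Finset (Fin n), (S.card : ℝ) ≤ s + γ * n ∧
          ((F.filter (fun e => Disjoint e S)).card : ℝ) ≤ γ * (n : ℝ) ^ k := by
  classical
  obtain ⟨j, rfl⟩ : ∃ j, k = j + 2 := ⟨k - 2, by omega⟩
  set K : ℝ := ((j + 2 : ℕ) : ℝ) with hK
  have hKj : K = (j : ℝ) + 2 := by rw [hK]; push_cast; ring
  have hj0 : (0 : ℝ) ≤ j := Nat.cast_nonneg j
  have hK0 : 0 < K := by positivity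
  have hK2 : 2 ≤ K := by linarith
  set f : ℝ := ((j + 2).factorial : ℝ) with hf
  have hf0 : 0 < f := by positivity
  have hx10 : 0 < x1 := hx1.trans h1
  have hx11 : x1 < 1 := by
    have e1 : 2 * x1 ≤ K * x1 := mul_le_mul_of_nonneg_right hK2 hx10.le
    linarith
  set D : ℝ := x1 - x1' with hD
  have hD0 : 0 < D := by rw [hD]; linarith
  -- `g`
  obtain ⟨g, hg0, hkg, hg2⟩ : ∃ g : ℝ, 0 < g ∧ K * g ≤ 1 / 2 ∧ g ≤ γ / 8 := by
    refine ⟨min (1 / (2 * K)) (γ / 8), lt_min (by positivity) (by positivity), ?_, min_le_right _ _⟩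
    calc K * min (1 / (2 * K)) (γ / 8) ≤ K * (1 / (2 * K)) :=
          mul_le_mul_of_nonneg_left (min_le_left _ _) hK0.le
      _ = 1 / 2 := by field_simp
  have hg3 : g ≤ 1 / 4 := by
    have := mul_le_mul_of_nonneg_right hK2 hg0.le
    linarith
  obtain ⟨η, hη, hS⟩ := t_SAS (j + 1) (by omega) x0 g hx0 hg0
  -- `θ`
  set Z : ℝ := (j + 2) + 2 ^ (j + 2) with hZ
  have hZ0 : 0 < Z := by positivity
  obtain ⟨θ, hθ0, hθ1, hθ2, hθ3⟩ : ∃ θ : ℝ, 0 < θ ∧ θ ≤ 1 ∧ Z * θ ≤ η / 8 ∧ x1 * θ ≤ D / 4 := by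
    refine ⟨min 1 (min (η / 8 / Z) (D / 4 / x1)), by positivity, min_le_left _ _, ?_, ?_⟩
    · have e1 : Z * min 1 (min (η / 8 / Z) (D / 4 / x1)) ≤ Z * (η / 8 / Z) :=
        mul_le_mul_of_nonneg_left ((min_le_right _ _).trans (min_le_left _ _)) hZ0.le
      have e2 : Z * (η / 8 / Z) = η / 8 := by field_simp
      linarith
    · have e1 : x1 * min 1 (min (η / 8 / Z) (D / 4 / x1)) ≤ x1 * (D / 4 / x1) :=
        mul_le_mul_of_nonneg_left ((min_le_right _ _).trans (min_le_right _ _)) hx10.le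
      have e2 : x1 * (D / 4 / x1) = D / 4 := by field_simp
      linarith
  obtain ⟨ε, hε0, hε1, hε2, hε3, hε4⟩ : ∃ ε : ℝ, 0 < ε ∧ ε ≤ γ / 4 ∧ K * ε ≤ η / 8 ∧
      ε ≤ θ * η / 32 ∧ x1' * ε ≤ D / 4 := by
    refine ⟨min (min (γ / 4) (η / 8 / K)) (min (θ * η / 32) (D / 4 / x1')), by positivity,
      (min_le_left _ _).trans (min_le_left _ _), ?_, (min_le_right _ _).trans (min_le_left _ _), ?_⟩
    · have e1 : K * min (min (γ / 4) (η / 8 / K)) (min (θ * η / 32) (D / 4 / x1')) ≤ K * (η / 8 / K) :=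
        mul_le_mul_of_nonneg_left ((min_le_left _ _).trans (min_le_right _ _)) hK0.le
      have e2 : K * (η / 8 / K) = η / 8 := by field_simp
      linarith
    · have e1 : x1' * min (min (γ / 4) (η / 8 / K)) (min (θ * η / 32) (D / 4 / x1')) ≤
          x1' * (D / 4 / x1') :=
        mul_le_mul_of_nonneg_left ((min_le_right _ _).trans (min_le_right _ _)) hx1.le
      have e2 : x1' * (D / 4 / x1') = D / 4 := by field_simp
      linarith
  obtain ⟨c, hc0, hc1, hc2⟩ : ∃ c : ℝ, 0 < c ∧ f * c ≤ θ * η / 32 ∧ c ≤ γ / 2 := by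
    refine ⟨min (θ * η / 32 / f) (γ / 2), by positivity, ?_, min_le_right _ _⟩
    have e1 : f * min (θ * η / 32 / f) (γ / 2) ≤ f * (θ * η / 32 / f) :=
      mul_le_mul_of_nonneg_left (min_le_left _ _) hf0.le
    have e2 : f * (θ * η / 32 / f) = θ * η / 32 := by field_simp
    linarith
  obtain ⟨n1, H⟩ := cover (j + 2) (by omega) x0 c ε hx0 hc0 hε0
  obtain ⟨n2, hn2⟩ := exists_nat_ge (2 / θ + (j + 3) / (θ * η / 32) + 1 / x0 + 2 / D + K + 1)
  refine ⟨max n1 n2, ?_⟩
  intro n hn F hF s hs hsn hFc hno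
  have hnn1 : n1 ≤ n := (le_max_left _ _).trans hn
  have hnn2 : (n2 : ℝ) ≤ n := by exact_mod_cast (le_max_right _ _).trans hn
  have p1 : 0 < 2 / θ := by positivity
  have p2 : 0 < ((j : ℝ) + 3) / (θ * η / 32) := by positivity
  have p3 : 0 < 1 / x0 := by positivity
  have p4 : 0 < 2 / D := by positivity
  have hn0 : (0 : ℝ) < n := by linarith
  have hnθ : 2 ≤ θ * n := by
    have : 2 / θ ≤ n := by linarith
    rw [div_le_iff₀ hθ0] at this
    linarith
  have hnj : ((j : ℝ) + 3) / n ≤ θ * η / 32 := by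
    have : ((j : ℝ) + 3) / (θ * η / 32) ≤ n := by linarith
    rw [div_le_iff₀ (by positivity)] at this
    rw [div_le_iff₀ hn0]
    linarith
  have hnD : 2 ≤ D * n := by
    have : 2 / D ≤ n := by linarith
    rw [div_le_iff₀ hD0] at this
    linarith
  have hKn : K ≤ n := by linarith
  have hkn : j + 2 ≤ n := by
    have : ((j + 2 : ℕ) : ℝ) ≤ n := hKn
    exact_mod_cast this
  have hn1 : 0 < n := by omega
  have hs0 : (0 : ℝ) ≤ s := Nat.cast_nonneg s
  have hspos : 0 < (s : ℝ) := lt_of_lt_of_le (by positivity) hs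
  have hx1n : x1' * n ≤ x1 * n := mul_le_mul_of_nonneg_right h1.le hn0.le
  have hkx1n : K * (x1 * n) ≤ n := by
    have := mul_le_mul_of_nonneg_right hkx.le hn0.le
    linarith
  have h2sR : 2 * (s : ℝ) ≤ n := by
    have e1 : 2 * (s : ℝ) ≤ K * s := mul_le_mul_of_nonneg_right hK2 hs0
    have e2 : K * (s : ℝ) ≤ K * (x1 * n) := mul_le_mul_of_nonneg_left (hsn.trans hx1n) hK0.le
    linarith
  have h2s : 2 * s ≤ n := by exact_mod_cast h2sR
  have hsn' : s ≤ n := by omega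
  have hsnR : (s : ℝ) ≤ n := by exact_mod_cast hsn'
  obtain ⟨y, hy, hys, hysup, F', hF'F, hF'cov, hF'c⟩ := H n hnn1 F hF s hs h2s hno
  -- `p`
  obtain ⟨p, hp⟩ : ∃ p : ℕ, p = ⌈K * ((1 + ε) * s)⌉₊ := ⟨_, rfl⟩
  have hKe : 0 ≤ K * ((1 + ε) * s) := by positivity
  have hp1 : K * ((1 + ε) * s) ≤ p := by rw [hp]; exact Nat.le_ceil _
  have hp2 : (p : ℝ) ≤ K * ((1 + ε) * s) + 1 := by rw [hp]; exact (Nat.ceil_lt_add_one hKe).le
  have hsum : K * ∑ v, y v ≤ p := (mul_le_mul_of_nonneg_left hys hK0.le).trans hp1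
  have hsupp : (univ.filter (fun v => y v ≠ 0)).card ≤ p := by
    have : ((univ.filter (fun v => y v ≠ 0)).card : ℝ) ≤ p := hysup.trans hsum
    exact_mod_cast this
  have hp0 : 0 < p := by
    have : (0 : ℝ) < p := lt_of_lt_of_le (by positivity) hp1
    exact_mod_cast this
  -- `q`
  obtain ⟨q, hq⟩ : ∃ q : ℕ, q = ⌊θ * n⌋₊ := ⟨_, rfl⟩
  have hq1 : (q : ℝ) ≤ θ * n := by rw [hq]; exact Nat.floor_le (by positivity)
  have hq2 : θ * n / 2 ≤ (q : ℝ) := by
    have : θ * n - 1 < (q : ℝ) := by rw [hq]; exact Nat.sub_one_lt_floor _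
    linarith
  have hq0 : (0 : ℝ) < q := by linarith
  have hqn : q ≤ n := by
    have e1 : θ * n ≤ 1 * n := mul_le_mul_of_nonneg_right hθ1 hn0.le
    have : (q : ℝ) ≤ n := by linarith
    exact_mod_cast this
  -- the range
  have hrange : (p : ℝ) ≤ K * (x1 * ((n : ℝ) - q)) := by
    have e1 : K * ((1 + ε) * s) + 1 ≤ K * ((1 + ε) * s + 1) := by
      have e0 : K * ((1 + ε) * s + 1) = K * ((1 + ε) * s) + K := by ring
      linarith only [e0, hK2]
    refine hp2.trans (e1.trans (mul_le_mul_of_nonneg_left ?_ hK0.le))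
    have e2 : ε * s ≤ ε * (x1' * n) := mul_le_mul_of_nonneg_left hsn hε0.le
    have e3 : x1' * ε * n ≤ D / 4 * n := mul_le_mul_of_nonneg_right hε4 hn0.le
    have e4 : x1 * q ≤ x1 * (θ * n) := mul_le_mul_of_nonneg_left hq1 hx10.le
    have e5 : x1 * θ * n ≤ D / 4 * n := mul_le_mul_of_nonneg_right hθ3 hn0.le
    have e6 : D * n = x1 * n - x1' * n := by rw [hD]; ring
    linarith only [e2, e3, e4, e5, e6, hnD, hsn]
  have hqnR : (0 : ℝ) ≤ (n : ℝ) - q := by
    have : (q : ℝ) ≤ n := by exact_mod_cast hqn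
    linarith
  have hpR : (p : ℝ) ≤ (n : ℝ) - q := by
    have e1 : K * (x1 * ((n : ℝ) - q)) = (K * x1) * ((n : ℝ) - q) := by ring
    have e2 : (K * x1) * ((n : ℝ) - q) ≤ 1 * ((n : ℝ) - q) := mul_le_mul_of_nonneg_right hkx.le hqnR
    linarith
  have hpq : p ≤ n - q := by
    have : ((p : ℕ) : ℝ) ≤ ((n - q : ℕ) : ℝ) := by rw [Nat.cast_sub hqn]; exact hpR
    exact_mod_cast this
  -- `R`
  obtain ⟨R, hR1, -, hR2⟩ := Finset.exists_subsuperset_card_eq
    (subset_univ (univ.filter (fun v => y v ≠ 0))) (hsupp.trans hpq)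
    (by rw [card_univ, Fintype.card_fin]; exact Nat.sub_le _ _)
  have hRc : (R.card : ℝ) = (n : ℝ) - q := by rw [hR2, Nat.cast_sub hqn]
  have hRpos : (0 : ℝ) < R.card := by
    have : (0 : ℝ) < p := by exact_mod_cast hp0
    linarith
  have hrem := remove j y hy R (by
    intro v hv
    by_contra hcon
    exact hv (hR1 (mem_filter.2 ⟨mem_univ _, hcon⟩))) p q hp0 (by rw [hR2]; exact hpq)
    (by rw [hR2]; omega) hsupp hsum
  rw [← hK] at hrem
  set x : ℝ := (p : ℝ) / R.card / K with hx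
  have hxR : R.card * x = p / K := by rw [hx]; field_simp
  have hxx0 : 0 ≤ x := by positivity
  have hxx1 : x ≤ x1 := by
    rw [hx, div_div, div_le_iff₀ (by positivity), hRc]
    calc (p : ℝ) ≤ _ := hrange
      _ = _ := by ring
  have hmv : mv (j + 2) x = 1 - (1 - x) ^ (j + 2) := by
    unfold mv
    rw [max_eq_left]
    exact hreg x hxx0 hxx1
  have hpK : (p : ℝ) / K ≤ (1 + ε) * s + 1 := by
    rw [div_le_iff₀ hK0]
    have e0 : ((1 + ε) * s + 1) * K = K * ((1 + ε) * s) + K := by ring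
    linarith only [e0, hK2, hp2]
  have hnn : 0 ≤ (n : ℝ) - q - (1 + ε) * s - 1 := by
    have e1 : 2 * ((1 + ε) * s) ≤ K * ((1 + ε) * s) := mul_le_mul_of_nonneg_right hK2 (by positivity)
    have e2 : (1 : ℝ) ≤ (1 + ε) * s := by
      have : (1 : ℝ) ≤ s := by
        have : 1 ≤ s := by
          have : 0 < s := by exact_mod_cast hspos
          omega
        exact_mod_cast this
      have e3 := mul_nonneg hε0.le hs0
      linarith only [this, e3]
    linarith only [e1, e2, hp1, hpR]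
  have hval : (R.card : ℝ) ^ (j + 2) * mv (j + 2) x ≤ ((n : ℝ) - q) ^ (j + 2) -
      ((n : ℝ) - q - (1 + ε) * s - 1) ^ (j + 2) := by
    rw [hmv]
    have e1 : (R.card : ℝ) ^ (j + 2) * (1 - (1 - x) ^ (j + 2)) =
        (R.card : ℝ) ^ (j + 2) - (R.card - R.card * x) ^ (j + 2) := by
      rw [mul_sub, mul_one, ← mul_pow, mul_sub, mul_one]
    rw [e1, hxR, hRc]
    have e2 : ((n : ℝ) - q - (1 + ε) * s - 1) ^ (j + 2) ≤ ((n : ℝ) - q - p / K) ^ (j + 2) :=
      pow_le_pow_left₀ hnn (by linarith) _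
    linarith
  -- lower bound for `NG y k`
  have hfac : (f * F'.card : ℝ) ≤ (NG y (j + 2) : ℝ) := by
    have e1 := t_FAC (Fin n) (j + 2) F' y (fun e he => hF e (hF'F he)) hF'cov
    rw [mul_comm, hf]
    exact_mod_cast e1
  have hlow := Pool.Agent.W637.SAM.choose_lower hkn hn1 hsn' F.card hFc
  have hlow' : (n : ℝ) ^ (j + 2) - ((n : ℝ) - s) ^ (j + 2) - (j + 2) ^ 2 * (n : ℝ) ^ (j + 1) ≤
      f * F.card := by
    refine le_trans (le_of_eq ?_) hlow
    have e1 : (n : ℝ) ^ (j + 2) * (1 - (((j + 2 : ℕ) : ℝ)) ^ 2 / n - (1 - (s : ℝ) / n) ^ (j + 2)) =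
        (n : ℝ) ^ (j + 2) - (((j + 2 : ℕ) : ℝ)) ^ 2 * ((n : ℝ) ^ (j + 2) / n) -
          ((n : ℝ) * (1 - (s : ℝ) / n)) ^ (j + 2) := by
      rw [mul_pow]; ring
    rw [e1]
    have e2 : (n : ℝ) ^ (j + 2) / n = (n : ℝ) ^ (j + 1) := by
      rw [pow_succ (n : ℝ) (j + 1)]
      field_simp
    have e3 : (n : ℝ) * (1 - (s : ℝ) / n) = n - s := by field_simp
    rw [e2, e3]
    push_cast
    ring
  have hNG : (n : ℝ) ^ (j + 2) - ((n : ℝ) - s) ^ (j + 2) - (j + 2) ^ 2 * (n : ℝ) ^ (j + 1) -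
      (f * c) * (n : ℝ) ^ (j + 2) ≤ (NG y (j + 2) : ℝ) := by
    have : f * ((F.card : ℝ) - F'.card) ≤ f * (c * (n : ℝ) ^ (j + 2)) :=
      mul_le_mul_of_nonneg_left hF'c hf0.le
    linarith
  have hcomb : (NG y (j + 2) : ℝ) ≤ ((n : ℝ) - q) ^ (j + 2) -
      ((n : ℝ) - q - (1 + ε) * s - 1) ^ (j + 2) + (j + 2) * q * (NG y (j + 1) : ℝ) +
      2 ^ (j + 2) * (q : ℝ) ^ 2 * (n : ℝ) ^ j := by
    rw [hKj] at hrem
    linarith
  have hGr := low_arith j n q s ε (f * c) θ (NG y (j + 2)) (NG y (j + 1)) hn0 hq0 hq1 hq2 hθ0 hs0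
    hsnR hε0 (by positivity) hnn hNG hcomb
  rw [← hZ] at hGr
  have hE : Z * θ + 2 / θ * (ε + f * c + (j + 3) / n) ≤ η / 8 + 3 * (η / 16) := by
    have e1 : 2 / θ * (ε + f * c + ((j : ℝ) + 3) / n) ≤ 2 / θ * (3 * (θ * η / 32)) :=
      mul_le_mul_of_nonneg_left (by linarith) (by positivity)
    have e2 : 2 / θ * (3 * (θ * η / 32)) = 3 * (η / 16) := by field_simp; ring
    linarith
  -- the function `z`
  set x' : ℝ := (1 + ε) * s / n with hx'
  have hx'n : x' * n = (1 + ε) * s := by rw [hx']; field_simp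
  set d : ℝ := (x' * n - ∑ v, y v) / n with hd
  have hd0 : 0 ≤ d := by
    rw [hd]
    refine div_nonneg ?_ hn0.le
    rw [hx'n]; linarith
  set z : Fin n → ℝ := fun v => y v + d with hz
  have hz0 : ∀ v, 0 ≤ z v := fun v => add_nonneg (hy v) hd0
  have hzsum : ∑ v, z v = x' * n := by
    simp only [hz]
    rw [sum_add_distrib, sum_const, card_univ, Fintype.card_fin, nsmul_eq_mul, hd]
    field_simp
    ring
  have hx'0 : 0 ≤ x' := by rw [hx']; positivity
  have hxx : (s : ℝ) / n ≤ x' := by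
    rw [hx']
    refine div_le_div_of_nonneg_right ?_ hn0.le
    have e1 := mul_nonneg hε0.le hs0
    linarith
  have hxd : x' - (s : ℝ) / n ≤ ε := by
    have e1 : x' - (s : ℝ) / n = ε * (s / n) := by rw [hx']; ring
    have e2 : (s : ℝ) / n ≤ 1 := by rw [div_le_one hn0]; exact hsnR
    rw [e1]
    exact mul_le_of_le_one_right hε0.le e2
  have hx'x1 : x' ≤ x1 := by
    rw [hx', div_le_iff₀ hn0]
    have e2 : ε * s ≤ ε * (x1' * n) := mul_le_mul_of_nonneg_left hsn hε0.le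
    have e3 : x1' * ε * n ≤ D / 4 * n := mul_le_mul_of_nonneg_right hε4 hn0.le
    have e6 : D * n = x1 * n - x1' * n := by rw [hD]; ring
    have e7 : 0 < D * n := by positivity
    linarith only [e2, e3, e6, e7, hsn]
  have hx'1 : x' ≤ 1 := hx'x1.trans hx11.le
  have hcount : (({f : Fin (j + 1) → Fin n | ∑ i, z (f i) < 1}.ncard : ℕ) : ℝ) ≤
      ((1 - x') ^ (j + 1) + η) * (n : ℝ) ^ (j + 1) := by
    have e1 : {f : Fin (j + 1) → Fin n | ∑ i, z (f i) < 1}.ncard ≤ NL y (j + 1) := by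
      unfold NL
      refine Set.ncard_le_ncard ?_ (Set.toFinite _)
      intro f' hf'
      have e2 : ∑ i, z (f' i) < 1 := hf'
      refine lt_of_le_of_lt (sum_le_sum fun i _ => ?_) e2
      simp only [hz]
      linarith
    have e2 := Pool.Agent.W421.K5.NG_add_NL y (j + 1)
    rw [Fintype.card_fin] at e2
    have e3 : (NG y (j + 1) : ℝ) + (NL y (j + 1) : ℝ) = (n : ℝ) ^ (j + 1) := by exact_mod_cast e2
    have e4 : (({f : Fin (j + 1) → Fin n | ∑ i, z (f i) < 1}.ncard : ℕ) : ℝ) ≤ NL y (j + 1) := by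
      exact_mod_cast e1
    have e5 : ((n : ℝ) - s) ^ (j + 1) ≤ ((1 - x') ^ (j + 1) + η / 8) * (n : ℝ) ^ (j + 1) := by
      have a1 : ((n : ℝ) - s) = (1 - s / n) * n := by field_simp
      rw [a1, mul_pow]
      refine mul_le_mul_of_nonneg_right ?_ (by positivity)
      have a2 := pow_sub_le (1 - s / n) (1 - x') j (by linarith) (by linarith)
      have a3 : (1 - (s : ℝ) / n) ^ j ≤ 1 := by
        apply pow_le_one₀
        · have : (s : ℝ) / n ≤ 1 := by rw [div_le_one hn0]; exact hsnR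
          linarith
        · have : 0 ≤ (s : ℝ) / n := by positivity
          linarith
      have a4 : ((j : ℝ) + 1) * (1 - (s : ℝ) / n) ^ j * (1 - s / n - (1 - x')) ≤ K * 1 * ε := by
        refine mul_le_mul (mul_le_mul (by linarith) a3 ?_ hK0.le) (by linarith) (by linarith)
          (by positivity)
        apply pow_nonneg
        have : (s : ℝ) / n ≤ 1 := by rw [div_le_one hn0]; exact hsnR
        linarith
      linarith
    have e6 : (Z * θ + 2 / θ * (ε + f * c + (j + 3) / n)) * (n : ℝ) ^ (j + 1) ≤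
        (η / 8 + 3 * (η / 16)) * (n : ℝ) ^ (j + 1) := mul_le_mul_of_nonneg_right hE (by positivity)
    have e7 : 0 ≤ η * (n : ℝ) ^ (j + 1) := by positivity
    have e8 : ((1 - x') ^ (j + 1) + η / 8) * (n : ℝ) ^ (j + 1) = (1 - x') ^ (j + 1) * (n : ℝ) ^ (j + 1) +
        η * (n : ℝ) ^ (j + 1) / 8 := by ring
    have e9 : (η / 8 + 3 * (η / 16)) * (n : ℝ) ^ (j + 1) = 5 * (η * (n : ℝ) ^ (j + 1)) / 16 := by ring
    have e10 : ((1 - x') ^ (j + 1) + η) * (n : ℝ) ^ (j + 1) = (1 - x') ^ (j + 1) * (n : ℝ) ^ (j + 1) +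
        η * (n : ℝ) ^ (j + 1) := by ring
    rw [e10]
    rw [e8] at e5
    rw [e9] at e6
    linarith only [hGr, e3, e4, e5, e6, e7]
  have : Nonempty (Fin n) := ⟨⟨0, hn1⟩⟩
  have hx0' : x0 ≤ x' := by
    refine le_trans ?_ hxx
    rw [le_div_iff₀ hn0]; exact hs
  have hx20 : (20 * ((j + 1 : ℕ) : ℝ) + 19) * x' ≤ 20 := by
    push_cast
    have e1 : K * x' ≤ K * x1 := mul_le_mul_of_nonneg_left hx'x1 hK0.le
    rw [hKj] at e1 hkx
    linarith
  have hRR := hS x' hx0' hx20 (Fin n) z hz0 (by rw [Fintype.card_fin]; exact hzsum)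
    (by rw [Fintype.card_fin]; exact hcount)
  rw [Fintype.card_fin] at hRR
  refine ⟨univ.filter (fun v => 1 - g ≤ z v), ?_, ?_⟩
  · -- size of S
    have e1 : (1 - g) * ((univ.filter (fun v => 1 - g ≤ z v)).card : ℝ) ≤ x' * n := by
      rw [← hzsum]
      calc (1 - g) * ((univ.filter (fun v => 1 - g ≤ z v)).card : ℝ)
          = ∑ v ∈ univ.filter (fun v => 1 - g ≤ z v), (1 - g) := by
            rw [sum_const, nsmul_eq_mul]; ring
        _ ≤ ∑ v ∈ univ.filter (fun v => 1 - g ≤ z v), z v :=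
            sum_le_sum fun v hv => (mem_filter.1 hv).2
        _ ≤ ∑ v, z v := sum_le_sum_of_subset_of_nonneg (subset_univ _) fun v _ _ => hz0 v
    have e2 : (1 - g) * (s + γ * n) - x' * n ≥ 0 := by
      rw [hx'n]
      have e : (1 - g) * (s + γ * n) - (1 + ε) * s = (1 - g) * γ * n - (g + ε) * s := by ring
      rw [e]
      have e3 : (g + ε) * s ≤ (γ / 8 + γ / 4) * n :=
        mul_le_mul (by linarith) hsnR hs0 (by positivity)
      have e4 : 3 / 4 * γ * n ≤ (1 - g) * γ * n := by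
        refine mul_le_mul_of_nonneg_right (mul_le_mul_of_nonneg_right (by linarith) hγ.le) hn0.le
      have e7 := mul_pos hγ hn0
      linarith
    have e3 : (1 - g) * ((univ.filter (fun v => 1 - g ≤ z v)).card : ℝ) ≤
        (1 - g) * (s + γ * n) := by linarith
    exact le_of_mul_le_mul_left e3 (by linarith)
  · -- edges disjoint from S
    set Rm : Finset (Fin n) := univ.filter (fun v => g < z v ∧ z v < 1 - g) with hRdef
    have hRc' : (Rm.card : ℝ) ≤ g * n := by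
      have : {v : Fin n | g < z v ∧ z v < 1 - g}.ncard = Rm.card := by
        rw [hRdef, ← Set.ncard_coe_finset]
        congr 1
        ext v; simp
      rw [← this]; exact hRR
    have hsub : F.filter (fun e => Disjoint e (univ.filter (fun v => 1 - g ≤ z v))) ⊆
        (F \ F') ∪ F.filter (fun e => ¬ Disjoint e Rm) := by
      intro e he
      rw [mem_filter] at he
      obtain ⟨heF, hed⟩ := he
      rw [mem_union]
      by_cases hh : e ∈ F'
      · right
        refine mem_filter.2 ⟨heF, fun hdis => ?_⟩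
        have a2 := hF'cov e hh
        have a3 : ∑ v ∈ e, y v ≤ ∑ _v ∈ e, g := by
          refine sum_le_sum fun v hv => ?_
          by_contra hlt
          rw [not_le] at hlt
          have hzv : y v ≤ z v := by simp only [hz]; linarith
          have a4 : z v < 1 - g := by
            by_contra h5
            rw [not_lt] at h5
            exact (Finset.disjoint_left.1 hed hv) (mem_filter.2 ⟨mem_univ _, h5⟩)
          exact (Finset.disjoint_left.1 hdis hv) (mem_filter.2 ⟨mem_univ _, by linarith, a4⟩)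
        rw [sum_const, hF e heF, nsmul_eq_mul] at a3
        linarith
      · left
        exact mem_sdiff.2 ⟨heF, hh⟩
    have e1 := (card_le_card hsub).trans (card_union_le _ _)
    have e2 := Pool.Agent.W637.SAM.meet_card F hF Rm
    have hdc : ((F \ F').card : ℝ) = F.card - F'.card := by
      rw [card_sdiff_of_subset hF'F, Nat.cast_sub (card_le_card hF'F)]
    have e3 : ((F.filter (fun e => Disjoint e (univ.filter (fun v => 1 - g ≤ z v)))).card : ℝ) ≤
        ((F \ F').card : ℝ) + (Rm.card : ℝ) * (n : ℝ) ^ (j + 1) := by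
      have : (F.filter (fun e => Disjoint e (univ.filter (fun v => 1 - g ≤ z v)))).card ≤
          (F \ F').card + Rm.card * n ^ (j + 1) :=
        e1.trans (Nat.add_le_add_left e2 _)
      exact_mod_cast this
    have e4 : (Rm.card : ℝ) * (n : ℝ) ^ (j + 1) ≤ g * (n : ℝ) ^ (j + 2) := by
      calc (Rm.card : ℝ) * (n : ℝ) ^ (j + 1) ≤ g * n * (n : ℝ) ^ (j + 1) :=
            mul_le_mul_of_nonneg_right hRc' (by positivity)
        _ = g * (n : ℝ) ^ (j + 2) := by ring
    have e5 : (c + g) * (n : ℝ) ^ (j + 2) ≤ γ * (n : ℝ) ^ (j + 2) :=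
      mul_le_mul_of_nonneg_right (by linarith) (by positivity)
    linarith

end Pool.Agent.U196.EMC
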