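import Mathlib
import Pool.Agent.U196.EMC.LowS

/-!
# Exact Erdős matching conjecture: sparse side
-/

set_option autoImplicit false

namespace Pool.Agent.U196.EMC

open Finset Pool.Agent.W890.SF Pool.Agent.W593.IR Pool.Agent.W735.SAM.DI3

theorem di3' : ∀ k : ℕ, 2 ≤ k → ∀ x0 γ : ℝ, 0 < x0 → 0 < γ → ∃ γ' : ℝ, 0 < γ' ∧ ∃ n0 : ℕ,
  ∀ n : ℕ, n0 ≤ n → ∀ F : Finset (Finset (Fin n)), Unif k F → ∀ s : ℕ, x0 * n ≤ s →
    2 * s ≤ n → n.choose k - (n - s).choose k ≤ F.card →
    ∀ S : Finset (Fin n), (S.card : ℝ) ≤ s + γ' * n →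
      ((F.filter (fun e => Disjoint e S)).card : ℝ) ≤ γ' * (n : ℝ) ^ k →
    (s : ℝ) - γ * n ≤ ((univ.filter (fun v : Fin n =>
      (1 - γ) * (((n - 1).choose (k - 1) : ℕ) : ℝ) ≤ (dg F v : ℝ))).card : ℝ) := by
  intro k hk x0 γ hx0 hγ
  set j := k - 1 with hj
  set c : ℝ := (1 / 4) ^ j / (j.factorial : ℝ) with hc
  have hc0 : 0 < c := by rw [hc]; positivity
  have hk0 : (0 : ℝ) < k := by exact_mod_cast (by omega : 0 < k)
  refine ⟨γ ^ 2 * c / (γ + 2 * k), by positivity, 4 * k + 4, ?_⟩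
  intro n hn F hF s hs1 hsn hFc S hS1 hS2
  set g : ℝ := γ ^ 2 * c / (γ + 2 * k) with hg
  have hg0 : 0 < g := by rw [hg]; positivity
  have hkj : k = j + 1 := by omega
  have hcount := counting k (by omega) F hF S
  have hSn : S.card ≤ n := by simpa using card_le_univ S
  have hn0 : (0 : ℝ) < n := by exact_mod_cast (by omega : 0 < n)
  have hnj : (0 : ℝ) < (n : ℝ) ^ j := by positivity
  -- lower bounds
  have l1 : c * (n : ℝ) ^ j ≤ (((n - s).choose j : ℕ) : ℝ) := by
    have := chlow n j (n - s) (by omega)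
    refine le_trans (le_of_eq ?_) this
    rw [hc, div_pow, div_pow, one_pow]; field_simp
  have l2 : c * (n : ℝ) ^ j ≤ (((n - 1).choose (k - 1) : ℕ) : ℝ) := by
    have := chlow n j (n - 1) (by omega)
    refine le_trans (le_of_eq ?_) this
    rw [hc, div_pow, div_pow, one_pow]; field_simp
  have hnk : (n : ℝ) ^ k = n * (n : ℝ) ^ j := by rw [hkj, pow_succ]; ring
  -- the number of edges
  have hFc' : ((n.choose k : ℕ) : ℝ) - (((n - s).choose k : ℕ) : ℝ) ≤ (F.card : ℝ) := by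
    have : n.choose k ≤ F.card + (n - s).choose k := by omega
    have h' : ((n.choose k : ℕ) : ℝ) ≤ (F.card : ℝ) + (((n - s).choose k : ℕ) : ℝ) := by exact_mod_cast this
    linarith
  set D : ℝ := (((n - s).choose k : ℕ) : ℝ) - (((n - S.card).choose k : ℕ) : ℝ) with hD
  have hmain : ∑ v ∈ S, ((((n - 1).choose (k - 1) : ℕ) : ℝ) - (dg F v : ℝ)) ≤
      k * (D + g * (n : ℝ) ^ k) := by
    refine hcount.trans (mul_le_mul_of_nonneg_left ?_ hk0.le)
    linarith
  have hMv : ∀ v : Fin n, (0 : ℝ) ≤ (((n - 1).choose (k - 1) : ℕ) : ℝ) - (dg F v : ℝ) := by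
    intro v
    have h := card_mem (n := n) k (by omega) v
    have h2 : dg F v ≤ (n - 1).choose (k - 1) := by
      rw [← h, dg]
      apply card_le_card
      intro e he
      rw [mem_filter] at he ⊢
      refine ⟨?_, he.2⟩
      rw [mem_powersetCard]
      exact ⟨subset_univ _, hF e he.1⟩
    have : (dg F v : ℝ) ≤ (((n - 1).choose (k - 1) : ℕ) : ℝ) := by exact_mod_cast h2
    linarith
  have hsum0 : (0 : ℝ) ≤ ∑ v ∈ S, ((((n - 1).choose (k - 1) : ℕ) : ℝ) - (dg F v : ℝ)) :=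
    sum_nonneg fun v _ => hMv v
  have hDlow : 0 ≤ D + g * (n : ℝ) ^ k := by
    by_contra hcon
    push Not at hcon
    have := mul_neg_of_pos_of_neg hk0 hcon
    linarith
  -- D ≤ g n^k and S.card ≥ s - g n / c
  have hDS : D ≤ g * (n : ℝ) ^ k ∧ (s : ℝ) - g * n / c ≤ (S.card : ℝ) := by
    rcases le_total S.card s with h | h
    · have ht := (tele j (n - s) (n - S.card) (by omega)).1
      rw [← hkj] at ht
      have hd : D ≤ 0 := by
        have : (n - s).choose k ≤ (n - S.card).choose k := Nat.choose_le_choose k (by omega)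
        have h' : (((n - s).choose k : ℕ) : ℝ) ≤ (((n - S.card).choose k : ℕ) : ℝ) := by exact_mod_cast this
        rw [hD]; linarith
      refine ⟨hd.trans (by positivity), ?_⟩
      have hdiff : (((n - S.card : ℕ) : ℝ) - ((n - s : ℕ) : ℝ)) = (s : ℝ) - S.card := by
        rw [Nat.cast_sub hSn, Nat.cast_sub (by omega)]; ring
      rw [hdiff] at ht
      have h0 : (0 : ℝ) ≤ (s : ℝ) - S.card := by
        have : (S.card : ℝ) ≤ s := by exact_mod_cast h
        linarith
      have h1 : ((s : ℝ) - S.card) * (c * (n : ℝ) ^ j) ≤ g * (n * (n : ℝ) ^ j) := by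
        calc ((s : ℝ) - S.card) * (c * (n : ℝ) ^ j) ≤ ((s : ℝ) - S.card) * (((n - s).choose j : ℕ) : ℝ) :=
              mul_le_mul_of_nonneg_left l1 h0
          _ ≤ -D := by rw [hD]; linarith
          _ ≤ g * (n * (n : ℝ) ^ j) := by rw [← hnk]; linarith
      have h2 : ((s : ℝ) - S.card) * c ≤ g * n := by
        have : (((s : ℝ) - S.card) * c) * (n : ℝ) ^ j ≤ (g * n) * (n : ℝ) ^ j := by nlinarith
        exact le_of_mul_le_mul_right this hnj
      have h3 : (s : ℝ) - S.card ≤ g * n / c := by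
        rw [le_div_iff₀ hc0]; exact h2
      linarith
    · have ht := (tele j (n - S.card) (n - s) (by omega)).2
      rw [← hkj] at ht
      have hdiff : (((n - s : ℕ) : ℝ) - ((n - S.card : ℕ) : ℝ)) = (S.card : ℝ) - s := by
        rw [Nat.cast_sub hSn, Nat.cast_sub (by omega)]; ring
      rw [hdiff] at ht
      have hub : (((n - s).choose j : ℕ) : ℝ) ≤ (n : ℝ) ^ j := by
        have h1 : (n - s).choose j ≤ (n - s) ^ j := Nat.choose_le_pow _ _
        have h2 : (n - s) ^ j ≤ n ^ j := Nat.pow_le_pow_left (by omega) j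
        exact_mod_cast h1.trans h2
      have h0 : (0 : ℝ) ≤ (S.card : ℝ) - s := by
        have : (s : ℝ) ≤ S.card := by exact_mod_cast h
        linarith
      constructor
      · calc D ≤ ((S.card : ℝ) - s) * (((n - s).choose j : ℕ) : ℝ) := by rw [hD]; linarith
          _ ≤ (g * n) * (n : ℝ) ^ j := by
            apply mul_le_mul (by linarith) hub (by positivity) (by positivity)
          _ = g * (n : ℝ) ^ k := by rw [hnk]; ring
      · have : (0 : ℝ) ≤ g * n / c := by positivity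
        linarith
  obtain ⟨hD1, hS3⟩ := hDS
  have htot : ∑ v ∈ S, ((((n - 1).choose (k - 1) : ℕ) : ℝ) - (dg F v : ℝ)) ≤ 2 * k * g * (n : ℝ) ^ k := by
    refine hmain.trans ?_
    have : D + g * (n : ℝ) ^ k ≤ 2 * g * (n : ℝ) ^ k := by linarith
    have := mul_le_mul_of_nonneg_left this hk0.le
    linarith
  -- bad vertices
  set B := S.filter (fun v => ¬ (1 - γ) * (((n - 1).choose (k - 1) : ℕ) : ℝ) ≤ (dg F v : ℝ)) with hB
  have hBc : (B.card : ℝ) * (γ * (((n - 1).choose (k - 1) : ℕ) : ℝ)) ≤ 2 * k * g * (n : ℝ) ^ k := by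
    refine le_trans ?_ htot
    calc (B.card : ℝ) * (γ * (((n - 1).choose (k - 1) : ℕ) : ℝ))
        = ∑ v ∈ B, (γ * (((n - 1).choose (k - 1) : ℕ) : ℝ)) := by rw [sum_const, nsmul_eq_mul]
      _ ≤ ∑ v ∈ B, ((((n - 1).choose (k - 1) : ℕ) : ℝ) - (dg F v : ℝ)) := by
        apply sum_le_sum
        intro v hv
        have := (mem_filter.1 hv).2
        push Not at this
        linarith
      _ ≤ _ := sum_le_sum_of_subset_of_nonneg (filter_subset _ _) fun v _ _ => hMv v
  have hBc2 : (B.card : ℝ) ≤ 2 * k * g * n / (γ * c) := by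
    rw [le_div_iff₀ (by positivity)]
    have h1 : (B.card : ℝ) * (γ * (c * (n : ℝ) ^ j)) ≤ 2 * k * g * (n * (n : ℝ) ^ j) := by
      rw [← hnk]
      refine le_trans ?_ hBc
      apply mul_le_mul_of_nonneg_left _ (Nat.cast_nonneg _)
      exact mul_le_mul_of_nonneg_left l2 hγ.le
    have : ((B.card : ℝ) * (γ * c)) * (n : ℝ) ^ j ≤ (2 * k * g * n) * (n : ℝ) ^ j := by nlinarith
    exact le_of_mul_le_mul_right this hnj
  have hfin : (S.card : ℝ) ≤ ((univ.filter (fun v : Fin n =>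
      (1 - γ) * (((n - 1).choose (k - 1) : ℕ) : ℝ) ≤ (dg F v : ℝ))).card : ℝ) + (B.card : ℝ) := by
    have h1 := Finset.card_filter_add_card_filter_not (s := S)
      (fun v : Fin n => (1 - γ) * (((n - 1).choose (k - 1) : ℕ) : ℝ) ≤ (dg F v : ℝ))
    have h2 : (S.filter (fun v : Fin n => (1 - γ) * (((n - 1).choose (k - 1) : ℕ) : ℝ) ≤ (dg F v : ℝ))).card ≤
        (univ.filter (fun v : Fin n => (1 - γ) * (((n - 1).choose (k - 1) : ℕ) : ℝ) ≤ (dg F v : ℝ))).card :=
      card_le_card (filter_subset_filter _ (subset_univ _))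
    have : S.card ≤ (univ.filter (fun v : Fin n =>
      (1 - γ) * (((n - 1).choose (k - 1) : ℕ) : ℝ) ≤ (dg F v : ℝ))).card + B.card := by
      rw [← h1]; exact Nat.add_le_add_right h2 _
    exact_mod_cast this
  have hg2 : g * (γ + 2 * k) = γ ^ 2 * c := by
    have hne : γ + 2 * (k : ℝ) ≠ 0 := by positivity
    rw [hg]; exact div_mul_cancel₀ _ hne
  clear_value g c
  have hgs : g * n / c + 2 * k * g * n / (γ * c) = γ * n := by
    have e1 : g * n / c + 2 * k * g * n / (γ * c) = (g * (γ + 2 * k)) * n / (γ * c) := by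
      field_simp
    rw [e1, hg2]; field_simp
  linarith


theorem emcLow (k : ℕ) (hk : 3 ≤ k) (x1' x1 : ℝ) (h12 : x1' < x1)
    (hx1 : 0 < x1') (hkx : k * x1 < 1)
    (hreg : ∀ x : ℝ, 0 ≤ x → x ≤ x1 → (k * x) ^ k ≤ 1 - (1 - x) ^ k) :
    ∃ n0 : ℕ, ∀ n : ℕ, n0 ≤ n → ∀ s : ℕ, (s : ℝ) ≤ x1' * n → ∀ F : Finset (Finset (Fin n)),
      Unif k F → n.choose k - (n - s).choose k < F.card → HasM F (s + 1) := by
  classical
  have hk0 : (0 : ℝ) < k := by exact_mod_cast (by omega : 0 < k)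
  have hk2 : (2 : ℝ) ≤ k := by exact_mod_cast (by omega : 2 ≤ k)
  have hk3 : (0 : ℝ) < (k : ℝ) ^ 3 := by positivity
  obtain ⟨ξ, hξ⟩ : ∃ ξ : ℝ, ξ = (1 - k * x1) / 2 := ⟨_, rfl⟩
  have hξ0 : 0 < ξ := by rw [hξ]; linarith
  have hx10 : 0 < x1 := hx1.trans h12
  obtain ⟨δ, hδ, n2, H2⟩ := t_EXT k (by omega) ξ hξ0
  obtain ⟨γ, hγ⟩ : ∃ γ : ℝ, γ = min δ (1 / (8 * (k : ℝ) ^ 3)) := ⟨_, rfl⟩
  have hγ0 : 0 < γ := by rw [hγ]; exact lt_min hδ (by positivity)
  have hγ1 : γ ≤ δ := by rw [hγ]; exact min_le_left _ _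
  have hγ2 : γ ≤ 1 / (8 * (k : ℝ) ^ 3) := by rw [hγ]; exact min_le_right _ _
  obtain ⟨γ', hγ', n3, H3⟩ := di3' k (by omega) (1 / (4 * (k : ℝ) ^ 3)) γ (by positivity) hγ0
  obtain ⟨n4, H4⟩ := lowStab k hk (1 / (4 * (k : ℝ) ^ 3)) x1' x1 (by positivity) h12 hx1 hkx hreg
    γ' hγ'
  obtain ⟨n5, hn5⟩ := exists_nat_ge (k / ξ)
  refine ⟨max (8 * k ^ 3) (max n5 (max n2 (max n3 n4))), ?_⟩
  intro n hn s hsn F hF hC
  have m1 : 8 * k ^ 3 ≤ n := (le_max_left _ _).trans hn
  have m2 : n5 ≤ n := ((le_max_left _ _).trans (le_max_right _ _)).trans hn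
  have m3 : n2 ≤ n :=
    (((le_max_left _ _).trans (le_max_right _ _)).trans (le_max_right _ _)).trans hn
  have m4 : n3 ≤ n := ((((le_max_left _ _).trans (le_max_right _ _)).trans
    (le_max_right _ _)).trans (le_max_right _ _)).trans hn
  have m5 : n4 ≤ n := ((((le_max_right _ _).trans (le_max_right _ _)).trans
    (le_max_right _ _)).trans (le_max_right _ _)).trans hn
  have m1' : 8 * (k : ℝ) ^ 3 ≤ n := by exact_mod_cast m1
  have m2' : (k : ℝ) ≤ ξ * n := by
    have e1 : (k : ℝ) / ξ ≤ n := hn5.trans (by exact_mod_cast m2)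
    rw [div_le_iff₀ hξ0] at e1
    linarith
  have hn0 : (0 : ℝ) ≤ n := Nat.cast_nonneg n
  have hs0 : (0 : ℝ) ≤ s := Nat.cast_nonneg s
  have hks1 : (k : ℝ) * s ≤ (1 - 2 * ξ) * n := by
    have e1 : (k : ℝ) * s ≤ k * (x1' * n) := mul_le_mul_of_nonneg_left hsn hk0.le
    have e2 : x1' * n ≤ x1 * n := mul_le_mul_of_nonneg_right h12.le hn0
    have e3 : (k : ℝ) * (x1' * n) ≤ k * (x1 * n) := mul_le_mul_of_nonneg_left e2 hk0.le
    have e4 : (1 - 2 * ξ) * n = k * (x1 * n) := by rw [hξ]; ring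
    linarith
  have hks : (k : ℝ) * (s + 1) ≤ (1 - ξ) * n := by
    have : (1 - 2 * ξ) * (n : ℝ) = (1 - ξ) * n - ξ * n := by ring
    linarith
  have hs2 : 2 * s ≤ n := by
    have e1 : 2 * (s : ℝ) ≤ k * s := mul_le_mul_of_nonneg_right hk2 hs0
    have e2 : 0 ≤ ξ * n := by positivity
    have e3 : (1 - 2 * ξ) * (n : ℝ) = n - 2 * (ξ * n) := by ring
    have : 2 * (s : ℝ) ≤ n := by linarith
    exact_mod_cast this
  by_contra hM
  by_cases hs : (s : ℝ) < 1 / (4 * (k : ℝ) ^ 3) * n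
  · -- small s
    apply hM
    refine t_BDE k (by omega) (Fin n) univ F s (fun e he => ⟨subset_univ _, hF e he⟩) ?_ ?_
    · rw [card_univ, Fintype.card_fin]
      have e1 : 2 * (k : ℝ) ^ 3 * (s + 1) ≤ n := by
        have e2 : (s : ℝ) * (4 * (k : ℝ) ^ 3) < n := by
          calc (s : ℝ) * (4 * (k : ℝ) ^ 3) < 1 / (4 * (k : ℝ) ^ 3) * n * (4 * (k : ℝ) ^ 3) := by
                gcongr
            _ = (n : ℝ) := by field_simp
        nlinarith
      exact_mod_cast e1
    · rw [card_univ, Fintype.card_fin]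
      exact hC
  push Not at hs
  obtain ⟨S, hS1, hS2⟩ := H4 n m5 F hF s hs hsn hC.le hM
  have hA := H3 n m4 F hF s hs hs2 hC.le S hS1 hS2
  obtain ⟨A, hAdef⟩ : ∃ A : Finset (Fin n), A = univ.filter (fun v : Fin n =>
      (1 - γ) * (((n - 1).choose (k - 1) : ℕ) : ℝ) ≤ (dg F v : ℝ)) := ⟨_, rfl⟩
  rw [← hAdef] at hA
  have hdeg : ∀ v ∈ A, (1 - δ) * (((n - 1).choose (k - 1) : ℕ) : ℝ) ≤ (dg F v : ℝ) := by
    intro v hv
    rw [hAdef, mem_filter] at hv
    refine le_trans (mul_le_mul_of_nonneg_right ?_ (Nat.cast_nonneg _)) hv.2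
    linarith
  by_cases hAs : s + 1 ≤ A.card
  · obtain ⟨A', hA', hAc⟩ := exists_subset_card_eq hAs
    have h4 := H2 (Fin n) (by rw [Fintype.card_fin]; exact m3) F hF A'
      (by rw [Fintype.card_fin]; exact fun v hv => hdeg v (hA' hv)) ∅ (empty_subset _)
      (fun e he => absurd he (notMem_empty _)) (fun e he => absurd he (notMem_empty _))
      (by
        rw [Fintype.card_fin, hAc, card_empty]
        push_cast
        rw [add_zero]
        exact hks)
    rw [hAc, card_empty, add_zero] at h4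
    exact hM h4
  push Not at hAs
  obtain ⟨b, hb⟩ : ∃ b : ℕ, A.card + b = s := ⟨s - A.card, by omega⟩
  have hbr : (A.card : ℝ) + b = s := by exact_mod_cast hb
  have hbn : (b : ℝ) ≤ 1 / (8 * (k : ℝ) ^ 3) * n := by
    have : γ * n ≤ 1 / (8 * (k : ℝ) ^ 3) * n := mul_le_mul_of_nonneg_right hγ2 (Nat.cast_nonneg n)
    linarith
  have hUc : (univ \ A).card = n - A.card := by
    rw [card_sdiff_of_subset (subset_univ _), card_univ, Fintype.card_fin]
  have hbig : 2 * k ^ 3 * (b + 1) ≤ (univ \ A).card := by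
    have e0 : A.card ≤ s := by omega
    have e1 : 2 * (k : ℝ) ^ 3 * (b + 1) ≤ n / 2 := by
      have e2 : (b : ℝ) * (8 * (k : ℝ) ^ 3) ≤ n := by
        calc (b : ℝ) * (8 * (k : ℝ) ^ 3) ≤ 1 / (8 * (k : ℝ) ^ 3) * n * (8 * (k : ℝ) ^ 3) := by
              gcongr
          _ = (n : ℝ) := by field_simp
      nlinarith
    have e3 : 2 * (2 * k ^ 3 * (b + 1)) ≤ n := by
      have : 2 * (2 * (k : ℝ) ^ 3 * (b + 1)) ≤ n := by linarith
      exact_mod_cast this
    rw [hUc]
    omega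
  by_cases hF' : (univ \ A).card.choose k - ((univ \ A).card - b).choose k <
      (F.filter (fun e => Disjoint e A)).card
  · obtain ⟨M0, hM0, hM1, hM2⟩ := t_BDE k (by omega) (Fin n) (univ \ A)
      (F.filter (fun e => Disjoint e A)) b (fun e he => by
        rw [mem_filter] at he
        refine ⟨?_, hF e he.1⟩
        intro v hv
        rw [mem_sdiff]
        exact ⟨mem_univ _, fun hvA => (disjoint_left.1 he.2 hv hvA)⟩) hbig hF'
    have h4 := H2 (Fin n) (by rw [Fintype.card_fin]; exact m3) F hF A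
      (by rw [Fintype.card_fin]; exact hdeg) M0 (hM0.trans (filter_subset _ _)) hM1
      (fun e he => (mem_filter.1 (hM0 he)).2)
      (by
        rw [Fintype.card_fin, hM2]
        push_cast
        rw [← add_assoc, hbr]
        exact hks)
    rw [hM2, ← add_assoc, hb] at h4
    exact hM h4
  push Not at hF'
  have hsub : (univ \ A).card - b = n - s := by rw [hUc]; omega
  rw [hsub] at hF'
  -- counting the edges which meet A
  have hcount : (F.filter (fun e => ¬ Disjoint e A)).card + (univ \ A).card.choose k ≤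
      n.choose k := by
    rw [← card_powersetCard k (univ \ A)]
    have hn' : n.choose k = (powersetCard k (univ : Finset (Fin n))).card := by
      rw [card_powersetCard, card_univ, Fintype.card_fin]
    rw [hn', ← card_union_of_disjoint]
    · apply card_le_card
      intro e he
      rw [mem_union, mem_filter, mem_powersetCard] at he
      rw [mem_powersetCard]
      rcases he with he | he
      · exact ⟨subset_univ _, hF e he.1⟩
      · exact ⟨subset_univ _, he.2⟩
    · rw [disjoint_left]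
      intro e he he'
      rw [mem_filter] at he
      rw [mem_powersetCard] at he'
      apply he.2
      rw [disjoint_left]
      intro v hv hvA
      exact (mem_sdiff.1 (he'.1 hv)).2 hvA
  have hsplit := card_filter_add_card_filter_not (s := F) (fun e => Disjoint e A)
  have hle : (n - s).choose k ≤ (univ \ A).card.choose k := by
    apply Nat.choose_le_choose
    rw [hUc]
    omega
  omega


end Pool.Agent.U196.EMC
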