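import Mathlib
import Pool.Agent.W170.K5.PUR

/-!
# Exact Erdős matching conjecture: the threshold
-/

set_option autoImplicit false

namespace Pool.Agent.U196.EMC

/-- `(1-x)^k ≤ 1 - k x + k(k-1)/2 x^2` -/
theorem pow_bonf (k : ℕ) (x : ℝ) (h0 : 0 ≤ x) (h1 : x ≤ 1) :
    (1 - x) ^ k ≤ 1 - k * x + k * (k - 1) / 2 * x ^ 2 := by
  induction k with
  | zero => simp
  | succ k ih =>
    have h := mul_le_mul_of_nonneg_left ih (by linarith : 0 ≤ 1 - x)
    rcases Nat.eq_zero_or_pos k with hk | hk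
    · subst hk; simp
    · have hk1 : (1 : ℝ) ≤ k := by exact_mod_cast hk
      have e : (1 - x) ^ (k + 1) = (1 - x) * (1 - x) ^ k := by ring
      have h3 : 0 ≤ (k : ℝ) * (k - 1) / 2 * x ^ 3 := by
        have : 0 ≤ (k : ℝ) - 1 := by linarith
        positivity
      rw [e]
      push_cast
      nlinarith [h, h3]

/-- scaling -/
theorem g_scale (k : ℕ) (hk : 2 ≤ k) (l ρ : ℝ) (hl0 : 0 ≤ l) (hl1 : l ≤ 1) (hρ0 : 0 ≤ ρ) (hρ1 : ρ ≤ 1) :
    (l * ρ) ^ k + (1 - l * ρ / k) ^ k ≤ (1 - l) + l * (ρ ^ k + (1 - ρ / k) ^ k) := by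
  have hk0 : (0 : ℝ) < k := by positivity
  have hk1 : (1 : ℝ) ≤ k := by exact_mod_cast (by omega : 1 ≤ k)
  have hm1 : (1 : ℝ) ∈ Set.Ici (0 : ℝ) := by simp
  have hm2 : 1 - ρ / k ∈ Set.Ici (0 : ℝ) := by
    rw [Set.mem_Ici, sub_nonneg, div_le_one hk0]
    linarith
  have hc := (convexOn_pow (𝕜 := ℝ) k).2 hm1 hm2 (by linarith : 0 ≤ 1 - l) hl0 (by ring)
  simp only [smul_eq_mul, mul_one, one_pow] at hc
  have e1 : 1 - l + l * (1 - ρ / k) = 1 - l * ρ / k := by ring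
  rw [e1] at hc
  have h2 : (l * ρ) ^ k ≤ l * ρ ^ k := by
    rw [mul_pow]
    refine mul_le_mul_of_nonneg_right ?_ (by positivity)
    calc l ^ k ≤ l ^ 1 := pow_le_pow_of_le_one hl0 hl1 (by omega)
      _ = l := pow_one l
  have e2 : (1 - l) + l * (ρ ^ k + (1 - ρ / k) ^ k) =
      l * ρ ^ k + ((1 - l) + l * (1 - ρ / k) ^ k) := by ring
  rw [e2]
  linarith

theorem g_scale_lt (k : ℕ) (hk : 2 ≤ k) (l ρ : ℝ) (hl0 : 0 < l) (hl1 : l < 1) (hρ0 : 0 < ρ)
    (hρ1 : ρ ≤ 1) :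
    (l * ρ) ^ k + (1 - l * ρ / k) ^ k < (1 - l) + l * (ρ ^ k + (1 - ρ / k) ^ k) := by
  have hk0 : (0 : ℝ) < k := by positivity
  have hk1 : (1 : ℝ) ≤ k := by exact_mod_cast (by omega : 1 ≤ k)
  have hm1 : (1 : ℝ) ∈ Set.Ici (0 : ℝ) := by simp
  have hm2 : 1 - ρ / k ∈ Set.Ici (0 : ℝ) := by
    rw [Set.mem_Ici, sub_nonneg, div_le_one hk0]
    linarith
  have hc := (convexOn_pow (𝕜 := ℝ) k).2 hm1 hm2 (by linarith : 0 ≤ 1 - l) hl0.le (by ring)
  simp only [smul_eq_mul, mul_one, one_pow] at hc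
  have e1 : 1 - l + l * (1 - ρ / k) = 1 - l * ρ / k := by ring
  rw [e1] at hc
  have h2 : (l * ρ) ^ k < l * ρ ^ k := by
    rw [mul_pow]
    refine mul_lt_mul_of_pos_right ?_ (by positivity)
    calc l ^ k < l ^ 1 := pow_lt_pow_right_of_lt_one₀ hl0 hl1 (by omega)
      _ = l := pow_one l
  have e2 : (1 - l) + l * (ρ ^ k + (1 - ρ / k) ^ k) =
      l * ρ ^ k + ((1 - l) + l * (1 - ρ / k) ^ k) := by ring
  rw [e2]
  linarith

/-- the threshold `x_k` -/
theorem threshold (k : ℕ) (hk : 2 ≤ k) : ∃ x : ℝ, 0 < x ∧ k * x < 1 ∧ (k * x) ^ k = 1 - (1 - x) ^ k ∧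
    (∀ y : ℝ, 0 ≤ y → y ≤ x → (k * y) ^ k ≤ 1 - (1 - y) ^ k) ∧
    (∀ y : ℝ, x ≤ y → k * y ≤ 1 → 1 - (1 - y) ^ k ≤ (k * y) ^ k) ∧
    (∀ y : ℝ, 0 < y → k * y ≤ 1 → (k * y) ^ k = 1 - (1 - y) ^ k → y = x) ∧
    1 < 2 * (k * x) ^ (k - 1) := by
  obtain ⟨ρ, h0, h1, hρ⟩ := Pool.Agent.W170.K5.root k hk
  have hk0 : (0 : ℝ) < k := by positivity
  have hkk : (1 : ℝ) ≤ k := by exact_mod_cast (by omega : 1 ≤ k)
  have e : (k : ℝ) * (ρ / k) = ρ := by field_simp
  refine ⟨ρ / k, by positivity, by rw [e]; exact h1, ?_, ?_, ?_, ?_, ?_⟩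
  · rw [e]; linarith
  · intro y hy0 hy1
    have hl1 : k * y / ρ ≤ 1 := by
      rw [div_le_one h0]
      calc (k : ℝ) * y ≤ k * (ρ / k) := mul_le_mul_of_nonneg_left hy1 hk0.le
        _ = ρ := e
    have h := g_scale k hk (k * y / ρ) ρ (by positivity) hl1 h0.le h1.le
    rw [hρ] at h
    have e1 : k * y / ρ * ρ = k * y := by field_simp
    rw [e1] at h
    have e2 : (k : ℝ) * y / k = y := by field_simp
    rw [e2] at h
    linarith
  · intro y hy0 hy1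
    have hy : 0 < y := lt_of_lt_of_le (by positivity) hy0
    have hky : 0 < k * y := by positivity
    have hl1 : ρ / (k * y) ≤ 1 := by
      rw [div_le_one hky]
      calc ρ = k * (ρ / k) := e.symm
        _ ≤ k * y := mul_le_mul_of_nonneg_left hy0 hk0.le
    have h := g_scale k hk (ρ / (k * y)) (k * y) (by positivity) hl1 hky.le hy1
    have e1 : ρ / (k * y) * (k * y) = ρ := by field_simp
    rw [e1, hρ] at h
    have e2 : (k : ℝ) * y / k = y := by field_simp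
    rw [e2] at h
    have hpos : 0 < ρ / (k * y) := by positivity
    have h3 : ρ / (k * y) * 1 ≤ ρ / (k * y) * ((k * y) ^ k + (1 - y) ^ k) := by linarith
    have h4 := le_of_mul_le_mul_left h3 hpos
    linarith
  · intro y hy0 hy1 hyr
    have hky : 0 < k * y := by positivity
    have e2 : (k : ℝ) * y / k = y := by field_simp
    rcases lt_trichotomy (k * y) ρ with hlt | heq | hgt
    · exfalso
      have h := g_scale_lt k hk (k * y / ρ) ρ (by positivity) (by rw [div_lt_one h0]; exact hlt) h0 h1.le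
      rw [hρ] at h
      have e1 : k * y / ρ * ρ = k * y := by field_simp
      rw [e1, e2] at h
      linarith
    · rw [← heq, e2]
    · exfalso
      have h := g_scale_lt k hk (ρ / (k * y)) (k * y) (by positivity)
        (by rw [div_lt_one hky]; exact hgt) hky hy1
      have e1 : ρ / (k * y) * (k * y) = ρ := by field_simp
      rw [e1, hρ, e2, hyr] at h
      linarith
  · rw [e]
    have hb := pow_bonf k (ρ / k) (by positivity) (by
      rw [div_le_one hk0]; linarith)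
    rw [e] at hb
    have h3 : (k : ℝ) * (k - 1) / 2 * (ρ / k) ^ 2 ≤ ρ ^ 2 / 2 := by
      have e3 : (k : ℝ) * (k - 1) / 2 * (ρ / k) ^ 2 = (1 - 1 / k) * (ρ ^ 2 / 2) := by
        field_simp
      rw [e3]
      have : (1 - 1 / (k : ℝ)) ≤ 1 := by
        have : 0 < 1 / (k : ℝ) := by positivity
        linarith
      calc (1 - 1 / (k : ℝ)) * (ρ ^ 2 / 2) ≤ 1 * (ρ ^ 2 / 2) :=
            mul_le_mul_of_nonneg_right this (by positivity)
        _ = ρ ^ 2 / 2 := one_mul _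
    have h4 : ρ - ρ ^ 2 / 2 ≤ ρ ^ k := by linarith
    have e4 : ρ ^ k = ρ * ρ ^ (k - 1) := by
      rw [← pow_succ']
      congr 1
      omega
    have e5 : ρ - ρ ^ 2 / 2 = ρ * (1 - ρ / 2) := by ring
    rw [e4, e5] at h4
    have h5 := le_of_mul_le_mul_left h4 h0
    linarith

end Pool.Agent.U196.EMC
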