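import Mathlib
import Pool.Agent.U196.EMC.High

/-!
# Exact Erdős matching conjecture: the asymptotic bound, uniform in the matching number
-/

set_option autoImplicit false

namespace Pool.Agent.U196.EMC

open Finset Pool.Agent.W890.SF Pool.Agent.W593.IR

theorem windowRaw (k : ℕ) (hk : 2 ≤ k) (x0 : ℝ) (hx0 : 0 < x0) (δ : ℝ) (hδ : 0 < δ) :
    ∃ n0 : ℕ, ∀ n : ℕ, n0 ≤ n → ∀ F : Finset (Finset (Fin n)), Unif k F → ∀ s : ℕ,
      x0 * n ≤ s → k * (s + 1) ≤ n → ¬ HasM F (s + 1) →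
      (k.factorial : ℝ) * F.card ≤ max ((n : ℝ) ^ k - ((n : ℝ) - s) ^ k) ((k * s) ^ k) +
        δ * (n : ℝ) ^ k := by
  classical
  obtain ⟨j, rfl⟩ : ∃ j, k = j + 2 := ⟨k - 2, by omega⟩
  set K : ℝ := ((j + 2 : ℕ) : ℝ) with hK
  have hK0 : 0 < K := by positivity
  have hK1 : 1 ≤ K := by
    rw [hK]
    have : 1 ≤ j + 2 := by omega
    exact_mod_cast this
  set f : ℝ := ((j + 2).factorial : ℝ) with hf
  have hf0 : 0 < f := by positivity
  -- θ
  set Z : ℝ := K * 2 ^ (j + 4) with hZ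
  have hZ0 : 0 < Z := by positivity
  obtain ⟨θ, hθ0, hθ1, hθ2⟩ : ∃ θ : ℝ, 0 < θ ∧ θ ≤ 1 / 2 ∧ Z * θ ≤ δ / 4 := by
    refine ⟨min (1 / 2) (δ / 4 / Z), by positivity, min_le_left _ _, ?_⟩
    calc Z * min (1 / 2) (δ / 4 / Z) ≤ Z * (δ / 4 / Z) :=
          mul_le_mul_of_nonneg_left (min_le_right _ _) hZ0.le
      _ = δ / 4 := by field_simp
  obtain ⟨c, hc0, hc1⟩ : ∃ c : ℝ, 0 < c ∧ f * c ≤ δ / 4 := by
    refine ⟨δ / 4 / f, by positivity, le_of_eq (by field_simp)⟩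
  obtain ⟨n1, H⟩ := cover (j + 2) (by omega) x0 c θ hx0 hc0 hθ0
  obtain ⟨n2, hn2⟩ := exists_nat_ge (Z / (δ / 4) + 8 + 4 / θ)
  refine ⟨max n1 n2, ?_⟩
  intro n hn F hF s hs hsn hno
  have hnn1 : n1 ≤ n := (le_max_left _ _).trans hn
  have hnn2 : (n2 : ℝ) ≤ n := by exact_mod_cast (le_max_right _ _).trans hn
  have p1 : 0 < Z / (δ / 4) := by positivity
  have p2 : 0 < 4 / θ := by positivity
  have hn0 : (0 : ℝ) < n := by linarith
  have hn8 : (8 : ℝ) ≤ n := by linarith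
  have hnθ : 4 ≤ θ * n := by
    have : 4 / θ ≤ n := by linarith
    rw [div_le_iff₀ hθ0] at this
    linarith
  have hnZ : Z ≤ δ / 4 * n := by
    have : Z / (δ / 4) ≤ n := by linarith
    rw [div_le_iff₀ (by positivity)] at this
    linarith
  have hs0 : (0 : ℝ) ≤ s := Nat.cast_nonneg s
  have hksn : K * (s + 1) ≤ n := by rw [hK]; exact_mod_cast hsn
  have hks : K * s ≤ n := by linarith
  have hsn' : (s : ℝ) ≤ n := (le_mul_of_one_le_left hs0 hK1).trans hks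
  have h2s : 2 * s ≤ n := by
    have h1 : 2 * s ≤ (j + 2) * (s + 1) := Nat.mul_le_mul (by omega) (by omega)
    omega
  obtain ⟨y, hy, hys, hysup, F', hF'F, hF'cov, hF'c⟩ := H n hnn1 F hF s hs h2s hno
  have hspos : 0 < (s : ℝ) := lt_of_lt_of_le (by positivity) hs
  -- `p`
  obtain ⟨p, hp⟩ : ∃ p : ℕ, p = ⌈K * ((1 + θ) * s)⌉₊ := ⟨_, rfl⟩
  have hKe : 0 ≤ K * ((1 + θ) * s) := by positivity
  have hp1 : K * ((1 + θ) * s) ≤ p := by rw [hp]; exact Nat.le_ceil _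
  have hp2 : (p : ℝ) ≤ K * ((1 + θ) * s) + 1 := by rw [hp]; exact (Nat.ceil_lt_add_one hKe).le
  have hsum : K * ∑ v, y v ≤ p := (mul_le_mul_of_nonneg_left hys hK0.le).trans hp1
  have hsupp : (univ.filter (fun v => y v ≠ 0)).card ≤ p := by
    have : ((univ.filter (fun v => y v ≠ 0)).card : ℝ) ≤ p := hysup.trans hsum
    exact_mod_cast this
  have hp0 : 0 < p := by
    have : (0 : ℝ) < p := lt_of_lt_of_le (by positivity) hp1
    exact_mod_cast this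
  have hεn : K * (θ * s) ≤ θ * n := by
    have := mul_le_mul_of_nonneg_left hks hθ0.le
    linarith
  have hKs' : K * ((1 + θ) * s) = K * s + K * (θ * s) := by ring
  -- `q`
  obtain ⟨q, hq⟩ : ∃ q : ℕ, q = ⌈θ * n⌉₊ + 1 := ⟨_, rfl⟩
  have hq1 : θ * n + 1 ≤ (q : ℝ) := by
    rw [hq]; push_cast; linarith [Nat.le_ceil (θ * (n : ℝ))]
  have hq2 : (q : ℝ) ≤ 2 * (θ * n) := by
    rw [hq]; push_cast
    have := (Nat.ceil_lt_add_one (show 0 ≤ θ * (n : ℝ) by positivity)).le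
    linarith
  have hqn : (q : ℝ) ≤ n := by
    refine hq2.trans ?_
    have : θ * n ≤ 1 / 2 * n := mul_le_mul_of_nonneg_right hθ1 hn0.le
    linarith
  have hpn : (p : ℝ) ≤ n + q := by linarith
  have hpn' : p ≤ n + q := by exact_mod_cast hpn
  have hadd := addz j y hy p q hp0 hpn' hsupp hsum
  rw [← hK] at hadd
  have hNG0 : 0 ≤ K * q * (NG y (j + 1) : ℝ) := by positivity
  -- evaluate `mv`
  have hnq : (0 : ℝ) < ((n + q : ℕ) : ℝ) := by push_cast; linarith [Nat.cast_nonneg (α := ℝ) q]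
  have hval : ((n + q : ℕ) : ℝ) ^ (j + 2) * mv (j + 2) ((p : ℝ) / ((n + q : ℕ) : ℝ) / K) =
      max (((n + q : ℕ) : ℝ) ^ (j + 2) - (((n + q : ℕ) : ℝ) - p / K) ^ (j + 2)) ((p : ℝ) ^ (j + 2)) := by
    unfold mv
    rw [mul_max_of_nonneg _ _ (by positivity : (0 : ℝ) ≤ ((n + q : ℕ) : ℝ) ^ (j + 2))]
    congr 1
    · rw [mul_sub, mul_one, ← mul_pow]
      congr 2
      field_simp
    · rw [← mul_pow]
      congr 1
      rw [← hK]
      field_simp
  rw [hval] at hadd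
  -- bounds
  have hb1 : ((n + q : ℕ) : ℝ) ^ (j + 2) ≤ (n : ℝ) ^ (j + 2) + Z / 2 * θ * (n : ℝ) ^ (j + 2) := by
    have h1 := pow_sub_le ((n + q : ℕ) : ℝ) n (j + 1) hn0.le (by push_cast; linarith [Nat.cast_nonneg (α := ℝ) q])
    have h2 : (((j + 1 : ℕ) : ℝ) + 1) = K := by rw [hK]; push_cast; ring
    rw [h2] at h1
    have h3 : ((n + q : ℕ) : ℝ) - n = q := by push_cast; ring
    rw [h3] at h1
    have h4 : ((n + q : ℕ) : ℝ) ^ (j + 1) ≤ (2 * n) ^ (j + 1) :=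
      pow_le_pow_left₀ hnq.le (by push_cast; linarith) _
    have h5 : K * ((n + q : ℕ) : ℝ) ^ (j + 1) * q ≤ K * (2 * n) ^ (j + 1) * (2 * (θ * n)) :=
      mul_le_mul (mul_le_mul_of_nonneg_left h4 hK0.le) hq2 (Nat.cast_nonneg _) (by positivity)
    have h6 : K * (2 * n) ^ (j + 1) * (2 * (θ * n)) = K * 2 ^ (j + 2) * θ * (n : ℝ) ^ (j + 2) := by
      rw [mul_pow]; ring
    have h7 : K * 2 ^ (j + 2) ≤ Z / 2 := by
      rw [hZ]
      have : (2 : ℝ) ^ (j + 4) = 4 * 2 ^ (j + 2) := by ring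
      rw [this]
      have : 0 < K * 2 ^ (j + 2) := by positivity
      linarith
    have h8 : K * 2 ^ (j + 2) * θ * (n : ℝ) ^ (j + 2) ≤ Z / 2 * θ * (n : ℝ) ^ (j + 2) :=
      mul_le_mul_of_nonneg_right (mul_le_mul_of_nonneg_right h7 hθ0.le) (by positivity)
    linarith
  have hb2 : ((n : ℝ) - s) ^ (j + 2) ≤ (((n + q : ℕ) : ℝ) - p / K) ^ (j + 2) := by
    refine pow_le_pow_left₀ (by linarith) ?_ _
    have h1 : (p : ℝ) / K ≤ s + q := by
      rw [div_le_iff₀ hK0]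
      have h2 : (q : ℝ) ≤ q * K := le_mul_of_one_le_right (Nat.cast_nonneg _) hK1
      linarith
    push_cast
    linarith
  have hb3 : (p : ℝ) ^ (j + 2) ≤ (K * s) ^ (j + 2) + Z / 2 * (θ * (n : ℝ) ^ (j + 2) + (n : ℝ) ^ (j + 1)) := by
    have h1 := pow_sub_le p (K * s) (j + 1) (by positivity) (by
      have : 0 ≤ K * (θ * s) := by positivity
      linarith)
    have h2 : (((j + 1 : ℕ) : ℝ) + 1) = K := by rw [hK]; push_cast; ring
    rw [h2] at h1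
    have h3 : (p : ℝ) ≤ 2 * n := by linarith
    have h4 : (p : ℝ) ^ (j + 1) ≤ (2 * n) ^ (j + 1) := pow_le_pow_left₀ (Nat.cast_nonneg _) h3 _
    have h5 : K * (p : ℝ) ^ (j + 1) * (p - K * s) ≤ K * (2 * n) ^ (j + 1) * (θ * n + 1) := by
      refine mul_le_mul (mul_le_mul_of_nonneg_left h4 hK0.le) ?_ ?_ (by positivity)
      · linarith
      · have : 0 ≤ K * (θ * s) := by positivity
        linarith
    have h6 : K * (2 * n) ^ (j + 1) * (θ * n + 1) =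
        K * 2 ^ (j + 1) * (θ * (n : ℝ) ^ (j + 2) + (n : ℝ) ^ (j + 1)) := by
      rw [mul_pow]; ring
    have h7 : K * 2 ^ (j + 1) ≤ Z / 2 := by
      rw [hZ]
      have : (2 : ℝ) ^ (j + 4) = 8 * 2 ^ (j + 1) := by ring
      rw [this]
      have : 0 < K * 2 ^ (j + 1) := by positivity
      linarith
    have h8 : K * 2 ^ (j + 1) * (θ * (n : ℝ) ^ (j + 2) + (n : ℝ) ^ (j + 1)) ≤
        Z / 2 * (θ * (n : ℝ) ^ (j + 2) + (n : ℝ) ^ (j + 1)) :=
      mul_le_mul_of_nonneg_right h7 (by positivity)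
    linarith
  have hZn : Z / 2 * (n : ℝ) ^ (j + 1) ≤ δ / 8 * (n : ℝ) ^ (j + 2) := by
    have h1 : δ / 8 * (n : ℝ) ^ (j + 2) = (δ / 4 * n) / 2 * (n : ℝ) ^ (j + 1) := by ring
    rw [h1]
    exact mul_le_mul_of_nonneg_right (by linarith) (by positivity)
  have hZθ : Z / 2 * θ * (n : ℝ) ^ (j + 2) ≤ δ / 8 * (n : ℝ) ^ (j + 2) :=
    mul_le_mul_of_nonneg_right (by linarith) (by positivity)
  have hnk0 : 0 ≤ (n : ℝ) ^ (j + 2) := by positivity
  have hmax : max (((n + q : ℕ) : ℝ) ^ (j + 2) - (((n + q : ℕ) : ℝ) - p / K) ^ (j + 2))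
      ((p : ℝ) ^ (j + 2)) ≤ max ((n : ℝ) ^ (j + 2) - ((n : ℝ) - s) ^ (j + 2)) ((K * s) ^ (j + 2)) +
        δ / 4 * (n : ℝ) ^ (j + 2) := by
    refine max_le ?_ ?_
    · have := le_max_left ((n : ℝ) ^ (j + 2) - ((n : ℝ) - s) ^ (j + 2)) ((K * s) ^ (j + 2))
      have h0 : 0 ≤ δ * (n : ℝ) ^ (j + 2) := by positivity
      linarith
    · have := le_max_right ((n : ℝ) ^ (j + 2) - ((n : ℝ) - s) ^ (j + 2)) ((K * s) ^ (j + 2))
      have h0 : Z / 2 * (θ * (n : ℝ) ^ (j + 2) + (n : ℝ) ^ (j + 1)) =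
        Z / 2 * θ * (n : ℝ) ^ (j + 2) + Z / 2 * (n : ℝ) ^ (j + 1) := by ring
      linarith
  have hfac : (f * F'.card : ℝ) ≤ (NG y (j + 2) : ℝ) := by
    have h1 := t_FAC (Fin n) (j + 2) F' y (fun e he => hF e (hF'F he)) hF'cov
    rw [mul_comm, hf]
    exact_mod_cast h1
  have hfc : f * ((F.card : ℝ) - F'.card) ≤ δ / 4 * (n : ℝ) ^ (j + 2) := by
    have h1 : f * ((F.card : ℝ) - F'.card) ≤ f * (c * (n : ℝ) ^ (j + 2)) :=
      mul_le_mul_of_nonneg_left hF'c hf0.le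
    have h2 : f * (c * (n : ℝ) ^ (j + 2)) = f * c * (n : ℝ) ^ (j + 2) := by ring
    have h3 : f * c * (n : ℝ) ^ (j + 2) ≤ δ / 4 * (n : ℝ) ^ (j + 2) :=
      mul_le_mul_of_nonneg_right hc1 hnk0
    linarith
  have h0 : 0 ≤ δ * (n : ℝ) ^ (j + 2) := by positivity
  linarith

/-- the bound in terms of the two families -/
theorem window (k : ℕ) (hk : 2 ≤ k) (x0 : ℝ) (hx0 : 0 < x0) (ε : ℝ) (hε : 0 < ε) :
    ∃ n0 : ℕ, ∀ n : ℕ, n0 ≤ n → ∀ F : Finset (Finset (Fin n)), Unif k F → ∀ s : ℕ,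
      x0 * n ≤ s → k * (s + 1) ≤ n → ¬ HasM F (s + 1) →
      (F.card : ℝ) ≤ (1 + ε) * ((max (n.choose k - (n - s).choose k) ((k * (s + 1) - 1).choose k) : ℕ) : ℝ) := by
  classical
  set f : ℝ := (k.factorial : ℝ) with hf
  have hf0 : 0 < f := by positivity
  have hk0 : (0 : ℝ) < k := by exact_mod_cast (by omega : 0 < k)
  have hkx0 : 0 < (k * x0) ^ k := by positivity
  set δ : ℝ := ε * (k * x0) ^ k / 2 with hδ
  have hδ0 : 0 < δ := by positivity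
  obtain ⟨n1, H⟩ := windowRaw k hk x0 hx0 δ hδ0
  obtain ⟨n2, hn2⟩ := exists_nat_ge ((k : ℝ) ^ 2 / δ + k + 1)
  refine ⟨max n1 n2, ?_⟩
  intro n hn F hF s hs hsn hno
  have hnn1 : n1 ≤ n := (le_max_left _ _).trans hn
  have hnn2 : (n2 : ℝ) ≤ n := by exact_mod_cast (le_max_right _ _).trans hn
  have p1 : 0 < (k : ℝ) ^ 2 / δ := by positivity
  have hn0 : (0 : ℝ) < n := by linarith
  have hkn : (k : ℝ) ≤ n := by linarith
  have hkn' : k ≤ n := by exact_mod_cast hkn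
  have hnδ : (k : ℝ) ^ 2 ≤ δ * n := by
    have : (k : ℝ) ^ 2 / δ ≤ n := by linarith
    rw [div_le_iff₀ hδ0] at this
    linarith
  have h := H n hnn1 F hF s hs hsn hno
  have hs0 : (0 : ℝ) ≤ s := Nat.cast_nonneg s
  have hsn' : s ≤ n := by
    have : s ≤ k * (s + 1) := le_trans (Nat.le_succ s) (Nat.le_mul_of_pos_left _ (by omega))
    omega
  -- lower bound for the second family
  have hlow2 : ((k : ℝ) * s) ^ k ≤ f * (((k * (s + 1) - 1).choose k : ℕ) : ℝ) := by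
    have h1 := Nat.pow_le_choose (α := ℝ) k (k * (s + 1) - 1)
    rw [div_le_iff₀ (by positivity)] at h1
    have h2 : k * (s + 1) - 1 + 1 - k = k * s := by
      have : k * (s + 1) = k * s + k := by ring
      omega
    rw [h2] at h1
    push_cast at h1
    linarith
  -- lower bound for the first family
  have hlow1 : (n : ℝ) ^ k - ((n : ℝ) - s) ^ k - δ * (n : ℝ) ^ k ≤
      f * ((n.choose k - (n - s).choose k : ℕ) : ℝ) := by
    have h1 := Nat.pow_le_choose (α := ℝ) k n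
    rw [div_le_iff₀ (by positivity)] at h1
    have hc1 : ((n + 1 - k : ℕ) : ℝ) = (n : ℝ) - (k - 1) := by
      rw [Nat.cast_sub (by omega)]; push_cast; ring
    rw [hc1] at h1
    obtain ⟨j, rfl⟩ : ∃ j, k = j + 1 := ⟨k - 1, by omega⟩
    have h2 := pow_sub_le (n : ℝ) ((n : ℝ) - (((j + 1 : ℕ) : ℝ) - 1)) j (by linarith) (by
      push_cast; linarith [Nat.cast_nonneg (α := ℝ) j])
    have h3 : (n : ℝ) - (n - (((j + 1 : ℕ) : ℝ) - 1)) = j := by push_cast; ring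
    rw [h3] at h2
    have h4 : ((j : ℝ) + 1) * (n : ℝ) ^ j * j ≤ δ * (n : ℝ) ^ (j + 1) := by
      have e1 : δ * (n : ℝ) ^ (j + 1) = (δ * n) * (n : ℝ) ^ j := by ring
      have e2 : ((j : ℝ) + 1) * (n : ℝ) ^ j * j = (((j : ℝ) + 1) * j) * (n : ℝ) ^ j := by ring
      rw [e1, e2]
      refine mul_le_mul_of_nonneg_right ?_ (by positivity)
      push_cast at hnδ
      nlinarith [Nat.cast_nonneg (α := ℝ) j]
    have h5 : (((n - s).choose (j + 1) : ℕ) : ℝ) * f ≤ ((n : ℝ) - s) ^ (j + 1) := by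
      have h6 := Nat.choose_le_pow_div (α := ℝ) (j + 1) (n - s)
      rw [le_div_iff₀ (by positivity)] at h6
      rw [Nat.cast_sub hsn'] at h6
      exact h6
    have hmono : (n - s).choose (j + 1) ≤ n.choose (j + 1) := Nat.choose_le_choose _ (Nat.sub_le _ _)
    rw [Nat.cast_sub hmono, mul_sub]
    linarith
  -- conclusion
  set m1 := n.choose k - (n - s).choose k with hm1
  set m2 := (k * (s + 1) - 1).choose k with hm2
  have hM1 : ((m1 : ℕ) : ℝ) ≤ ((max m1 m2 : ℕ) : ℝ) := by exact_mod_cast le_max_left m1 m2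
  have hM2 : ((m2 : ℕ) : ℝ) ≤ ((max m1 m2 : ℕ) : ℝ) := by exact_mod_cast le_max_right m1 m2
  have hnk0 : 0 ≤ (n : ℝ) ^ k := by positivity
  have hmax : max ((n : ℝ) ^ k - ((n : ℝ) - s) ^ k) (((k : ℝ) * s) ^ k) ≤
      f * ((max m1 m2 : ℕ) : ℝ) + δ * (n : ℝ) ^ k := by
    refine max_le ?_ ?_
    · have := mul_le_mul_of_nonneg_left hM1 hf0.le
      linarith
    · have := mul_le_mul_of_nonneg_left hM2 hf0.le
      have h0 : 0 ≤ δ * (n : ℝ) ^ k := by positivity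
      linarith
  have hkey : 2 * (δ * (n : ℝ) ^ k) ≤ ε * (f * ((max m1 m2 : ℕ) : ℝ)) := by
    have h1 : ((k : ℝ) * (x0 * n)) ^ k ≤ (k * s) ^ k :=
      pow_le_pow_left₀ (by positivity) (mul_le_mul_of_nonneg_left hs hk0.le) _
    have h2 : ((k : ℝ) * (x0 * n)) ^ k = (k * x0) ^ k * (n : ℝ) ^ k := by
      rw [← mul_pow]; ring
    have h3 := mul_le_mul_of_nonneg_left hM2 hf0.le
    have h4 : (k * x0) ^ k * (n : ℝ) ^ k ≤ f * ((max m1 m2 : ℕ) : ℝ) := by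
      rw [← h2]
      linarith
    have h5 := mul_le_mul_of_nonneg_left h4 hε.le
    have e1 : 2 * (δ * (n : ℝ) ^ k) = ε * ((k * x0) ^ k * (n : ℝ) ^ k) := by rw [hδ]; ring
    rw [e1]
    exact h5
  have hfin : f * (F.card : ℝ) ≤ f * ((1 + ε) * ((max m1 m2 : ℕ) : ℝ)) := by
    have e1 : f * ((1 + ε) * ((max m1 m2 : ℕ) : ℝ)) =
        f * ((max m1 m2 : ℕ) : ℝ) + ε * (f * ((max m1 m2 : ℕ) : ℝ)) := by ring
    rw [e1]
    linarith
  exact le_of_mul_le_mul_left hfin hf0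

end Pool.Agent.U196.EMC
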