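import Mathlib
import Pool.Agent.W890.SF.All2
import Pool.Agent.U196.EMC.Local
import Pool.Agent.U196.EMC.Window
import Pool.Agent.U196.EMC.LowE
import Pool.Agent.U196.EMC.Range

/-!
# Exact Erdős matching conjecture for large `n` outside the critical window
-/

set_option autoImplicit false

namespace Pool.Agent.U196.EMC

open Finset Pool.Agent.W890.SF Pool.Agent.W593.IR

theorem emcHigh (k : ℕ) (hk : 3 ≤ k) (x2' x2 : ℝ) (h0 : 0 < x2') (h12 : x2' < x2)
    (hreg : ∀ x : ℝ, x2' ≤ x → k * x ≤ 1 → 1 - (1 - x) ^ k ≤ (k * x) ^ k)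
    (hx2 : 1 < 2 * (k * x2) ^ (k - 1)) :
    ∃ n0 : ℕ, ∀ n : ℕ, n0 ≤ n → ∀ F : Finset (Finset (Fin n)), Unif k F →
      ∀ s : ℕ, x2 * n ≤ s → k * (s + 1) ≤ n → (k * (s + 1) - 1).choose k < F.card →
        HasM F (s + 1) := by
  obtain ⟨γ, hγ, n1, H1⟩ := cliqueLocal t_PMU k hk x2 hx2 (h0.trans h12)
  obtain ⟨n2, H2⟩ := highStab k hk x2' x2 h0 h12 hreg γ hγ
  refine ⟨max n1 n2, fun n hn F hF s hs hsn hFc => ?_⟩
  by_contra hcon
  obtain ⟨T, hT1, hT2, hT3⟩ := H2 n ((le_max_right _ _).trans hn) F hF s hs hsn hFc.le hcon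
  exact hcon (H1 n ((le_max_left _ _).trans hn) F hF s hs hsn hFc T hT1 hT2 hT3)

/-- numerical bounds for the threshold -/
theorem threshold_bounds (k : ℕ) (hk : 3 ≤ k) (x : ℝ) (hx0 : 0 < x) (hx1 : k * x < 1)
    (hroot : (k * x) ^ k = 1 - (1 - x) ^ k)
    (hlo : ∀ y : ℝ, 0 ≤ y → y ≤ x → (k * y) ^ k ≤ 1 - (1 - y) ^ k)
    (hhi : ∀ y : ℝ, x ≤ y → k * y ≤ 1 → 1 - (1 - y) ^ k ≤ (k * y) ^ k) :
    2 / (2 * (k : ℝ) + 1) < x ∧ x < 20 / (20 * (k : ℝ) + 9) := by
  have hk0 : (0 : ℝ) < k := by exact_mod_cast (by omega : 0 < k)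
  rcases Nat.lt_or_ge k 6 with h6 | h6
  · constructor
    · by_contra hcon
      push Not at hcon
      have h := hhi _ hcon (by
        rw [← mul_div_assoc, div_le_one (by positivity)]
        linarith)
      interval_cases k <;> norm_num at h
    · by_contra hcon
      push Not at hcon
      have h := hlo _ (by positivity) hcon
      interval_cases k <;> norm_num at h
  · have hrc : Pool.Agent.Q54.EM.RC k (k * x) := by
      refine ⟨by positivity, hx1, ?_⟩
      have e : (k : ℝ) * x / k = x := by field_simp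
      rw [e]
      linarith
    obtain ⟨-, -, h3, h4, -⟩ := Pool.Agent.Q54.EM.t_CS k (k * x) h6 hrc
    have hkx : 0 < (k : ℝ) * x := by positivity
    have e : (k : ℝ) * x / k = x := by field_simp
    rw [e, le_div_iff₀ hkx] at h3
    rw [div_le_iff₀ hkx] at h4
    have h3' : (458 / 1000 + 88 / 1000 * x) * x ≤ 1 - k * x := by
      have : (458 / 1000 + 88 / 1000 * x) * (k * x) = k * ((458 / 1000 + 88 / 1000 * x) * x) := by ring
      rw [this] at h3
      exact le_of_mul_le_mul_left h3 hk0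
    have h4' : 1 - k * x ≤ 4724 / 10000 * x := by
      have : (4724 / 10000 : ℝ) * (k * x) = k * (4724 / 10000 * x) := by ring
      rw [this] at h4
      exact le_of_mul_le_mul_left h4 hk0
    constructor
    · rw [div_lt_iff₀ (by positivity)]
      nlinarith
    · rw [lt_div_iff₀ (by positivity)]
      nlinarith [mul_pos hx0 hx0]

theorem main (k : ℕ) (hk : 3 ≤ k) :
    ∃ x : ℝ, 2 / (2 * (k : ℝ) + 1) < x ∧ x < 20 / (20 * (k : ℝ) + 9) ∧
      (k * x) ^ k = 1 - (1 - x) ^ k ∧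
      (∀ y : ℝ, 0 < y → k * y ≤ 1 → (k * y) ^ k = 1 - (1 - y) ^ k → y = x) ∧
      ∀ ε : ℝ, 0 < ε → ∃ n0 : ℕ, ∀ n : ℕ, n0 ≤ n → ∀ s : ℕ, k * (s + 1) ≤ n →
        (((s : ℝ) ≤ (x - ε) * n → mm n k s = n.choose k - (n - s).choose k) ∧
        ((x + ε) * n ≤ (s : ℝ) → mm n k s = (k * (s + 1) - 1).choose k) ∧
        max (n.choose k - (n - s).choose k) ((k * (s + 1) - 1).choose k) ≤ mm n k s ∧
        (mm n k s : ℝ) ≤ (1 + ε) *
          ((max (n.choose k - (n - s).choose k) ((k * (s + 1) - 1).choose k) : ℕ) : ℝ)) := by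
  obtain ⟨x, hx0, hx1, hroot, hlo, hhi, huniq, hdeg⟩ := threshold k (by omega)
  have hk0 : (0 : ℝ) < k := by exact_mod_cast (by omega : 0 < k)
  obtain ⟨hb1, hb2⟩ := threshold_bounds k hk x hx0 hx1 hroot hlo hhi
  refine ⟨x, hb1, hb2, hroot, huniq, ?_⟩
  intro ε hε
  obtain ⟨x', hx'0, hx'1, hx'2⟩ : ∃ x' : ℝ, 0 < x' ∧ x' < x ∧ x - ε ≤ x' := by
    refine ⟨max (x / 2) (x - ε), by positivity, max_lt (by linarith) (by linarith), le_max_right _ _⟩
  obtain ⟨n1, H1⟩ := emcLow k hk x' x hx'1 hx'0 hx1 (fun y h0 h1 => hlo y h0 h1)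
  obtain ⟨n2, H2⟩ := emcHigh k hk x (x + ε) hx0 (by linarith) hhi (by
    have h1 : (k * x) ^ (k - 1) ≤ (k * (x + ε)) ^ (k - 1) :=
      pow_le_pow_left₀ (by positivity) (mul_le_mul_of_nonneg_left (by linarith) hk0.le) _
    linarith)
  obtain ⟨n3, H3⟩ := window k (by omega) x' hx'0 ε hε
  refine ⟨max n1 (max n2 n3), ?_⟩
  intro n hn s hsn
  have hn1 : n1 ≤ n := (le_max_left _ _).trans hn
  have hn2 : n2 ≤ n := ((le_max_left _ _).trans (le_max_right _ _)).trans hn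
  have hn3 : n3 ≤ n := ((le_max_right _ _).trans (le_max_right _ _)).trans hn
  have hs : s ≤ n := by
    have : s ≤ k * (s + 1) := le_trans (Nat.le_succ s) (Nat.le_mul_of_pos_left _ (by omega))
    omega
  obtain ⟨l1, l2, l3⟩ := t_LOW n k s (by omega) hs
  have l2' := l2 (by omega)
  have hnn : (0 : ℝ) ≤ n := Nat.cast_nonneg n
  have hlow : (s : ℝ) ≤ x' * n → mm n k s = n.choose k - (n - s).choose k := by
    intro hsx
    exact le_antisymm (l3 _ (fun F hF hc => H1 n hn1 s hsx F hF hc)) l1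
  refine ⟨fun h => hlow (h.trans (mul_le_mul_of_nonneg_right hx'2 hnn)), ?_, max_le l1 l2', ?_⟩
  · intro h
    exact le_antisymm (l3 _ (fun F hF hc => H2 n hn2 F hF s h hsn hc)) l2'
  · rcases le_total (s : ℝ) (x' * n) with h | h
    · rw [hlow h]
      have h1 : ((n.choose k - (n - s).choose k : ℕ) : ℝ) ≤
          ((max (n.choose k - (n - s).choose k) ((k * (s + 1) - 1).choose k) : ℕ) : ℝ) := by
        exact_mod_cast le_max_left _ _
      have h2 : (0 : ℝ) ≤
          ((max (n.choose k - (n - s).choose k) ((k * (s + 1) - 1).choose k) : ℕ) : ℝ) :=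
        Nat.cast_nonneg _
      nlinarith
    · obtain ⟨F, hFc, hF, hFM⟩ := R2.mm_mem n k s
      rw [← hFc]
      refine H3 n hn3 F hF s h hsn ?_
      rintro ⟨M, hMF, hM, hMc⟩
      have := hFM M hMF (fun a ha b hb hab => hM a ha b hb hab)
      omega

end Pool.Agent.U196.EMC
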